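import Pool.Agent.T2h94.Wick

/-!
# The sum over pairings of a sum of two covariances
-/

namespace Pool.Agent.T2h69.WA1

open Pool.Agent.T2h94

variable {ι : Type} [LinearOrder ι]

/-- exchange of the choice of a subset and of an element of it -/
lemma swap_in (S : Finset ι) (F : ι → Finset ι → ℝ) :
    ∑ T ∈ S.powerset, ∑ t ∈ T, F t (T.erase t) = ∑ t ∈ S, ∑ U ∈ (S.erase t).powerset, F t U := by
  rw [Finset.sum_sigma', Finset.sum_sigma']
  refine Finset.sum_bij' (fun x _ => ⟨x.2, x.1.erase x.2⟩) (fun y _ => ⟨insert y.1 y.2, y.1⟩)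
    ?_ ?_ ?_ ?_ ?_
  · rintro ⟨T, t⟩ h
    simp only [Finset.mem_sigma, Finset.mem_powerset] at h ⊢
    exact ⟨h.1 h.2, Finset.erase_subset_erase _ h.1⟩
  · rintro ⟨t, U⟩ h
    simp only [Finset.mem_sigma, Finset.mem_powerset] at h ⊢
    refine ⟨Finset.insert_subset h.1 (h.2.trans (Finset.erase_subset _ _)),
      Finset.mem_insert_self _ _⟩
  · rintro ⟨T, t⟩ h
    simp only [Finset.mem_sigma, Finset.mem_powerset] at h
    simp only [Finset.insert_erase h.2]
  · rintro ⟨t, U⟩ h
    simp only [Finset.mem_sigma, Finset.mem_powerset] at h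
    have : t ∉ U := fun hh => Finset.notMem_erase t S (h.2 hh)
    simp only [Finset.erase_insert this]
  · rintro ⟨T, t⟩ h
    rfl

/-- exchange of the choice of a subset and of an element outside of it -/
lemma swap_out (S : Finset ι) (F : ι → Finset ι → ℝ) :
    ∑ T ∈ S.powerset, ∑ t ∈ S \ T, F t T = ∑ t ∈ S, ∑ U ∈ (S.erase t).powerset, F t U := by
  refine Finset.sum_comm' fun T t => ?_
  simp only [Finset.mem_powerset, Finset.mem_sdiff, Finset.subset_erase]
  tauto

/-- WA1 -/
theorem main (A B : ι → ι → ℝ) (S : Finset ι) :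
    wick (fun i j => A i j + B i j) S = ∑ T ∈ S.powerset, wick A T * wick B (S \ T) := by
  induction S using wick_ind with
  | h0 => simp [wick_empty]
  | h1 S m hm hmin ih =>
    rw [wick_rec' _ hm hmin]
    have hS : S = insert m (S.erase m) := (Finset.insert_erase hm).symm
    have hnm : m ∉ S.erase m := Finset.notMem_erase m S
    have hps : ∑ T ∈ S.powerset, wick A T * wick B (S \ T) =
        ∑ T ∈ (S.erase m).powerset, wick A T * wick B (S \ T) +
        ∑ T ∈ (S.erase m).powerset, wick A (insert m T) * wick B (S \ insert m T) := by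
      conv_lhs => rw [hS]
      rw [Finset.sum_powerset_insert hnm, Finset.insert_erase hm]
    rw [hps]
    have h1 : ∑ T ∈ (S.erase m).powerset, wick A T * wick B (S \ T) =
        ∑ t ∈ S.erase m, ∑ U ∈ ((S.erase m).erase t).powerset,
          B m t * (wick A U * wick B (((S.erase m).erase t) \ U)) := by
      rw [← swap_out (S.erase m)
        (fun t U => B m t * (wick A U * wick B (((S.erase m).erase t) \ U)))]
      refine Finset.sum_congr rfl fun T hT => ?_
      have hT' := Finset.mem_powerset.1 hT
      have hmT : m ∉ T := fun h => hnm (hT' h)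
      rw [wick_rec' B (S := S \ T) (m := m) (Finset.mem_sdiff.2 ⟨hm, hmT⟩)
        (fun t ht => hmin t (Finset.mem_sdiff.1 ht).1), Finset.mul_sum]
      have e : (S \ T).erase m = S.erase m \ T := by
        ext i; simp only [Finset.mem_erase, Finset.mem_sdiff]; tauto
      rw [e]
      refine Finset.sum_congr rfl fun t _ => ?_
      have e2 : (S.erase m \ T).erase t = (S.erase m).erase t \ T := by
        ext i; simp only [Finset.mem_erase, Finset.mem_sdiff]; tauto
      rw [e2]
      ring
    have h2 : ∑ T ∈ (S.erase m).powerset, wick A (insert m T) * wick B (S \ insert m T) =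
        ∑ t ∈ S.erase m, ∑ U ∈ ((S.erase m).erase t).powerset,
          A m t * (wick A U * wick B (((S.erase m).erase t) \ U)) := by
      rw [← swap_in (S.erase m)
        (fun t U => A m t * (wick A U * wick B (((S.erase m).erase t) \ U)))]
      refine Finset.sum_congr rfl fun T hT => ?_
      have hT' := Finset.mem_powerset.1 hT
      have hmT : m ∉ T := fun h => hnm (hT' h)
      rw [wick_rec' A (S := insert m T) (m := m) (Finset.mem_insert_self _ _)
        (fun t ht => ?_), Finset.erase_insert hmT, Finset.sum_mul]
      · refine Finset.sum_congr rfl fun t ht => ?_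
        have e2 : S \ insert m T = (S.erase m).erase t \ T.erase t := by
          ext i
          simp only [Finset.mem_erase, Finset.mem_sdiff, Finset.mem_insert]
          constructor
          · rintro ⟨g1, g2⟩
            push Not at g2
            refine ⟨⟨fun h => g2.2 (h ▸ ht), g2.1, g1⟩, fun h => g2.2 h.2⟩
          · rintro ⟨⟨g1, g2, g3⟩, g4⟩
            refine ⟨g3, ?_⟩
            rintro (h | h)
            · exact g2 h
            · exact g4 ⟨g1, h⟩
        rw [e2]
        ring
      · rcases Finset.mem_insert.1 ht with rfl | ht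
        · exact le_rfl
        · exact hmin t (Finset.mem_of_mem_erase (hT' ht))
    rw [h1, h2, ← Finset.sum_add_distrib]
    refine Finset.sum_congr rfl fun t ht => ?_
    rw [ih _ (erase_ssub hm t), Finset.mul_sum, ← Finset.sum_add_distrib]
    refine Finset.sum_congr rfl fun U _ => ?_
    ring

end Pool.Agent.T2h69.WA1
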