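import Pool.Agent.T2h94.Wick

/-!
# Sums over pairings for a block covariance
-/

namespace Pool.Agent.T2h69.WA2

open Pool.Agent.T2h94

variable {r : ℕ} {k : Fin r → ℕ}

/-- the part of a set of legs at the vertex `s` -/
def fib (U : Finset (Σₗ s : Fin r, Fin (k s))) (s : Fin r) : Finset (Fin (k s)) :=
  Finset.univ.filter fun i => toLex ⟨s, i⟩ ∈ U

lemma mem_fib {U : Finset (Σₗ s : Fin r, Fin (k s))} {s : Fin r} {i : Fin (k s)} :
    i ∈ fib U s ↔ toLex ⟨s, i⟩ ∈ U := by
  unfold fib; simp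

section erase

/-- the decidable equality of the linear order -/
local instance (priority := 2000) instDE : DecidableEq (Σₗ s : Fin r, Fin (k s)) :=
  LinearOrder.toDecidableEq

lemma fib_erase_ne (U : Finset (Σₗ s : Fin r, Fin (k s))) {s s' : Fin r} (h : s' ≠ s)
    (i : Fin (k s)) : fib (U.erase (toLex ⟨s, i⟩)) s' = fib U s' := by
  ext j
  rw [mem_fib, mem_fib, Finset.mem_erase]
  constructor
  · exact fun h => h.2
  · refine fun h' => ⟨fun e => h ?_, h'⟩
    have := toLex.injective e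
    exact congrArg Sigma.fst this

lemma fib_erase_eq (U : Finset (Σₗ s : Fin r, Fin (k s))) (s : Fin r)
    (i : Fin (k s)) : fib (U.erase (toLex ⟨s, i⟩)) s = (fib U s).erase i := by
  ext j
  rw [mem_fib, Finset.mem_erase, Finset.mem_erase, mem_fib]
  refine and_congr (not_congr ?_) Iff.rfl
  rw [toLex_inj]
  simp

/-- the sum over pairings factorises over the vertices -/
lemma wick_block (B : (Σₗ s : Fin r, Fin (k s)) → (Σₗ s : Fin r, Fin (k s)) → ℝ)
    (hB : ∀ i j, (ofLex i).1 ≠ (ofLex j).1 → B i j = 0)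
    (U : Finset (Σₗ s : Fin r, Fin (k s))) :
    wick B U = ∏ s, wick (fun i j => B (toLex ⟨s, i⟩) (toLex ⟨s, j⟩)) (fib U s) := by
  induction U using wick_ind with
  | h0 =>
    rw [wick_empty]
    symm
    refine Finset.prod_eq_one fun s _ => ?_
    have : fib (∅ : Finset (Σₗ s : Fin r, Fin (k s))) s = ∅ := by
      ext i; rw [mem_fib]; simp
    rw [this, wick_empty]
  | h1 U m hm hmin ih =>
    obtain ⟨⟨s, i⟩, rfl⟩ := toLex.surjective m
    rw [wick_rec' B hm hmin]
    have hmem : i ∈ fib U s := mem_fib.2 hm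
    have hmin' : ∀ t ∈ fib U s, i ≤ t := by
      intro t ht
      have := hmin _ (mem_fib.1 ht)
      rw [Sigma.Lex.le_def] at this
      rcases this with h | ⟨h, h'⟩
      · exact absurd h (lt_irrefl _)
      · exact h'
    rw [← Finset.mul_prod_erase _ _ (Finset.mem_univ s), wick_rec' _ hmem hmin']
    have h1 : ∑ t ∈ U.erase (toLex ⟨s, i⟩), B (toLex ⟨s, i⟩) t *
        wick B ((U.erase (toLex ⟨s, i⟩)).erase t) =
        ∑ j ∈ (fib U s).erase i, B (toLex ⟨s, i⟩) (toLex ⟨s, j⟩) *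
        wick B ((U.erase (toLex ⟨s, i⟩)).erase (toLex ⟨s, j⟩)) := by
      symm
      refine Finset.sum_of_injOn (fun j => toLex ⟨s, j⟩) ?_ ?_ ?_ ?_
      · intro j _ j' _ h
        have := toLex.injective h
        simpa using this
      · intro j hj
        rw [Finset.mem_coe] at hj ⊢
        rw [← fib_erase_eq, mem_fib] at hj
        exact hj
      · intro t ht ht'
        obtain ⟨⟨s', j⟩, rfl⟩ := toLex.surjective t
        by_cases hs : s' = s
        · subst hs
          exfalso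
          refine ht' ?_
          refine ⟨j, ?_, rfl⟩
          rw [Finset.mem_coe, ← fib_erase_eq, mem_fib]
          exact ht
        · rw [hB _ _ (by simpa using fun h => hs h.symm), zero_mul]
      · intro j _
        rfl
    rw [h1, Finset.sum_mul]
    refine Finset.sum_congr rfl fun j hj => ?_
    rw [ih _ (erase_ssub hm _), ← Finset.mul_prod_erase _ _ (Finset.mem_univ s)]
    rw [fib_erase_eq, fib_erase_eq]
    have h2 : ∏ x ∈ Finset.univ.erase s, wick (fun i j => B (toLex ⟨x, i⟩) (toLex ⟨x, j⟩))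
        (fib ((U.erase (toLex ⟨s, i⟩)).erase (toLex ⟨s, j⟩)) x) =
        ∏ x ∈ Finset.univ.erase s, wick (fun i j => B (toLex ⟨x, i⟩) (toLex ⟨x, j⟩))
        (fib U x) := by
      refine Finset.prod_congr rfl fun x hx => ?_
      rw [fib_erase_ne _ (Finset.ne_of_mem_erase hx), fib_erase_ne _ (Finset.ne_of_mem_erase hx)]
    rw [h2]
    ring

end erase

/-- sets of legs and families of sets -/
def fibEquiv : Finset (Σₗ s : Fin r, Fin (k s)) ≃ (∀ s : Fin r, Finset (Fin (k s))) where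
  toFun U := fib U
  invFun T := Finset.univ.filter fun x => (ofLex x).2 ∈ T (ofLex x).1
  left_inv U := by
    ext x
    obtain ⟨⟨s, i⟩, rfl⟩ := toLex.surjective x
    simp [mem_fib]
  right_inv T := by
    funext s
    ext i
    rw [mem_fib, Finset.mem_filter]
    exact ⟨fun h => h.2, fun h => ⟨Finset.mem_univ _, h⟩⟩

lemma fib_compl (U : Finset (Σₗ s : Fin r, Fin (k s))) (s : Fin r) : fib Uᶜ s = (fib U s)ᶜ := by
  ext i
  rw [mem_fib, Finset.mem_compl, Finset.mem_compl, mem_fib]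

lemma prod_fib (U : Finset (Σₗ s : Fin r, Fin (k s))) (φ : (Σₗ s : Fin r, Fin (k s)) → ℝ) :
    ∏ i ∈ U, φ i = ∏ s, ∏ i ∈ fib U s, φ (toLex ⟨s, i⟩) := by
  rw [Finset.prod_sigma']
  refine Finset.prod_bij' (fun x _ => ofLex x) (fun y _ => toLex y) ?_ ?_ ?_ ?_ ?_
  · intro x hx
    rw [Finset.mem_sigma]
    exact ⟨Finset.mem_univ _, mem_fib.2 hx⟩
  · intro y hy
    rw [Finset.mem_sigma] at hy
    exact mem_fib.1 hy.2
  · intro x _; rfl
  · intro x _; rfl
  · intro x _; rfl

/-- WA2 -/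
theorem main (B : (Σₗ s : Fin r, Fin (k s)) → (Σₗ s : Fin r, Fin (k s)) → ℝ)
    (hB : ∀ i j, (ofLex i).1 ≠ (ofLex j).1 → B i j = 0) (φ : (Σₗ s : Fin r, Fin (k s)) → ℝ) :
    ∏ s, (∑ T : Finset (Fin (k s)), wick (fun i j => B (toLex ⟨s, i⟩) (toLex ⟨s, j⟩)) Tᶜ *
      ∏ i ∈ T, φ (toLex ⟨s, i⟩)) =
    ∑ T : Finset (Σₗ s : Fin r, Fin (k s)), wick B Tᶜ * ∏ i ∈ T, φ i := by
  rw [Finset.prod_univ_sum]
  rw [Fintype.piFinset_univ]
  symm
  refine Fintype.sum_equiv fibEquiv _ _ fun U => ?_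
  rw [wick_block B hB, prod_fib, ← Finset.prod_mul_distrib]
  refine Finset.prod_congr rfl fun s _ => ?_
  rw [fib_compl]
  rfl

end Pool.Agent.T2h69.WA2
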