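import Pool.Agent.T2h94.Wick

/-!
# Invariance of Wick products under orthogonal matrices
-/

namespace Pool.Agent.T2h69.WA3

open Pool.Agent.T2h94

variable {n k : ℕ}

/-- the sum over the inner indices -/
lemma inner (A : Fin n → Fin n → ℝ) (hA : ∀ a a', ∑ b, A a b * A a' b = if a = a' then 1 else 0)
    (c : Fin k → Fin k → ℝ) (α : Fin k → Fin n) (R : Finset (Fin k)) :
    ∀ g : Fin k → Fin n → ℝ,
    ∑ γ : Fin k → Fin n, (∏ i ∈ Rᶜ, g i (γ i)) * (∏ i ∈ R, A (α i) (γ i)) *
      wick (fun i j => if γ i = γ j then c i j else 0) R =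
    (∏ i ∈ Rᶜ, ∑ b, g i b) * wick (fun i j => if α i = α j then c i j else 0) R := by
  induction R using wick_ind with
  | h0 =>
    intro g
    simp only [wick_empty, Finset.prod_empty, mul_one, Finset.compl_empty]
    rw [Finset.prod_univ_sum, Fintype.piFinset_univ]
  | h1 R m hm hmin ih =>
    intro g
    rw [wick_rec' _ hm hmin, Finset.mul_sum]
    have h1 : ∀ γ : Fin k → Fin n, (∏ i ∈ Rᶜ, g i (γ i)) * (∏ i ∈ R, A (α i) (γ i)) *
        wick (fun i j => if γ i = γ j then c i j else 0) R =
        ∑ t ∈ R.erase m, ∑ b, c m t *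
          ((∏ i ∈ ((R.erase m).erase t)ᶜ, (if i = m ∨ i = t then
            (if γ i = b then A (α i) b else 0) else g i (γ i))) *
            (∏ i ∈ (R.erase m).erase t, A (α i) (γ i)) *
            wick (fun i j => if γ i = γ j then c i j else 0) ((R.erase m).erase t)) := by
      intro γ
      rw [wick_rec' _ hm hmin, Finset.mul_sum]
      refine Finset.sum_congr rfl fun t ht => ?_
      have ht' := Finset.mem_erase.1 ht
      have hcompl : ((R.erase m).erase t)ᶜ = insert m (insert t Rᶜ) := by
        ext i
        simp only [Finset.mem_compl, Finset.mem_erase, Finset.mem_insert]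
        tauto
      have hm1 : m ∉ insert t Rᶜ := by
        simp only [Finset.mem_insert, Finset.mem_compl]
        rintro (h | h)
        · exact ht'.1 h.symm
        · exact h hm
      have ht1 : t ∉ Rᶜ := by simp [ht'.2]
      have hg : ∀ b, ∏ i ∈ Rᶜ, (if i = m ∨ i = t then
            (if γ i = b then A (α i) b else 0) else g i (γ i)) = ∏ i ∈ Rᶜ, g i (γ i) := by
        intro b
        refine Finset.prod_congr rfl fun i hi => ?_
        rw [if_neg]
        rintro (h | h)
        · rw [h] at hi; exact (Finset.mem_compl.1 hi) hm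
        · rw [h] at hi; exact (Finset.mem_compl.1 hi) ht'.2
      have hR : ∏ i ∈ R, A (α i) (γ i) = A (α m) (γ m) * (A (α t) (γ t) *
          ∏ i ∈ (R.erase m).erase t, A (α i) (γ i)) := by
        rw [← Finset.mul_prod_erase _ _ hm, ← Finset.mul_prod_erase _ _ ht]
      simp only [hcompl, Finset.prod_insert hm1, Finset.prod_insert ht1, hg, true_or, or_true,
        if_true]
      rw [hR]
      have hb : ∑ b, c m t * ((if γ m = b then A (α m) b else 0) *
          ((if γ t = b then A (α t) b else 0) * ∏ i ∈ Rᶜ, g i (γ i)) *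
          (∏ i ∈ (R.erase m).erase t, A (α i) (γ i)) *
            wick (fun i j => if γ i = γ j then c i j else 0) ((R.erase m).erase t)) =
          c m t * ((A (α m) (γ m)) *
          ((if γ t = γ m then A (α t) (γ m) else 0) * ∏ i ∈ Rᶜ, g i (γ i)) *
          (∏ i ∈ (R.erase m).erase t, A (α i) (γ i)) *
            wick (fun i j => if γ i = γ j then c i j else 0) ((R.erase m).erase t)) := by
        rw [Finset.sum_eq_single (γ m)]
        · rw [if_pos rfl]
        · intro b _ hb
          rw [if_neg (Ne.symm hb)]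
          ring
        · intro h; exact absurd (Finset.mem_univ _) h
      rw [hb]
      by_cases h : γ m = γ t
      · rw [if_pos h, if_pos h.symm, h]
        ring
      · rw [if_neg h, if_neg (Ne.symm h)]
        ring
    rw [Finset.sum_congr rfl fun γ _ => h1 γ, Finset.sum_comm]
    refine Finset.sum_congr rfl fun t ht => ?_
    have ht' := Finset.mem_erase.1 ht
    rw [Finset.sum_comm]
    have h2 : ∀ b : Fin n, ∑ γ : Fin k → Fin n, c m t *
          ((∏ i ∈ ((R.erase m).erase t)ᶜ, (if i = m ∨ i = t then
            (if γ i = b then A (α i) b else 0) else g i (γ i))) *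
            (∏ i ∈ (R.erase m).erase t, A (α i) (γ i)) *
            wick (fun i j => if γ i = γ j then c i j else 0) ((R.erase m).erase t)) =
        c m t * (A (α m) b * A (α t) b * (∏ i ∈ Rᶜ, ∑ b, g i b) *
          wick (fun i j => if α i = α j then c i j else 0) ((R.erase m).erase t)) := by
      intro b
      rw [← Finset.mul_sum, ih _ (erase_ssub hm t) (fun i b' => if i = m ∨ i = t then
            (if b' = b then A (α i) b else 0) else g i b')]
      have hcompl : ((R.erase m).erase t)ᶜ = insert m (insert t Rᶜ) := by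
        ext i
        simp only [Finset.mem_compl, Finset.mem_erase, Finset.mem_insert]
        tauto
      have hm1 : m ∉ insert t Rᶜ := by
        simp only [Finset.mem_insert, Finset.mem_compl]
        rintro (h | h)
        · exact ht'.1 h.symm
        · exact h hm
      have ht1 : t ∉ Rᶜ := by simp [ht'.2]
      rw [hcompl, Finset.prod_insert hm1, Finset.prod_insert ht1]
      have e1 : ∑ b', (if m = m ∨ m = t then (if b' = b then A (α m) b else 0) else g m b') =
          A (α m) b := by simp
      have e2 : ∑ b', (if t = m ∨ t = t then (if b' = b then A (α t) b else 0) else g t b') =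
          A (α t) b := by simp
      have e3 : ∏ i ∈ Rᶜ, ∑ b', (if i = m ∨ i = t then (if b' = b then A (α i) b else 0)
          else g i b') = ∏ i ∈ Rᶜ, ∑ b, g i b := by
        refine Finset.prod_congr rfl fun i hi => ?_
        refine Finset.sum_congr rfl fun b' _ => ?_
        rw [if_neg]
        rintro (h | h)
        · rw [h] at hi; exact (Finset.mem_compl.1 hi) hm
        · rw [h] at hi; exact (Finset.mem_compl.1 hi) ht'.2
      rw [e1, e2, e3]
      ring
    rw [Finset.sum_congr rfl fun b _ => h2 b, ← Finset.mul_sum]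
    have h3 : ∑ b, A (α m) b * A (α t) b * (∏ i ∈ Rᶜ, ∑ b, g i b) *
          wick (fun i j => if α i = α j then c i j else 0) ((R.erase m).erase t) =
        (∑ b, A (α m) b * A (α t) b) * ((∏ i ∈ Rᶜ, ∑ b, g i b) *
          wick (fun i j => if α i = α j then c i j else 0) ((R.erase m).erase t)) := by
      rw [Finset.sum_mul]
      refine Finset.sum_congr rfl fun b _ => ?_
      ring
    rw [h3, hA]
    by_cases h : α m = α t
    · rw [if_pos h, if_pos h]; ring
    · rw [if_neg h, if_neg h]; ring

/-- WA3 -/
theorem main (A : Fin n → Fin n → ℝ)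
    (_hA : ∀ b b', ∑ a, A a b * A a b' = if b = b' then 1 else 0)
    (hA' : ∀ a a', ∑ b, A a b * A a' b = if a = a' then 1 else 0)
    (c : Fin k → Fin k → ℝ) (P : (Fin k → Fin n) → ℝ)
    (hP : ∀ γ, P γ = ∑ α : Fin k → Fin n, (∏ i, A (α i) (γ i)) * P α) (φ : Fin k → Fin n → ℝ) :
    ∑ α : Fin k → Fin n, P α * ∑ T : Finset (Fin k),
      wick (fun i j => if α i = α j then c i j else 0) Tᶜ * ∏ i ∈ T, ∑ b, A (α i) b * φ i b =
    ∑ α : Fin k → Fin n, P α * ∑ T : Finset (Fin k),
      wick (fun i j => if α i = α j then c i j else 0) Tᶜ * ∏ i ∈ T, φ i (α i) := by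
  have h1 : ∀ γ : Fin k → Fin n, P γ * ∑ T : Finset (Fin k),
      wick (fun i j => if γ i = γ j then c i j else 0) Tᶜ * ∏ i ∈ T, φ i (γ i) =
      ∑ α : Fin k → Fin n, P α * ∑ T : Finset (Fin k),
        ((∏ i ∈ T, (A (α i) (γ i) * φ i (γ i))) * (∏ i ∈ Tᶜ, A (α i) (γ i)) *
          wick (fun i j => if γ i = γ j then c i j else 0) Tᶜ) := by
    intro γ
    conv_lhs => rw [hP γ]
    rw [Finset.sum_mul]
    refine Finset.sum_congr rfl fun α _ => ?_
    rw [mul_comm (∏ i, A (α i) (γ i)) (P α), mul_assoc, Finset.mul_sum]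
    congr 1
    refine Finset.sum_congr rfl fun T _ => ?_
    rw [Finset.prod_mul_distrib, ← Finset.prod_mul_prod_compl T (fun i => A (α i) (γ i))]
    ring
  rw [Finset.sum_congr rfl fun γ _ => h1 γ, Finset.sum_comm]
  refine Finset.sum_congr rfl fun α _ => ?_
  rw [← Finset.mul_sum]
  congr 1
  rw [Finset.sum_comm]
  refine Finset.sum_congr rfl fun T _ => ?_
  have := inner A hA' c α Tᶜ (fun i b => A (α i) b * φ i b)
  rw [compl_compl] at this
  rw [this, mul_comm]

end Pool.Agent.T2h69.WA3
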