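import Mathlib

/-!
# Long-range percolation on countable groups: combinatorial scheme

Given finite sets `B n` of group elements (level `n+1` jumps), we define recursively the explored
cluster `R n ω y` of a vertex `y` and the event `Good n ω y` that this cluster has at least `2^n`
elements because at each level it was doubled by a jump to a good vertex.
-/

open scoped Pointwise

namespace Pool.Agent.T2h69.LRP

variable {Γ : Type*} [Group Γ]

/-- A scheme of jump sets `B n` with control sets `F n` (regions) and `D n` (used jumps). -/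
structure Scheme (Γ : Type*) [Group Γ] where
  B : ℕ → Set Γ
  F : ℕ → Set Γ
  D : ℕ → Set Γ
  B_fin : ∀ n, (B n).Finite
  F_fin : ∀ n, (F n).Finite
  D_fin : ∀ n, (D n).Finite
  one_mem : ∀ n, (1 : Γ) ∈ F n
  F_mono : ∀ n, F n ⊆ F (n + 1)
  F_succ : ∀ n, ∀ x ∈ F n, ∀ a ∈ B n, ∀ z ∈ F n, x * a * z ∈ F (n + 1)
  D_mono : ∀ n, D n ⊆ D (n + 1)
  D_succ : ∀ n, B n ⊆ D (n + 1)
  D_inv : ∀ n, ∀ a ∈ D n, a⁻¹ ∈ D n
  B_D : ∀ n, ∀ a ∈ B n, a ∉ D n
  far : ∀ n, ∀ a ∈ B n, ∀ x ∈ F n, ∀ y ∈ F n, ∀ z ∈ F n, x⁻¹ * y * z⁻¹ ≠ a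
  sep : ∀ n, ∀ a ∈ B n, ∀ b ∈ B n, a ≠ b → ∀ x ∈ F n, ∀ y ∈ F n, a * x ≠ b * y
  card : ∀ n, 16 * 8 * 2 ^ n * (F n).ncard ≤ (B n).ncard

/-- A choice of a large well spread finite set in an infinite group. -/
lemma exists_spread [Infinite Γ] (W T : Set Γ) (hW : W.Finite) (hT : T.Finite) (m : ℕ) :
    ∃ B : Finset Γ, B.card = m ∧ (∀ a ∈ B, a ∉ W) ∧
      ∀ a ∈ B, ∀ b ∈ B, a ≠ b → ∀ x ∈ T, ∀ y ∈ T, a * x ≠ b * y := by
  classical
  induction m with
  | zero => exact ⟨∅, by simp⟩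
  | succ m ih =>
    obtain ⟨B, hB, h1, h2⟩ := ih
    have hfin : (W ∪ (B : Set Γ) ∪ ((B : Set Γ) * T * T⁻¹)).Finite :=
      (hW.union B.finite_toSet).union ((B.finite_toSet.mul hT).mul hT.inv)
    obtain ⟨c, hc⟩ := hfin.exists_notMem
    simp only [Set.mem_union, not_or] at hc
    obtain ⟨⟨hcW, hcB⟩, hcT⟩ := hc
    have hcB' : c ∉ B := by simpa using hcB
    have key : ∀ a ∈ B, ∀ x ∈ T, ∀ y ∈ T, a * x ≠ c * y := by
      intro a ha x hx y hy h
      apply hcT
      refine Set.mem_mul.2 ⟨a * x, Set.mem_mul.2 ⟨a, by simpa using ha, x, hx, rfl⟩, y⁻¹, ?_, ?_⟩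
      · simpa using hy
      · rw [h]; group
    refine ⟨insert c B, by rw [Finset.card_insert_of_notMem hcB', hB], ?_, ?_⟩
    · intro a ha
      rcases Finset.mem_insert.1 ha with rfl | ha
      · exact hcW
      · exact h1 a ha
    · intro a ha b hb hab x hx y hy
      rcases Finset.mem_insert.1 ha with rfl | ha'
      · rcases Finset.mem_insert.1 hb with rfl | hb'
        · exact absurd rfl hab
        · exact fun h => key b hb' y hy x hx h.symm
      · rcases Finset.mem_insert.1 hb with rfl | hb'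
        · exact key a ha' x hx y hy
        · exact h2 a ha' b hb' hab x hx y hy

/-- The state of the recursive construction: the pair (region, used jumps). -/
structure St (Γ : Type*) [Group Γ] where
  F : Set Γ
  D : Set Γ
  hF : F.Finite
  hD : D.Finite
  one : (1 : Γ) ∈ F
  inv : ∀ a ∈ D, a⁻¹ ∈ D

/-- The forbidden set for the next jumps. -/
def St.W (s : St Γ) : Set Γ := s.D ∪ (s.F)⁻¹ * s.F * (s.F)⁻¹

lemma St.W_fin (s : St Γ) : s.W.Finite := s.hD.union ((s.hF.inv.mul s.hF).mul s.hF.inv)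

lemma St.exists_pick [Infinite Γ] (s : St Γ) (n : ℕ) :
    ∃ B : Finset Γ, B.card = 16 * 8 * 2 ^ n * s.F.ncard ∧ (∀ a ∈ B, a ∉ s.W) ∧
      ∀ a ∈ B, ∀ b ∈ B, a ≠ b → ∀ x ∈ s.F, ∀ y ∈ s.F, a * x ≠ b * y :=
  exists_spread s.W s.F s.W_fin s.hF _

/-- The chosen set of jumps. -/
noncomputable def St.pick [Infinite Γ] (s : St Γ) (n : ℕ) : Finset Γ := (s.exists_pick n).choose

lemma St.pick_spec [Infinite Γ] (s : St Γ) (n : ℕ) :
    (s.pick n).card = 16 * 8 * 2 ^ n * s.F.ncard ∧ (∀ a ∈ s.pick n, a ∉ s.W) ∧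
      ∀ a ∈ s.pick n, ∀ b ∈ s.pick n, a ≠ b → ∀ x ∈ s.F, ∀ y ∈ s.F, a * x ≠ b * y :=
  (s.exists_pick n).choose_spec

/-- The next state. -/
noncomputable def St.next [Infinite Γ] (s : St Γ) (n : ℕ) : St Γ where
  F := s.F ∪ s.F * (s.pick n : Set Γ) * s.F
  D := s.D ∪ ((s.pick n : Set Γ) ∪ (s.pick n : Set Γ)⁻¹)
  hF := s.hF.union ((s.hF.mul (s.pick n).finite_toSet).mul s.hF)
  hD := s.hD.union ((s.pick n).finite_toSet.union (s.pick n).finite_toSet.inv)
  one := Or.inl s.one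
  inv := by
    rintro a (ha | ha | ha)
    · exact Or.inl (s.inv a ha)
    · exact Or.inr (Or.inr (by simpa using ha))
    · exact Or.inr (Or.inl (by simpa using ha))

/-- The sequence of states. -/
noncomputable def states (Γ : Type*) [Group Γ] [Infinite Γ] : ℕ → St Γ
  | 0 => ⟨{1}, ∅, Set.finite_singleton _, Set.finite_empty, rfl, by simp⟩
  | n + 1 => (states Γ n).next n

/-- A scheme exists in every infinite group. -/
noncomputable def scheme (Γ : Type*) [Group Γ] [Infinite Γ] : Scheme Γ where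
  B n := ((states Γ n).pick n : Set Γ)
  F n := (states Γ n).F
  D n := (states Γ n).D
  B_fin n := ((states Γ n).pick n).finite_toSet
  F_fin n := (states Γ n).hF
  D_fin n := (states Γ n).hD
  one_mem n := (states Γ n).one
  F_mono n := fun x hx => Or.inl hx
  F_succ n := fun x hx a ha z hz =>
    Or.inr (Set.mul_mem_mul (Set.mul_mem_mul hx ha) hz)
  D_mono n := fun x hx => Or.inl hx
  D_succ n := fun x hx => Or.inr (Or.inl hx)
  D_inv n := (states Γ n).inv
  B_D n := fun a ha h => ((states Γ n).pick_spec n).2.1 a (by simpa using ha) (Or.inl h)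
  far n := by
    intro a ha x hx y hy z hz h
    refine ((states Γ n).pick_spec n).2.1 a (by simpa using ha) (Or.inr ?_)
    rw [← h]
    exact Set.mul_mem_mul (Set.mul_mem_mul (Set.inv_mem_inv.2 hx) hy) (Set.inv_mem_inv.2 hz)
  sep n := by
    intro a ha b hb
    exact ((states Γ n).pick_spec n).2.2 a (by simpa using ha) b (by simpa using hb)
  card n := by
    rw [Set.ncard_coe_finset, ((states Γ n).pick_spec n).1]

variable (S : Scheme Γ)

/-- The explored cluster (as a set). -/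
def R (ω : Sym2 Γ → ℕ) : ℕ → Γ → Set Γ
  | 0, y => {y}
  | n + 1, y => R ω n y ∪
      {z | ∃ x ∈ R ω n y, ∃ a ∈ S.B n, 1 ≤ ω s(x, x * a) ∧ z ∈ R ω n (x * a)}

/-- The good event. -/
def Good (ω : Sym2 Γ → ℕ) : ℕ → Γ → Prop
  | 0, _ => True
  | n + 1, y => Good ω n y ∧
      ∃ x ∈ R S ω n y, ∃ a ∈ S.B n, 1 ≤ ω s(x, x * a) ∧ Good ω n (x * a)

/-- The finite set of edges which the level `n` exploration of `y` may look at. -/
def Ed (n : ℕ) (y : Γ) : Set (Sym2 Γ) :=
  {e | ∃ x ∈ S.F n, ∃ z ∈ S.F n, (y * x)⁻¹ * (y * z) ∈ S.D n ∧ e = s(y * x, y * z)}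

lemma Ed_fin (n : ℕ) (y : Γ) : (Ed S n y).Finite := by
  have : Ed S n y ⊆ (fun p : Γ × Γ => s(y * p.1, y * p.2)) '' (S.F n ×ˢ S.F n) := by
    rintro e ⟨x, hx, z, hz, -, rfl⟩
    exact ⟨(x, z), ⟨hx, hz⟩, rfl⟩
  exact (((S.F_fin n).prod (S.F_fin n)).image _).subset this

lemma R_sub (ω : Sym2 Γ → ℕ) (n : ℕ) (y z : Γ) (hz : z ∈ R S ω n y) : y⁻¹ * z ∈ S.F n := by
  induction n generalizing y z with
  | zero =>
    have : z = y := hz
    subst this
    simpa using S.one_mem 0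
  | succ n ih =>
    rcases hz with hz | ⟨x, hx, a, ha, -, hz⟩
    · exact S.F_mono n (ih y z hz)
    · have h1 := ih y x hx
      have h2 := ih (x * a) z hz
      have := S.F_succ n _ h1 a ha _ h2
      convert this using 1
      group

lemma R_fin (ω : Sym2 Γ → ℕ) (n : ℕ) (y : Γ) : (R S ω n y).Finite := by
  have : R S ω n y ⊆ (fun z => y * z) '' (S.F n) := by
    intro z hz
    exact ⟨y⁻¹ * z, R_sub S ω n y z hz, by group⟩
  exact ((S.F_fin n).image _).subset this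

lemma self_mem_R (ω : Sym2 Γ → ℕ) (n : ℕ) (y : Γ) : y ∈ R S ω n y := by
  induction n with
  | zero => rfl
  | succ n ih => exact Or.inl ih

/-- Any relation containing open edges and which is an equivalence contains the exploration. -/
lemma R_conn (ω : Sym2 Γ → ℕ) (r : Γ → Γ → Prop) (hr : Equivalence r)
    (hopen : ∀ x a, 1 ≤ ω s(x, x * a) → r x (x * a)) (n : ℕ) (y z : Γ)
    (hz : z ∈ R S ω n y) : r y z := by
  induction n generalizing y z with
  | zero =>
    have : z = y := hz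
    subst this
    exact hr.refl _
  | succ n ih =>
    rcases hz with hz | ⟨x, hx, a, ha, ho, hz⟩
    · exact ih y z hz
    · exact hr.trans (ih y x hx) (hr.trans (hopen x a ho) (ih _ z hz))

lemma disj (ω : Sym2 Γ → ℕ) (n : ℕ) (y x a : Γ) (hx : x ∈ R S ω n y) (ha : a ∈ S.B n) :
    Disjoint (R S ω n y) (R S ω n (x * a)) := by
  rw [Set.disjoint_left]
  intro z hz hz'
  have h1 := R_sub S ω n y z hz
  have h2 := R_sub S ω n (x * a) z hz'
  have h3 := R_sub S ω n y x hx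
  refine S.far n a ha _ h3 _ h1 _ h2 ?_
  group

lemma Good_card (ω : Sym2 Γ → ℕ) (n : ℕ) (y : Γ) (h : Good S ω n y) :
    2 ^ n ≤ (R S ω n y).ncard := by
  induction n generalizing y with
  | zero => simp [R]
  | succ n ih =>
    obtain ⟨h1, x, hx, a, ha, ho, h2⟩ := h
    have hsub : R S ω n y ∪ R S ω n (x * a) ⊆ R S ω (n + 1) y := by
      rintro z (hz | hz)
      · exact Or.inl hz
      · exact Or.inr ⟨x, hx, a, ha, ho, hz⟩
    calc 2 ^ (n + 1) = 2 ^ n + 2 ^ n := by ring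
      _ ≤ (R S ω n y).ncard + (R S ω n (x * a)).ncard := Nat.add_le_add (ih y h1) (ih _ h2)
      _ = (R S ω n y ∪ R S ω n (x * a)).ncard :=
        (Set.ncard_union_eq (disj S ω n y x a hx ha) (R_fin S ω n y) (R_fin S ω n _)).symm
      _ ≤ _ := Set.ncard_le_ncard hsub (R_fin S ω (n + 1) y)

lemma Ed_mono1 (n : ℕ) (y : Γ) : Ed S n y ⊆ Ed S (n + 1) y := by
  rintro e ⟨x, hx, z, hz, hD, rfl⟩
  exact ⟨x, S.F_mono n hx, z, S.F_mono n hz, S.D_mono n hD, rfl⟩

lemma Ed_mono2 (n : ℕ) (y x a : Γ) (hx : y⁻¹ * x ∈ S.F n) (ha : a ∈ S.B n) :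
    Ed S n (x * a) ⊆ Ed S (n + 1) y := by
  rintro e ⟨u, hu, v, hv, hD, rfl⟩
  refine ⟨y⁻¹ * x * a * u, S.F_succ n _ hx a ha u hu, y⁻¹ * x * a * v,
    S.F_succ n _ hx a ha v hv, ?_, ?_⟩
  · apply S.D_mono
    convert hD using 1
    group
  · have e1 : y * (y⁻¹ * x * a * u) = x * a * u := by group
    have e2 : y * (y⁻¹ * x * a * v) = x * a * v := by group
    rw [e1, e2]

lemma Ed_mono3 (n : ℕ) (y x a : Γ) (hx : y⁻¹ * x ∈ S.F n) (ha : a ∈ S.B n) :
    s(x, x * a) ∈ Ed S (n + 1) y := by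
  refine ⟨y⁻¹ * x, S.F_mono n hx, y⁻¹ * x * a, ?_, ?_, ?_⟩
  · simpa using S.F_succ n _ hx a ha 1 (S.one_mem n)
  · apply S.D_succ
    convert ha using 1
    group
  · have e1 : y * (y⁻¹ * x) = x := by group
    have e2 : y * (y⁻¹ * x * a) = x * a := by group
    rw [e1, e2]

/-- Locality of the exploration. -/
lemma R_local (ω ω' : Sym2 Γ → ℕ) (n : ℕ) (y : Γ) (h : ∀ e ∈ Ed S n y, ω e = ω' e) :
    R S ω n y = R S ω' n y := by
  induction n generalizing y with
  | zero => rfl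
  | succ n ih =>
    have h1 := ih y (fun e he => h e (Ed_mono1 S n y he))
    have h2 : ∀ x, y⁻¹ * x ∈ S.F n → ∀ a ∈ S.B n, R S ω n (x * a) = R S ω' n (x * a) :=
      fun x hx a ha => ih (x * a) (fun e he => h e (Ed_mono2 S n y x a hx ha he))
    ext z
    simp only [R, Set.mem_union, Set.mem_ofPred_eq]
    rw [← h1]
    constructor
    · rintro (hz | ⟨x, hx, a, ha, ho, hz⟩)
      · exact Or.inl hz
      · have hx' := R_sub S ω n y x hx
        refine Or.inr ⟨x, hx, a, ha, ?_, ?_⟩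
        · rwa [← h _ (Ed_mono3 S n y x a hx' ha)]
        · rwa [← h2 x hx' a ha]
    · rintro (hz | ⟨x, hx, a, ha, ho, hz⟩)
      · exact Or.inl hz
      · have hx' := R_sub S ω n y x hx
        refine Or.inr ⟨x, hx, a, ha, ?_, ?_⟩
        · rwa [h _ (Ed_mono3 S n y x a hx' ha)]
        · rwa [h2 x hx' a ha]

lemma Good_local (ω ω' : Sym2 Γ → ℕ) (n : ℕ) (y : Γ) (h : ∀ e ∈ Ed S n y, ω e = ω' e) :
    Good S ω n y ↔ Good S ω' n y := by
  induction n generalizing y with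
  | zero => exact Iff.rfl
  | succ n ih =>
    have h0 := R_local S ω ω' n y (fun e he => h e (Ed_mono1 S n y he))
    have h1 := ih y (fun e he => h e (Ed_mono1 S n y he))
    have h2 : ∀ x, y⁻¹ * x ∈ S.F n → ∀ a ∈ S.B n, (Good S ω n (x * a) ↔ Good S ω' n (x * a)) :=
      fun x hx a ha => ih (x * a) (fun e he => h e (Ed_mono2 S n y x a hx ha he))
    simp only [Good]
    rw [← h0, h1]
    constructor
    · rintro ⟨hg, x, hx, a, ha, ho, hz⟩
      have hx' := R_sub S ω n y x hx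
      refine ⟨hg, x, hx, a, ha, ?_, ?_⟩
      · rwa [← h _ (Ed_mono3 S n y x a hx' ha)]
      · rwa [← h2 x hx' a ha]
    · rintro ⟨hg, x, hx, a, ha, ho, hz⟩
      have hx' := R_sub S ω n y x hx
      refine ⟨hg, x, hx, a, ha, ?_, ?_⟩
      · rwa [h _ (Ed_mono3 S n y x a hx' ha)]
      · rwa [h2 x hx' a ha]

/-- Explorations from `x*a`, `x*b` with distinct jumps look at disjoint edge sets. -/
lemma Ed_disj (n : ℕ) (x a b : Γ) (ha : a ∈ S.B n) (hb : b ∈ S.B n) (hab : a ≠ b) :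
    Disjoint (Ed S n (x * a)) (Ed S n (x * b)) := by
  rw [Set.disjoint_left]
  rintro e ⟨u, hu, v, hv, -, rfl⟩ ⟨u', hu', v', hv', -, he⟩
  rw [Sym2.eq_iff] at he
  rcases he with ⟨h1, -⟩ | ⟨h1, -⟩
  · refine S.sep n a ha b hb hab u hu u' hu' ?_
    have : x * (a * u) = x * (b * u') := by simpa [mul_assoc] using h1
    exact mul_left_cancel this
  · refine S.sep n a ha b hb hab u hu v' hv' ?_
    have : x * (a * u) = x * (b * v') := by simpa [mul_assoc] using h1
    exact mul_left_cancel this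

/-- New edges are not looked at by explorations of level `n`. -/
lemma new_notMem (n : ℕ) (x a y : Γ) (ha : a ∈ S.B n) : s(x, x * a) ∉ Ed S n y := by
  rintro ⟨u, hu, v, hv, hD, he⟩
  rw [Sym2.eq_iff] at he
  rcases he with ⟨h1, h2⟩ | ⟨h1, h2⟩
  · rw [← h1, ← h2] at hD
    apply S.B_D n a ha
    convert hD using 1
    group
  · rw [← h1, ← h2] at hD
    apply S.B_D n a ha
    have := S.D_inv n _ hD
    convert this using 1
    group

/-- The new edges are distinct. -/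
lemma new_inj (n : ℕ) (y x x' a a' : Γ) (hx : y⁻¹ * x ∈ S.F n) (hx' : y⁻¹ * x' ∈ S.F n)
    (ha : a ∈ S.B n) (h : s(x, x * a) = s(x', x' * a')) :
    x = x' ∧ a = a' := by
  rw [Sym2.eq_iff] at h
  rcases h with ⟨h1, h2⟩ | ⟨h1, h2⟩
  · subst h1
    exact ⟨rfl, mul_left_cancel h2⟩
  · exfalso
    refine S.far n a ha _ hx _ hx' _ (S.one_mem n) ?_
    rw [← h2]
    group

lemma B_ne_one (n : ℕ) (a : Γ) (ha : a ∈ S.B n) : a ≠ 1 := by
  intro h
  exact S.far n a ha 1 (S.one_mem n) 1 (S.one_mem n) 1 (S.one_mem n) (by rw [h]; group)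

lemma Good_anti (ω : Sym2 Γ → ℕ) (n : ℕ) (y : Γ) (h : Good S ω (n + 1) y) : Good S ω n y := h.1

end Pool.Agent.T2h69.LRP
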