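import Mathlib
import Pool.Agent.T2h69.LRPComb

/-!
# Long-range percolation on countable groups: probabilistic estimates
-/

open MeasureTheory ProbabilityTheory
open scoped ENNReal NNReal

namespace Pool.Agent.T2h69.LRP

section generic

variable {ι : Type*} {β : Type*}

/-- Extension by zero of a partial configuration. -/
noncomputable def ext0 (s : Finset ι) (r : s → ℕ) : ι → ℕ := by
  classical
  exact fun e => if h : e ∈ s then r ⟨e, h⟩ else 0

lemma ext0_eq (s : Finset ι) (ω : ι → ℕ) : ∀ e ∈ s, ext0 s (fun i : s => ω i) e = ω e := by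
  intro e he
  simp [ext0, he]

lemma measurable_of_dep [MeasurableSpace β] (f : (ι → ℕ) → β) (s : Finset ι)
    (hf : ∀ ω ω', (∀ e ∈ s, ω e = ω' e) → f ω = f ω') : Measurable f := by
  have h1 : f = (fun r : s → ℕ => f (ext0 s r)) ∘ (fun ω (i : s) => ω i) := by
    funext ω
    exact hf _ _ (fun e he => (ext0_eq s ω e he).symm)
  have hm : Measurable (fun r : s → ℕ => f (ext0 s r)) := measurable_of_countable _
  rw [h1]
  exact hm.comp (measurable_pi_lambda _ (fun i => measurable_pi_apply _))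

lemma indepFun_of_dep [MeasurableSpace β] {β' : Type*} [MeasurableSpace β']
    (μ : ι → Measure ℕ) [∀ i, IsProbabilityMeasure (μ i)]
    (f : (ι → ℕ) → β) (g : (ι → ℕ) → β') (s t : Finset ι) (hst : Disjoint s t)
    (hf : ∀ ω ω', (∀ e ∈ s, ω e = ω' e) → f ω = f ω')
    (hg : ∀ ω ω', (∀ e ∈ t, ω e = ω' e) → g ω = g ω') :
    IndepFun f g (Measure.infinitePi μ) := by
  have h0 : iIndepFun (fun i (ω : ι → ℕ) => ω i) (Measure.infinitePi μ) :=
    iIndepFun_infinitePi (X := fun _ x => x) (fun _ => measurable_id)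
  have h := h0.indepFun_finset s t hst (fun i => measurable_pi_apply i)
  have h1 : f = (fun r : s → ℕ => f (ext0 s r)) ∘ (fun ω (i : s) => ω i) := by
    funext ω
    exact hf _ _ (fun e he => (ext0_eq s ω e he).symm)
  have h2 : g = (fun r : t → ℕ => g (ext0 t r)) ∘ (fun ω (i : t) => ω i) := by
    funext ω
    exact hg _ _ (fun e he => (ext0_eq t ω e he).symm)
  rw [h1, h2]
  exact h.comp (measurable_of_countable _) (measurable_of_countable _)

/-- Chebyshev bound: among pairwise independent events each of probability at least `1/2`, at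
least a quarter occurs with high probability. -/
lemma cheb {Ω : Type*} [MeasurableSpace Ω] (P : Measure Ω) [IsProbabilityMeasure P]
    {κ : Type*} (s : Finset κ) (hs : s.Nonempty) (G : κ → Set Ω)
    (hG : ∀ i ∈ s, MeasurableSet (G i))
    (hI : Set.Pairwise (s : Set κ) fun i j =>
      IndepFun ((G i).indicator (fun _ => (1 : ℝ))) ((G j).indicator (fun _ => (1 : ℝ))) P)
    (hq : ∀ i ∈ s, 1 / 2 ≤ P.real (G i)) :
    P.real {ω | ∑ i ∈ s, (G i).indicator (fun _ => (1 : ℝ)) ω < (s.card : ℝ) / 4}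
      ≤ 4 / (s.card : ℝ) := by
  have hc : (0 : ℝ) < s.card := by exact_mod_cast hs.card_pos
  set X : κ → Ω → ℝ := fun i => (G i).indicator (fun _ => (1 : ℝ)) with hX
  have hm : ∀ i ∈ s, Measurable (X i) := fun i hi => measurable_const.indicator (hG i hi)
  have h01 : ∀ i ω, X i ω ∈ Set.Icc (0 : ℝ) 1 := by
    intro i ω
    simp only [hX, Set.indicator]
    split_ifs <;> simp
  have hL : ∀ i ∈ s, MemLp (X i) 2 P := fun i hi =>
    MemLp.of_bound (hm i hi).aestronglyMeasurable 1
      (Filter.Eventually.of_forall fun ω => by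
        rw [Real.norm_eq_abs, abs_of_nonneg (h01 i ω).1]; exact (h01 i ω).2)
  have hE : ∀ i ∈ s, P[X i] = P.real (G i) := fun i hi => by
    simp only [hX]
    rw [integral_indicator (hG i hi)]
    simp
  have hV : variance (∑ i ∈ s, X i) P ≤ (s.card : ℝ) / 4 := by
    rw [IndepFun.variance_sum hL hI]
    calc ∑ i ∈ s, variance (X i) P ≤ ∑ i ∈ s, (1 / 4 : ℝ) := by
          refine Finset.sum_le_sum fun i hi => ?_
          have := variance_le_sq_of_bounded (μ := P) (a := 0) (b := 1) (X := X i)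
            (Filter.Eventually.of_forall (h01 i)) (hm i hi).aemeasurable
          calc variance (X i) P ≤ ((1 - 0) / 2) ^ 2 := this
            _ = 1 / 4 := by norm_num
      _ = (s.card : ℝ) / 4 := by rw [Finset.sum_const, nsmul_eq_mul]; ring
  have hmean : (s.card : ℝ) / 2 ≤ P[∑ i ∈ s, X i] := by
    have : P[∑ i ∈ s, X i] = ∑ i ∈ s, P[X i] := by
      simp only [Finset.sum_apply]
      exact integral_finsetSum _ (fun i hi => (hL i hi).integrable (by norm_num))
    rw [this]
    calc (s.card : ℝ) / 2 = ∑ i ∈ s, (1 / 2 : ℝ) := by rw [Finset.sum_const, nsmul_eq_mul]; ring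
      _ ≤ ∑ i ∈ s, P[X i] := Finset.sum_le_sum fun i hi => by rw [hE i hi]; exact hq i hi
  have hL2 : MemLp (∑ i ∈ s, X i) 2 P := memLp_finsetSum' s hL
  have hch := meas_ge_le_variance_div_sq hL2 (c := (s.card : ℝ) / 4) (by positivity)
  have hsub : {ω | ∑ i ∈ s, X i ω < (s.card : ℝ) / 4} ⊆
      {ω | (s.card : ℝ) / 4 ≤ |(∑ i ∈ s, X i) ω - P[∑ i ∈ s, X i]|} := by
    intro ω hω
    simp only [Set.mem_ofPred_eq] at hω ⊢
    rw [Finset.sum_apply]
    rw [le_abs]
    right
    linarith
  calc P.real {ω | ∑ i ∈ s, X i ω < (s.card : ℝ) / 4}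
      ≤ P.real {ω | (s.card : ℝ) / 4 ≤ |(∑ i ∈ s, X i) ω - P[∑ i ∈ s, X i]|} :=
        measureReal_mono hsub
    _ ≤ variance (∑ i ∈ s, X i) P / ((s.card : ℝ) / 4) ^ 2 := by
        rw [measureReal_def]
        refine ENNReal.toReal_le_of_le_ofReal (div_nonneg (variance_nonneg _ _) (by positivity)) hch
    _ ≤ ((s.card : ℝ) / 4) / ((s.card : ℝ) / 4) ^ 2 := by gcongr
    _ = 4 / (s.card : ℝ) := by field_simp

end generic

variable {Γ : Type*} [Group Γ]

/-- The product law of the edge multiplicities with given rates. -/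
noncomputable def PP (r : Sym2 Γ → ℝ≥0) : Measure (Sym2 Γ → ℕ) :=
  Measure.infinitePi fun e => poissonMeasure (r e)

instance (r : Sym2 Γ → ℝ≥0) : IsProbabilityMeasure (PP r) := by
  unfold PP; infer_instance

variable (S : Scheme Γ) (r : Sym2 Γ → ℝ≥0)

lemma Good_dep (n : ℕ) (y : Γ) (ω ω' : Sym2 Γ → ℕ)
    (h : ∀ e ∈ (Ed_fin S n y).toFinset, ω e = ω' e) : Good S ω n y ↔ Good S ω' n y :=
  Good_local S ω ω' n y (fun e he => h e (by simpa using he))

lemma Good_meas (n : ℕ) (y : Γ) : MeasurableSet {ω | Good S ω n y} := by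
  have : Measurable (fun ω : Sym2 Γ → ℕ => (Good S ω n y : Prop)) :=
    measurable_of_dep _ (Ed_fin S n y).toFinset
      (fun ω ω' h => propext (Good_dep S n y ω ω' h))
  exact measurableSet_setOfPred.2 this

/-- The probability that a given finite family of new edges is closed. -/
lemma closed_prob (T : Finset (Γ × Γ))
    (hinj : Set.InjOn (fun p : Γ × Γ => s(p.1, p.1 * p.2)) (T : Set (Γ × Γ))) (ρ : ℝ)
    (hρ : ∀ p ∈ T, ρ ≤ (r s(p.1, p.1 * p.2) : ℝ)) :
    (PP r).real {ω | ∀ p ∈ T, ω s(p.1, p.1 * p.2) = 0} ≤ Real.exp (-(ρ * T.card)) := by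
  classical
  have h1 : {ω : Sym2 Γ → ℕ | ∀ p ∈ T, ω s(p.1, p.1 * p.2) = 0} =
      Set.pi ((T.image (fun p : Γ × Γ => s(p.1, p.1 * p.2)) : Finset (Sym2 Γ)) : Set (Sym2 Γ))
        (fun _ => {0}) := by
    ext ω
    simp only [Set.mem_ofPred_eq, Set.mem_pi, Finset.coe_image, Set.mem_image, Finset.mem_coe,
      Set.mem_singleton_iff]
    constructor
    · rintro h _ ⟨p, hp, rfl⟩
      exact h p hp
    · intro h p hp
      exact h _ ⟨p, hp, rfl⟩
  rw [h1, measureReal_def, PP, Measure.infinitePi_pi _ (fun _ _ => measurableSet_singleton _),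
    Finset.prod_image hinj, ENNReal.toReal_prod]
  calc ∏ p ∈ T, ((poissonMeasure (r s(p.1, p.1 * p.2))) {0}).toReal
      = ∏ p ∈ T, Real.exp (-(r s(p.1, p.1 * p.2) : ℝ)) := by
        refine Finset.prod_congr rfl fun p hp => ?_
        have := poissonMeasure_real_singleton (r s(p.1, p.1 * p.2)) 0
        rw [measureReal_def] at this
        rw [this]
        simp
    _ ≤ ∏ p ∈ T, Real.exp (-ρ) := by
        refine Finset.prod_le_prod (fun _ _ => (Real.exp_pos _).le) fun p hp => ?_
        exact Real.exp_le_exp.2 (neg_le_neg (hρ p hp))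
    _ = Real.exp (-(ρ * T.card)) := by
        rw [Finset.prod_const, ← Real.exp_nat_mul]
        congr 1
        ring

end Pool.Agent.T2h69.LRP
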