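import Mathlib
import Pool.Agent.T2h69.LRPProb

/-!
# Long-range percolation on countable groups: the induction
-/

open MeasureTheory ProbabilityTheory
open scoped ENNReal NNReal

namespace Pool.Agent.T2h69.LRP

variable {Γ : Type*} [Group Γ] (S : Scheme Γ) (r : Sym2 Γ → ℝ≥0)

lemma indicator_dep (n : ℕ) (y : Γ) (ω ω' : Sym2 Γ → ℕ)
    (h : ∀ e ∈ (Ed_fin S n y).toFinset, ω e = ω' e) :
    ({ω | Good S ω n y}.indicator (fun _ => (1 : ℝ)) ω) =
      ({ω | Good S ω n y}.indicator (fun _ => (1 : ℝ)) ω') := by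
  have := Good_dep S n y ω ω' h
  by_cases hg : Good S ω n y
  · rw [Set.indicator_of_mem (by exact hg), Set.indicator_of_mem (by exact this.1 hg)]
  · rw [Set.indicator_of_notMem (by exact hg),
      Set.indicator_of_notMem (by exact fun h' => hg (this.2 h'))]

/-- Few good targets: unlikely. -/
lemma bad_prob (n : ℕ) (hq : ∀ x, 1 / 2 ≤ (PP r).real {ω | Good S ω n x}) (x : Γ) :
    (PP r).real {ω | ∑ a ∈ (S.B_fin n).toFinset,
      ({ω | Good S ω n (x * a)}.indicator (fun _ => (1 : ℝ)) ω) <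
        ((S.B_fin n).toFinset.card : ℝ) / 4} ≤ 4 / ((S.B_fin n).toFinset.card : ℝ) := by
  have hcard : (S.B_fin n).toFinset.card = (S.B n).ncard :=
    (Set.ncard_eq_toFinset_card (S.B n) (S.B_fin n)).symm
  have hne : ((S.B_fin n).toFinset).Nonempty := by
    rw [← Finset.card_pos, hcard]
    have h1 := S.card n
    have h2 : 0 < (S.F n).ncard := (Set.ncard_pos (S.F_fin n)).2 ⟨1, S.one_mem n⟩
    have h3 : 0 < 16 * 8 * 2 ^ n * (S.F n).ncard := by positivity
    omega
  refine cheb (PP r) _ hne (fun a => {ω | Good S ω n (x * a)})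
    (fun a _ => Good_meas S n (x * a)) ?_ (fun a _ => hq (x * a))
  intro a ha b hb hab
  have ha' : a ∈ S.B n := by simpa using ha
  have hb' : b ∈ S.B n := by simpa using hb
  refine indepFun_of_dep _ _ _ (Ed_fin S n (x * a)).toFinset (Ed_fin S n (x * b)).toFinset ?_
    (fun ω ω' h => indicator_dep S n (x * a) ω ω' h)
    (fun ω ω' h => indicator_dep S n (x * b) ω ω' h)
  rw [Finset.disjoint_left]
  intro e he he'
  exact Set.disjoint_left.1 (Ed_disj S n x a b ha' hb' hab) (by simpa using he) (by simpa using he')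

open Classical in
/-- One step of the induction. -/
lemma step (hρ : ∀ n, ∀ a ∈ S.B n, ∀ x,
      64 * (4 / 3 : ℝ) ^ n ≤ (r s(x, x * a) : ℝ) * (2 ^ n * (S.B n).ncard))
    (n : ℕ) (y : Γ) (hq : ∀ x, 1 / 2 ≤ (PP r).real {ω | Good S ω n x}) :
    (PP r).real {ω | Good S ω n y} - (1 / 8) * (1 / 2) ^ n - (1 / 16) * (3 / 4) ^ n ≤
      (PP r).real {ω | Good S ω (n + 1) y} := by
  set P := PP r with hP
  set Bf : Finset Γ := (S.B_fin n).toFinset with hBf
  have hBmem : ∀ a, a ∈ Bf ↔ a ∈ S.B n := fun a => by simp [hBf]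
  have hm : Bf.card = (S.B n).ncard := (Set.ncard_eq_toFinset_card (S.B n) (S.B_fin n)).symm
  set Xf : Finset Γ := ((S.F_fin n).toFinset).image (fun x => y * x) with hXf
  have hXmem : ∀ x, x ∈ Xf ↔ y⁻¹ * x ∈ S.F n := by
    intro x
    simp only [hXf, Finset.mem_image, Set.Finite.mem_toFinset]
    constructor
    · rintro ⟨z, hz, rfl⟩
      simpa using hz
    · intro h
      exact ⟨_, h, by group⟩
  have hXcard : Xf.card ≤ (S.F n).ncard := by
    rw [Set.ncard_eq_toFinset_card (S.F n) (S.F_fin n)]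
    exact Finset.card_image_le
  have hFpos : 0 < (S.F n).ncard := (Set.ncard_pos (S.F_fin n)).2 ⟨1, S.one_mem n⟩
  have hcard := S.card n
  rw [← hm] at hcard
  have hmpos : (0 : ℝ) < Bf.card := by
    have h3 : 0 < 16 * 8 * 2 ^ n * (S.F n).ncard := by positivity
    have : 0 < Bf.card := by omega
    exact_mod_cast this
  set bad : Γ → Set (Sym2 Γ → ℕ) := fun x => {ω | ∑ a ∈ Bf,
      ({ω | Good S ω n (x * a)}.indicator (fun _ => (1 : ℝ)) ω) < (Bf.card : ℝ) / 4} with hbad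
  have hbadp : ∀ x, P.real (bad x) ≤ 4 / (Bf.card : ℝ) := fun x => bad_prob S r n hq x
  set Z : (Sym2 Γ → ℕ) → Finset (Γ × Γ) := fun ω =>
    (Xf ×ˢ Bf).filter (fun p => p.1 ∈ R S ω n y ∧ Good S ω n (p.1 * p.2)) with hZ
  set cl : Finset (Γ × Γ) → Set (Sym2 Γ → ℕ) := fun T =>
    {ω | ∀ p ∈ T, ω s(p.1, p.1 * p.2) = 0} with hcl
  set M : ℝ := 2 ^ n * (Bf.card : ℝ) / 4 with hM
  set Ts : Finset (Finset (Γ × Γ)) :=
    (Xf ×ˢ Bf).powerset.filter (fun T => M ≤ (T.card : ℝ)) with hTs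
  set E1 : Finset (Sym2 Γ) := (Ed_fin S n y).toFinset ∪
    (Xf ×ˢ Bf).biUnion (fun p => (Ed_fin S n (p.1 * p.2)).toFinset) with hE1
  set E2 : Finset (Sym2 Γ) := (Xf ×ˢ Bf).image (fun p => s(p.1, p.1 * p.2)) with hE2
  have hdisj : Disjoint E1 E2 := by
    rw [Finset.disjoint_right]
    intro e he
    simp only [hE2, Finset.mem_image, Finset.mem_product] at he
    obtain ⟨p, ⟨-, hp2⟩, rfl⟩ := he
    simp only [hE1, Finset.mem_union, Finset.mem_biUnion, Set.Finite.mem_toFinset, not_or,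
      not_exists, not_and]
    exact ⟨new_notMem S n _ _ _ ((hBmem _).1 hp2),
      fun q _ => new_notMem S n _ _ _ ((hBmem _).1 hp2)⟩
  have hZdep : ∀ ω ω' : Sym2 Γ → ℕ, (∀ e ∈ E1, ω e = ω' e) → Z ω = Z ω' := by
    intro ω ω' h
    simp only [hZ]
    refine Finset.filter_congr fun p hp => ?_
    have h1 : R S ω n y = R S ω' n y := R_local S ω ω' n y (fun e he => h e (by
      simp only [hE1, Finset.mem_union, Set.Finite.mem_toFinset]; exact Or.inl he))
    have h2 : Good S ω n (p.1 * p.2) ↔ Good S ω' n (p.1 * p.2) :=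
      Good_local S ω ω' n _ (fun e he => h e (by
        simp only [hE1, Finset.mem_union, Finset.mem_biUnion, Set.Finite.mem_toFinset]
        exact Or.inr ⟨p, hp, he⟩))
    rw [h1, h2]
  have hcldep : ∀ T ∈ Ts, ∀ ω ω' : Sym2 Γ → ℕ, (∀ e ∈ E2, ω e = ω' e) →
      (ω ∈ cl T) = (ω' ∈ cl T) := by
    intro T hT ω ω' h
    have hTsub : T ⊆ Xf ×ˢ Bf := Finset.mem_powerset.1 (Finset.mem_filter.1 hT).1
    simp only [hcl, Set.mem_ofPred_eq]
    refine propext (forall₂_congr fun p hp => ?_)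
    rw [h _ (Finset.mem_image.2 ⟨p, hTsub hp, rfl⟩)]
  have hind : ∀ T ∈ Ts, P.real ({ω | Z ω = T} ∩ cl T) = P.real {ω | Z ω = T} * P.real (cl T) := by
    intro T hT
    have h1 : IndepFun (fun ω : Sym2 Γ → ℕ => (Z ω = T : Prop)) (fun ω => (ω ∈ cl T : Prop)) P := by
      refine indepFun_of_dep _ _ _ E1 E2 hdisj ?_ (hcldep T hT)
      intro ω ω' h
      rw [hZdep ω ω' h]
    have h2 := h1.measure_inter_preimage_eq_mul {True} {True} (measurableSet_singleton _)
      (measurableSet_singleton _)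
    have e1 : (fun ω : Sym2 Γ → ℕ => (Z ω = T : Prop)) ⁻¹' {True} = {ω | Z ω = T} := by
      ext ω; simp
    have e2 : (fun ω : Sym2 Γ → ℕ => (ω ∈ cl T : Prop)) ⁻¹' {True} = cl T := by
      ext ω; simp
    rw [e1, e2] at h2
    rw [measureReal_def, h2, ENNReal.toReal_mul]
    rfl
  have hZmeas : ∀ T, MeasurableSet {ω | Z ω = T} := by
    intro T
    have : Measurable (fun ω : Sym2 Γ → ℕ => (Z ω = T : Prop)) :=
      measurable_of_dep _ E1 (fun ω ω' h => by rw [hZdep ω ω' h])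
    exact measurableSet_setOfPred.2 this
  have hclp : ∀ T ∈ Ts, P.real (cl T) ≤ (1 / 16) * (3 / 4) ^ n := by
    intro T hT
    have hTsub : T ⊆ Xf ×ˢ Bf := Finset.mem_powerset.1 (Finset.mem_filter.1 hT).1
    have hTM : M ≤ (T.card : ℝ) := (Finset.mem_filter.1 hT).2
    set ρ : ℝ := 64 * (4 / 3 : ℝ) ^ n / (2 ^ n * Bf.card) with hρdef
    have hρpos : 0 < ρ := by positivity
    have hinj : Set.InjOn (fun p : Γ × Γ => s(p.1, p.1 * p.2)) (T : Set (Γ × Γ)) := by
      intro p hp q hq' h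
      have hp' := Finset.mem_product.1 (hTsub hp)
      have hq'' := Finset.mem_product.1 (hTsub hq')
      have := new_inj S n y p.1 q.1 p.2 q.2 ((hXmem _).1 hp'.1) ((hXmem _).1 hq''.1)
        ((hBmem _).1 hp'.2) h
      exact Prod.ext this.1 this.2
    have h1 := closed_prob r T hinj ρ (fun p hp => by
      have hp' := Finset.mem_product.1 (hTsub hp)
      have := hρ n p.2 ((hBmem _).1 hp'.2) p.1
      rw [← hm] at this
      rw [hρdef, div_le_iff₀ (by positivity)]
      exact this)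
    have h2 : 16 * (4 / 3 : ℝ) ^ n ≤ ρ * T.card := by
      calc 16 * (4 / 3 : ℝ) ^ n = ρ * M := by
            rw [hρdef, hM]; field_simp; norm_num
        _ ≤ ρ * T.card := by gcongr
    have hpos : (0 : ℝ) < 16 * (4 / 3 : ℝ) ^ n := by positivity
    calc P.real (cl T) ≤ Real.exp (-(ρ * T.card)) := h1
      _ ≤ Real.exp (-(16 * (4 / 3 : ℝ) ^ n)) := Real.exp_le_exp.2 (neg_le_neg h2)
      _ = (Real.exp (16 * (4 / 3 : ℝ) ^ n))⁻¹ := Real.exp_neg _
      _ ≤ (16 * (4 / 3 : ℝ) ^ n)⁻¹ := by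
          refine inv_anti₀ hpos ?_
          have := Real.add_one_le_exp (16 * (4 / 3 : ℝ) ^ n)
          linarith
      _ = (1 / 16) * (3 / 4) ^ n := by
          rw [mul_inv, ← inv_pow]; norm_num
  have hU : P.real (⋃ T ∈ Ts, ({ω | Z ω = T} ∩ cl T)) ≤ (1 / 16) * (3 / 4) ^ n := by
    calc P.real (⋃ T ∈ Ts, ({ω | Z ω = T} ∩ cl T))
        ≤ ∑ T ∈ Ts, P.real ({ω | Z ω = T} ∩ cl T) := measureReal_biUnion_finset_le _ _
      _ = ∑ T ∈ Ts, P.real {ω | Z ω = T} * P.real (cl T) := Finset.sum_congr rfl hind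
      _ ≤ ∑ T ∈ Ts, P.real {ω | Z ω = T} * ((1 / 16) * (3 / 4) ^ n) :=
          Finset.sum_le_sum fun T hT => mul_le_mul_of_nonneg_left (hclp T hT) measureReal_nonneg
      _ = (∑ T ∈ Ts, P.real {ω | Z ω = T}) * ((1 / 16) * (3 / 4) ^ n) := by
          rw [Finset.sum_mul]
      _ ≤ 1 * ((1 / 16) * (3 / 4) ^ n) := by
          refine mul_le_mul_of_nonneg_right ?_ (by positivity)
          rw [← measureReal_biUnion_finset]
          · exact measureReal_le_one
          · intro T _ T' _ hTT'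
            rw [Function.onFun, Set.disjoint_left]
            intro ω h1 h2
            exact hTT' (h1.symm.trans h2)
          · exact fun T _ => hZmeas T
      _ = _ := one_mul _
  have hincl : {ω | Good S ω n y} ⊆ {ω | Good S ω (n + 1) y} ∪ (⋃ x ∈ Xf, bad x) ∪
      (⋃ T ∈ Ts, ({ω | Z ω = T} ∩ cl T)) := by
    intro ω hω
    by_contra hcon
    simp only [Set.mem_union, not_or, Set.mem_iUnion, not_exists] at hcon
    obtain ⟨⟨hc1, hc2⟩, hc3⟩ := hcon
    have hω' : Good S ω n y := hω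
    have hc1' : ¬ Good S ω (n + 1) y := hc1
    refine hc3 (Z ω) ?_ ⟨rfl, ?_⟩
    · refine Finset.mem_filter.2 ⟨Finset.mem_powerset.2 (Finset.filter_subset _ _), ?_⟩
      have hRfin := R_fin S ω n y
      have hRsub : hRfin.toFinset ⊆ Xf := by
        intro x hx
        exact (hXmem x).2 (R_sub S ω n y x (by simpa using hx))
      have hRcard : (2 : ℝ) ^ n ≤ (hRfin.toFinset.card : ℝ) := by
        have := Good_card S ω n y hω'
        rw [Set.ncard_eq_toFinset_card _ hRfin] at this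
        exact_mod_cast this
      calc M = 2 ^ n * ((Bf.card : ℝ) / 4) := by rw [hM]; ring
        _ ≤ (hRfin.toFinset.card : ℝ) * ((Bf.card : ℝ) / 4) := by gcongr
        _ = ∑ x ∈ hRfin.toFinset, ((Bf.card : ℝ) / 4) := by
            rw [Finset.sum_const, nsmul_eq_mul]
        _ ≤ ∑ x ∈ hRfin.toFinset, ∑ a ∈ Bf,
              ({ω | Good S ω n (x * a)}.indicator (fun _ => (1 : ℝ)) ω) := by
            refine Finset.sum_le_sum fun x hx => ?_
            have := hc2 x (hRsub hx)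
            exact not_lt.1 this
        _ = ∑ x ∈ hRfin.toFinset, ∑ a ∈ Bf,
              (if x ∈ R S ω n y ∧ Good S ω n (x * a) then (1 : ℝ) else 0) := by
            refine Finset.sum_congr rfl fun x hx => Finset.sum_congr rfl fun a _ => ?_
            have hx' : x ∈ R S ω n y := by simpa using hx
            simp only [Set.indicator, Set.mem_ofPred_eq, hx', true_and]
        _ ≤ ∑ x ∈ Xf, ∑ a ∈ Bf,
              (if x ∈ R S ω n y ∧ Good S ω n (x * a) then (1 : ℝ) else 0) := by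
            refine Finset.sum_le_sum_of_subset_of_nonneg hRsub fun x _ _ => ?_
            refine Finset.sum_nonneg fun a _ => ?_
            split_ifs <;> norm_num
        _ = ∑ p ∈ Xf ×ˢ Bf,
              (if p.1 ∈ R S ω n y ∧ Good S ω n (p.1 * p.2) then (1 : ℝ) else 0) := by
            rw [Finset.sum_product]
        _ = ((Z ω).card : ℝ) := by
            rw [hZ, Finset.card_filter]
            push_cast
            rfl
    · intro p hp
      obtain ⟨hp1, hp2, hp3⟩ := Finset.mem_filter.1 hp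
      by_contra h0
      exact hc1' ⟨hω', p.1, hp2, p.2, (hBmem _).1 (Finset.mem_product.1 hp1).2,
        Nat.one_le_iff_ne_zero.2 h0, hp3⟩
  have hbadsum : P.real (⋃ x ∈ Xf, bad x) ≤ (1 / 8) * (1 / 2) ^ n := by
    calc P.real (⋃ x ∈ Xf, bad x) ≤ ∑ x ∈ Xf, P.real (bad x) := measureReal_biUnion_finset_le _ _
      _ ≤ ∑ x ∈ Xf, 4 / (Bf.card : ℝ) := Finset.sum_le_sum fun x _ => hbadp x
      _ = Xf.card * (4 / (Bf.card : ℝ)) := by rw [Finset.sum_const, nsmul_eq_mul]
      _ ≤ (S.F n).ncard * (4 / (Bf.card : ℝ)) := by gcongr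
      _ ≤ (1 / 8) * (1 / 2) ^ n := by
          have h1 : (16 * 8 * 2 ^ n * (S.F n).ncard : ℝ) ≤ Bf.card := by exact_mod_cast hcard
          have h2 : (0 : ℝ) < 2 ^ n := by positivity
          rw [mul_div_assoc', div_le_iff₀ hmpos]
          have h3 : (1 / 8 : ℝ) * (1 / 2) ^ n * (16 * 8 * 2 ^ n * (S.F n).ncard) =
              16 * (S.F n).ncard := by
            have : (1 / 2 : ℝ) ^ n * 2 ^ n = 1 := by rw [← mul_pow]; norm_num
            calc (1 / 8 : ℝ) * (1 / 2) ^ n * (16 * 8 * 2 ^ n * (S.F n).ncard)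
                = 16 * ((1 / 2 : ℝ) ^ n * 2 ^ n) * (S.F n).ncard := by ring
              _ = _ := by rw [this]; ring
          have h4 : (1 / 8 : ℝ) * (1 / 2) ^ n * (16 * 8 * 2 ^ n * (S.F n).ncard) ≤
              (1 / 8 : ℝ) * (1 / 2) ^ n * Bf.card := by gcongr
          have h5 : (0 : ℝ) ≤ (S.F n).ncard := by positivity
          linarith
  have hfin : P.real {ω | Good S ω n y} ≤ P.real {ω | Good S ω (n + 1) y} +
      P.real (⋃ x ∈ Xf, bad x) + P.real (⋃ T ∈ Ts, ({ω | Z ω = T} ∩ cl T)) := by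
    calc P.real {ω | Good S ω n y} ≤ _ := measureReal_mono hincl
      _ ≤ P.real ({ω | Good S ω (n + 1) y} ∪ (⋃ x ∈ Xf, bad x)) + _ := measureReal_union_le _ _
      _ ≤ _ := by
          have := measureReal_union_le (μ := P) {ω | Good S ω (n + 1) y} (⋃ x ∈ Xf, bad x)
          linarith
  linarith

/-- All levels are good with probability at least `1/2`. -/
lemma good_prob (hρ : ∀ n, ∀ a ∈ S.B n, ∀ x,
      64 * (4 / 3 : ℝ) ^ n ≤ (r s(x, x * a) : ℝ) * (2 ^ n * (S.B n).ncard))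
    (n : ℕ) : ∀ y, 1 / 2 + (1 / 4) * (1 / 2) ^ n + (1 / 4) * (3 / 4) ^ n ≤
      (PP r).real {ω | Good S ω n y} := by
  induction n with
  | zero =>
    intro y
    have : {ω : Sym2 Γ → ℕ | Good S ω 0 y} = Set.univ := by ext; simp [Good]
    rw [this]
    simp
    norm_num
  | succ n ih =>
    intro y
    have h1 : (0 : ℝ) < (1 / 2) ^ n := by positivity
    have h2 : (0 : ℝ) < (3 / 4) ^ n := by positivity
    have := step S r hρ n y (fun x => by linarith [ih x])
    have h3 := ih y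
    rw [pow_succ, pow_succ]
    linarith

lemma all_good_prob (hρ : ∀ n, ∀ a ∈ S.B n, ∀ x,
      64 * (4 / 3 : ℝ) ^ n ≤ (r s(x, x * a) : ℝ) * (2 ^ n * (S.B n).ncard)) (y : Γ) :
    1 / 2 ≤ (PP r).real {ω | ∀ n, Good S ω n y} := by
  have hset : {ω : Sym2 Γ → ℕ | ∀ n, Good S ω n y} = ⋂ n, {ω | Good S ω n y} := by
    ext ω; simp
  have hanti : Antitone (fun n => {ω : Sym2 Γ → ℕ | Good S ω n y}) :=
    antitone_nat_of_succ_le fun n ω hω => Good_anti S ω n y hω
  have ht := tendsto_measure_iInter_atTop (μ := PP r)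
    (s := fun n => {ω : Sym2 Γ → ℕ | Good S ω n y})
    (fun n => (Good_meas S n y).nullMeasurableSet) hanti ⟨0, measure_ne_top _ _⟩
  have ht' : Filter.Tendsto (fun n => (PP r).real {ω : Sym2 Γ → ℕ | Good S ω n y}) Filter.atTop
      (nhds ((PP r).real (⋂ n, {ω | Good S ω n y}))) :=
    (ENNReal.tendsto_toReal (measure_ne_top _ _)).comp ht
  rw [hset]
  refine ge_of_tendsto' ht' fun n => ?_
  have := good_prob S r hρ n y
  have h1 : (0 : ℝ) < (1 / 2) ^ n := by positivity
  have h2 : (0 : ℝ) < (3 / 4) ^ n := by positivity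
  linarith

end Pool.Agent.T2h69.LRP
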