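import Mathlib

/-!
# Invariant bond percolation on `ℤ^d`: definitions
-/

open MeasureTheory ProbabilityTheory

namespace Pool.Agent.T2h69.Perc

/-- The lattice `ℤ^d` as a graph: two vertices are adjacent when their Euclidean distance is `1`. -/
def lattice (d : ℕ) : SimpleGraph (Fin d → ℤ) where
  Adj x y := ∑ i, (x i - y i) ^ 2 = 1
  symm := ⟨fun x y h => by
    rw [← h]
    exact Finset.sum_congr rfl fun i _ => by ring⟩
  loopless := ⟨fun x h => by simp at h⟩

/-- The edges of `ℤ^d`. -/
abbrev Edge (d : ℕ) := (lattice d).edgeSet

/-- Bond configurations on `ℤ^d`; `true` means open. -/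
abbrev Config (d : ℕ) := Edge d → Bool

variable {d : ℕ}

/-- The subgraph of open edges. -/
def openGraph (ω : Config d) : SimpleGraph (Fin d → ℤ) :=
  SimpleGraph.fromEdgeSet {e | ∃ he : e ∈ (lattice d).edgeSet, ω ⟨e, he⟩ = true}

/-- There is an infinite cluster. -/
def HasInfiniteCluster (ω : Config d) : Prop :=
  ∃ C : (openGraph ω).ConnectedComponent, C.supp.Infinite

/-- Relabelling of a configuration by a graph automorphism. -/
def relabel (φ : lattice d ≃g lattice d) (ω : Config d) : Config d :=
  fun e => ω (φ.mapEdgeSet e)

/-- The law `μ` is invariant under every graph automorphism of `ℤ^d`. -/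
def IsInvariant (μ : Measure (Config d)) : Prop :=
  ∀ φ : lattice d ≃g lattice d, μ.map (relabel φ) = μ

/-- The σ-algebra generated by the states of all edges other than `e`. -/
@[reducible] def off (e : Edge d) : MeasurableSpace (Config d) :=
  MeasurableSpace.comap (fun (ω : Config d) (f : {f : Edge d // f ≠ e}) => ω f.1) inferInstance

/-- The conditional probability that the edge `e` is open given the states of all other edges. -/
noncomputable def condOpen (μ : Measure (Config d)) (e : Edge d) : Config d → ℝ :=
  μ[{ω | ω e = true}.indicator (fun _ => (1 : ℝ)) | off e]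

/-- Finite energy: for every edge the conditional probability that it is open, given all other
edges, is almost surely strictly between `0` and `1`. -/
def FiniteEnergy (μ : Measure (Config d)) : Prop :=
  ∀ e : Edge d, ∀ᵐ ω ∂μ, 0 < condOpen μ e ω ∧ condOpen μ e ω < 1

/-- The law of the `p`-thinning: each open edge is kept independently with probability `p`. -/
noncomputable def thinning (p : unitInterval) (μ : Measure (Config d)) : Measure (Config d) :=
  (μ.prod (Measure.infinitePi fun _ : Edge d => bernoulliMeasure true false p)).map
    fun q e => q.1 e && q.2 e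

/-- The critical value `p_c`: the supremum of those `p` in `[0,1]` for which the `p`-thinning has
almost surely no infinite cluster. -/
noncomputable def criticalValue (μ : Measure (Config d)) : ℝ :=
  sSup {p : ℝ | ∃ hp : p ∈ Set.Icc (0 : ℝ) 1,
    ∀ᵐ ω ∂(thinning ⟨p, hp⟩ μ), ¬ HasInfiniteCluster ω}

end Pool.Agent.T2h69.Perc
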