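import Mathlib
import Pool.Agent.T2h69.PercDefs

/-!
# Automorphisms of the lattice `ℤ^d` are signed permutations composed with translations
-/

namespace Pool.Agent.T2h69.Perc

variable {d : ℕ}

/-- Squared Euclidean norm. -/
def N (u : Fin d → ℤ) : ℤ := ∑ i, u i ^ 2

/-- Dot product. -/
def dp (u v : Fin d → ℤ) : ℤ := ∑ i, u i * v i

lemma N_nonneg (u : Fin d → ℤ) : 0 ≤ N u := Finset.sum_nonneg fun _ _ => sq_nonneg _

lemma N_eq_zero {u : Fin d → ℤ} (h : N u = 0) : u = 0 := by
  funext i
  have := (Finset.sum_eq_zero_iff_of_nonneg (fun i _ => sq_nonneg (u i))).1 h i (Finset.mem_univ i)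
  simpa using this

lemma N_add (u v : Fin d → ℤ) : N (u + v) = N u + N v + 2 * dp u v := by
  simp only [N, dp, Pi.add_apply, Finset.mul_sum, ← Finset.sum_add_distrib]
  exact Finset.sum_congr rfl fun i _ => by ring

lemma N_sub (u v : Fin d → ℤ) : N (u - v) = N u + N v - 2 * dp u v := by
  simp only [N, dp, Pi.sub_apply, Finset.mul_sum, ← Finset.sum_add_distrib,
    ← Finset.sum_sub_distrib]
  exact Finset.sum_congr rfl fun i _ => by ring

lemma N_neg (u : Fin d → ℤ) : N (-u) = N u := by
  simp [N]

lemma dp_sub_left (u v w : Fin d → ℤ) : dp (u - v) w = dp u w - dp v w := by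
  simp only [dp, Pi.sub_apply, ← Finset.sum_sub_distrib]
  exact Finset.sum_congr rfl fun i _ => by ring

lemma adj_iff (x y : Fin d → ℤ) : (lattice d).Adj x y ↔ N (x - y) = 1 := Iff.rfl

lemma adj_add (x u : Fin d → ℤ) (hu : N u = 1) : (lattice d).Adj (x + u) x := by
  rw [adj_iff]; simpa using hu

variable (φ : lattice d ≃g lattice d)

lemma map_unit (x u : Fin d → ℤ) (hu : N u = 1) : N (φ (x + u) - φ x) = 1 := by
  rw [← adj_iff, φ.map_adj_iff]
  exact adj_add x u hu

lemma opposite (x u : Fin d → ℤ) (hu : N u = 1) : φ (x + u) + φ (x - u) = φ x + φ x := by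
  have hA := map_unit φ x u hu
  have hB : N (φ (x - u) - φ x) = 1 := by
    have := map_unit φ x (-u) (by rwa [N_neg])
    rwa [← sub_eq_add_neg] at this
  set Z := φ (x + u) + φ (x - u) - φ x with hZ
  have h1 : (lattice d).Adj Z (φ (x + u)) := by
    rw [adj_iff]
    have : Z - φ (x + u) = φ (x - u) - φ x := by rw [hZ]; abel
    rw [this]; exact hB
  have h2 : (lattice d).Adj Z (φ (x - u)) := by
    rw [adj_iff]
    have : Z - φ (x - u) = φ (x + u) - φ x := by rw [hZ]; abel
    rw [this]; exact hA
  obtain ⟨z, hz⟩ := φ.surjective Z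
  rw [← hz, φ.map_adj_iff, adj_iff] at h1 h2
  have e1 : z - (x + u) = (z - x) - u := by abel
  have e2 : z - (x - u) = (z - x) + u := by abel
  rw [e1, N_sub] at h1
  rw [e2, N_add] at h2
  have h3 : N (z - x) = 0 := by
    have := N_nonneg (z - x)
    linarith
  have h4 : z = x := sub_eq_zero.1 (N_eq_zero h3)
  rw [h4] at hz
  rw [hZ] at hz
  rw [eq_sub_iff_add_eq] at hz
  exact hz.symm

lemma square (x u w : Fin d → ℤ) (hu : N u = 1) (hw : N w = 1) (h1 : u ≠ w) (h2 : u ≠ -w) :
    φ (x + u + w) + φ x = φ (x + u) + φ (x + w) := by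
  set u' := φ (x + u) - φ x with hu'
  set w' := φ (x + w) - φ x with hw'
  set q := φ (x + u + w) - φ x with hq
  have nu : N u' = 1 := map_unit φ x u hu
  have nw : N w' = 1 := map_unit φ x w hw
  have nqu : N (q - u') = 1 := by
    have := map_unit φ (x + u) w hw
    have e : q - u' = φ (x + u + w) - φ (x + u) := by rw [hq, hu']; abel
    rw [e]; exact this
  have nqw : N (q - w') = 1 := by
    have := map_unit φ (x + w) u hu
    have e : q - w' = φ (x + w + u) - φ (x + w) := by
      rw [hq, hw']
      have : x + w + u = x + u + w := by abel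
      rw [this]; abel
    rw [e]; exact this
  have hne1 : u' - w' ≠ 0 := by
    intro h
    have : φ (x + u) = φ (x + w) := by
      have := sub_eq_zero.1 h
      rw [hu', hw'] at this
      exact sub_left_injective this
    exact h1 (add_left_cancel (φ.injective this))
  have hne2 : u' + w' ≠ 0 := by
    intro h
    have ho := opposite φ x w hw
    have : φ (x + u) = φ (x - w) := by
      have e : φ (x - w) = φ x + φ x - φ (x + w) := by rw [← ho]; abel
      rw [e]
      have : φ (x + u) - φ x + (φ (x + w) - φ x) = 0 := h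
      have h' : φ (x + u) = φ x + φ x - φ (x + w) +
        (φ (x + u) - φ x + (φ (x + w) - φ x)) := by abel
      rw [this, add_zero] at h'
      exact h'
    have h3 := φ.injective this
    apply h2
    rw [sub_eq_add_neg] at h3
    exact add_left_cancel h3
  have hqne : q ≠ 0 := by
    intro h
    have h3 : x + u + w = x := φ.injective (sub_eq_zero.1 h)
    apply h2
    rw [add_assoc] at h3
    exact eq_neg_of_add_eq_zero_left (add_eq_left.1 h3)
  have p1 : 0 < N (u' - w') := lt_of_le_of_ne (N_nonneg _) fun h => hne1 (N_eq_zero h.symm)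
  have p2 : 0 < N (u' + w') := lt_of_le_of_ne (N_nonneg _) fun h => hne2 (N_eq_zero h.symm)
  have p3 : 0 < N q := lt_of_le_of_ne (N_nonneg _) fun h => hqne (N_eq_zero h.symm)
  rw [N_sub] at p1 nqu nqw
  rw [N_add] at p2
  have d0 : dp u' w' = 0 := by omega
  have hfin : N (q - u' - w') = N q + 2 - 2 * dp q u' - 2 * dp q w' := by
    rw [N_sub (q - u') w', N_sub q u', dp_sub_left q u' w', nu, nw, d0]; ring
  have p4 := N_nonneg (q - u' - w')
  have h0 : N (q - u' - w') = 0 := by omega
  have h5 := N_eq_zero h0
  have h6 : φ (x + u + w) + φ x - (φ (x + u) + φ (x + w)) = q - u' - w' := by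
    rw [hq, hu', hw']; abel
  rw [h5] at h6
  exact sub_eq_zero.1 h6

lemma diff_shift (x u w : Fin d → ℤ) (hu : N u = 1) (hw : N w = 1) :
    φ (x + w + u) - φ (x + w) = φ (x + u) - φ x := by
  by_cases h1 : u = w
  · subst h1
    have := opposite φ (x + u) u hu
    have e : x + u - u = x := by abel
    rw [e] at this
    rw [sub_eq_sub_iff_add_eq_add]
    exact this
  · by_cases h2 : u = -w
    · subst h2
      have := opposite φ x w hw
      have e : x + w + -w = x := by abel
      rw [e, ← sub_eq_add_neg, sub_eq_sub_iff_add_eq_add, ← this]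
      abel
    · have := square φ x u w hu hw h1 h2
      have e : x + w + u = x + u + w := by abel
      rw [e, sub_eq_sub_iff_add_eq_add]
      exact this

lemma N_single (i : Fin d) (c : ℤ) : N (Pi.single i c) = c ^ 2 := by
  unfold N
  rw [Finset.sum_eq_single i]
  · simp
  · intro j _ hj; simp [hj]
  · simp

/-- Invariance under unit steps implies invariance under changing one coordinate. -/
lemma const_update {β : Type*} (g : (Fin d → ℤ) → β)
    (hg : ∀ x i, g (x + Pi.single i 1) = g x) (y : Fin d → ℤ) (i : Fin d) (t : ℤ) :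
    g (Function.update y i t) = g y := by
  have key : ∀ k : ℤ, ∀ x, g (x + Pi.single i k) = g x := by
    intro k
    induction k using Int.induction_on with
    | zero => intro x; simp
    | succ n ih =>
      intro x
      rw [show x + Pi.single i ((n : ℤ) + 1) = (x + Pi.single i (n : ℤ)) + Pi.single i 1 by
        rw [Pi.single_add]; abel]
      rw [hg, ih]
    | pred n ih =>
      intro x
      rw [← ih x]
      rw [show x + Pi.single i (-(n : ℤ)) = (x + Pi.single i (-(n : ℤ) - 1)) + Pi.single i 1 by
        rw [Pi.single_sub]; abel]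
      rw [hg]
  have : Function.update y i t = y + Pi.single i (t - y i) := by
    funext j
    by_cases hj : j = i
    · subst hj; simp
    · simp [hj]
  rw [this, key]

lemma const_of_step {β : Type*} (g : (Fin d → ℤ) → β)
    (hg : ∀ x i, g (x + Pi.single i 1) = g x) (x : Fin d → ℤ) : g x = g 0 := by
  classical
  have key : ∀ A : Finset (Fin d), g (A.piecewise x 0) = g 0 := by
    intro A
    induction A using Finset.induction_on with
    | empty => simp
    | insert j A hj ih =>
      rw [Finset.piecewise_insert, const_update g hg, ih]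
  have := key Finset.univ
  rwa [Finset.piecewise_univ] at this

lemma unit_form {u : Fin d → ℤ} (hu : N u = 1) :
    ∃ a : Fin d, ∃ c : ℤ, (c = 1 ∨ c = -1) ∧ u = Pi.single a c := by
  have h0 : ∃ a, u a ≠ 0 := by
    by_contra h
    push Not at h
    have : N u = 0 := Finset.sum_eq_zero fun i _ => by simp [h i]
    omega
  obtain ⟨a, ha⟩ := h0
  have hsplit : u a ^ 2 + ∑ i ∈ Finset.univ.erase a, u i ^ 2 = 1 := by
    rw [← hu]
    exact Finset.add_sum_erase _ (fun i => u i ^ 2) (Finset.mem_univ a)
  have hpos : 1 ≤ u a ^ 2 := by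
    have : 0 < u a ^ 2 := by positivity
    omega
  have hnn : 0 ≤ ∑ i ∈ Finset.univ.erase a, u i ^ 2 := Finset.sum_nonneg fun i _ => sq_nonneg _
  have hz : ∑ i ∈ Finset.univ.erase a, u i ^ 2 = 0 := by omega
  have hone : u a ^ 2 = 1 := by omega
  have hcase : u a = 1 ∨ u a = -1 := by
    have : (u a - 1) * (u a + 1) = 0 := by linarith [hone, sq (u a)]
    rcases mul_eq_zero.1 this with h | h
    · left; linarith
    · right; linarith
  refine ⟨a, u a, hcase, ?_⟩
  funext j
  by_cases hj : j = a
  · subst hj; simp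
  · have := (Finset.sum_eq_zero_iff_of_nonneg (fun i _ => sq_nonneg (u i))).1 hz j
      (Finset.mem_erase.2 ⟨hj, Finset.mem_univ j⟩)
    rw [Pi.single_eq_of_ne hj]
    simpa using this

/-- Every automorphism of the lattice is a signed permutation followed by a translation. -/
theorem aut_form : ∃ (τ : Equiv.Perm (Fin d)) (ε v : Fin d → ℤ), (∀ i, ε i = 1 ∨ ε i = -1) ∧
    ∀ x i, φ x (τ i) = ε i * x i + v i := by
  classical
  have hunit : ∀ i : Fin d, N (Pi.single i (1 : ℤ)) = 1 := fun i => by rw [N_single]; norm_num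
  have hL : ∀ u, N u = 1 → ∀ x, φ (x + u) - φ x = φ (0 + u) - φ 0 := by
    intro u hu x
    exact const_of_step (fun x => φ (x + u) - φ x)
      (fun x i => diff_shift φ x u (Pi.single i 1) hu (hunit i)) x
  have hLu : ∀ i : Fin d, N (φ (0 + Pi.single i 1) - φ 0) = 1 := fun i =>
    map_unit φ 0 _ (hunit i)
  choose τ ε hε hτ using fun i => unit_form (hLu i)
  have hφ : ∀ x, φ x = φ 0 + ∑ i, x i • (Pi.single (τ i) (ε i) : Fin d → ℤ) := by
    intro x
    have := const_of_step
      (fun x => φ x - ∑ i, x i • (Pi.single (τ i) (ε i) : Fin d → ℤ)) (fun x j => by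
        have h1 := hL _ (hunit j) x
        rw [hτ j] at h1
        have h2 : ∑ i, (x + Pi.single j 1 : Fin d → ℤ) i • (Pi.single (τ i) (ε i) : Fin d → ℤ) =
            ∑ i, x i • (Pi.single (τ i) (ε i) : Fin d → ℤ) + Pi.single (τ j) (ε j) := by
          simp only [Pi.add_apply, add_smul, Finset.sum_add_distrib]
          congr 1
          rw [Finset.sum_eq_single j]
          · simp
          · intro i _ hi; simp [hi]
          · simp
        rw [h2, ← h1]
        abel) x
    have h3 : φ x - ∑ i, x i • (Pi.single (τ i) (ε i) : Fin d → ℤ) =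
        φ 0 - ∑ i, (0 : Fin d → ℤ) i • (Pi.single (τ i) (ε i) : Fin d → ℤ) := this
    rw [sub_eq_iff_eq_add] at h3
    rw [h3]
    simp
  have hinj : Function.Injective τ := by
    intro i j hij
    by_contra hne
    have hi := hτ i
    have hj := hτ j
    have hcase : φ (0 + Pi.single i 1) - φ 0 = φ (0 + Pi.single j 1) - φ 0 ∨
        φ (0 + Pi.single i 1) - φ 0 = -(φ (0 + Pi.single j 1) - φ 0) := by
      rw [hi, hj, hij]
      rcases hε i with h1 | h1 <;> rcases hε j with h2 | h2 <;> rw [h1, h2]
      · left; rfl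
      · right; rw [← Pi.single_neg]; simp
      · right; rw [← Pi.single_neg]
      · left; rfl
    rcases hcase with h | h
    · have h1 := φ.injective (sub_left_injective h)
      have h2 := congrFun (add_left_cancel h1) i
      rw [Pi.single_eq_same, Pi.single_eq_of_ne hne] at h2
      exact one_ne_zero h2
    · have ho := opposite φ 0 (Pi.single j 1) (hunit j)
      have h1 : φ (0 + Pi.single i 1) = φ (0 - Pi.single j 1) := by
        have e : φ (0 - Pi.single j 1) = φ 0 + φ 0 - φ (0 + Pi.single j 1) := by
          rw [← ho]; abel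
        rw [e]
        have e2 : φ (0 + Pi.single i 1) = (φ (0 + Pi.single i 1) - φ 0) + φ 0 := by abel
        rw [e2, h]; abel
      have h2 := φ.injective h1
      rw [sub_eq_add_neg] at h2
      have h3 := congrFun (add_left_cancel h2) i
      rw [Pi.single_eq_same, Pi.neg_apply, Pi.single_eq_of_ne hne] at h3
      simp at h3
  have hbij : Function.Bijective τ := Finite.injective_iff_bijective.1 hinj
  refine ⟨Equiv.ofBijective τ hbij, ε, fun i => φ 0 (τ i), hε, ?_⟩
  intro x i
  rw [Equiv.ofBijective_apply, hφ x, Pi.add_apply, Finset.sum_apply, Finset.sum_eq_single i]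
  · simp [mul_comm, add_comm]
  · intro j _ hj
    rw [Pi.smul_apply, Pi.single_eq_of_ne (fun h => hj (hinj h).symm)]
    simp
  · simp

end Pool.Agent.T2h69.Perc
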