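import Mathlib

/-!
# 3-adic block structure on the integers
-/

namespace Pool.Agent.T2h69.Perc

/-- `a` is divisible by `3 ^ n`. -/
def P (n : ℕ) (a : ℤ_[3]) : Prop := ‖a‖ ≤ (3 : ℝ) ^ (-n : ℤ)

lemma P_int (n : ℕ) (k : ℤ) : P n (k : ℤ_[3]) ↔ (3 : ℤ) ^ n ∣ k := by
  have := PadicInt.norm_int_le_pow_iff_dvd (p := 3) (k := k) (n := n)
  simpa [P] using this

lemma P_add {n : ℕ} {a b : ℤ_[3]} (ha : P n a) (hb : P n b) : P n (a + b) :=
  (PadicInt.nonarchimedean a b).trans (max_le ha hb)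

lemma P_neg {n : ℕ} {a : ℤ_[3]} (ha : P n a) : P n (-a) := by
  unfold P; rw [norm_neg]; exact ha

lemma P_sub {n : ℕ} {a b : ℤ_[3]} (ha : P n a) (hb : P n b) : P n (a - b) := by
  rw [sub_eq_add_neg]; exact P_add ha (P_neg hb)

lemma norm_two : ‖(2 : ℤ_[3])‖ = 1 := by
  have := (PadicInt.norm_natCast_eq_one_iff (p := 3) (n := 2)).2 (by decide)
  simpa using this

lemma P_two {n : ℕ} {a : ℤ_[3]} : P n (2 * a) ↔ P n a := by
  unfold P; rw [norm_mul, norm_two, one_mul]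

lemma P_anti {m n : ℕ} (h : m ≤ n) {a : ℤ_[3]} (ha : P n a) : P m a := by
  refine le_trans ha ?_
  exact zpow_le_zpow_right₀ (by norm_num) (by omega)

lemma P_zero (n : ℕ) : P n 0 := by
  unfold P; simp

lemma exists_not_P {a : ℤ_[3]} (ha : a ≠ 0) : ∃ n, ¬ P n a := by
  obtain ⟨k, hk⟩ := PadicInt.exists_pow_neg_lt 3 (norm_pos_iff.2 ha)
  refine ⟨k, ?_⟩
  unfold P
  rw [not_le]
  simpa using hk

lemma le_of_P {n : ℕ} {a b : ℤ_[3]} (ha : P n a) (hb : ¬ P (n + 1) b) : ‖a‖ ≤ ‖b‖ := by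
  refine le_trans ha ?_
  unfold P at hb
  have h := PadicInt.norm_le_pow_iff_norm_lt_pow_add_one b (-(n + 1 : ℕ) : ℤ)
  have h2 : ¬ ‖b‖ < (3 : ℝ) ^ ((-(n + 1 : ℕ) : ℤ) + 1) := by
    intro h'
    exact hb (by simpa using h.2 (by simpa using h'))
  rw [not_lt] at h2
  have e : ((-(n + 1 : ℕ) : ℤ) + 1) = (-n : ℤ) := by push_cast; ring
  rwa [e] at h2

/-- Half width of the blocks. -/
def hw (n : ℕ) : ℤ := (3 ^ n - 1) / 2

lemma hw_spec (n : ℕ) : 2 * hw n + 1 = 3 ^ n := by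
  have : (3 ^ n - 1 : ℤ) % 2 = 0 := by
    have : Odd (3 ^ n : ℤ) := Odd.pow (by decide)
    obtain ⟨k, hk⟩ := this
    omega
  unfold hw
  omega

lemma hw_nonneg (n : ℕ) : 0 ≤ hw n := by
  have := hw_spec n
  have h : (1 : ℤ) ≤ 3 ^ n := one_le_pow₀ (by norm_num)
  omega

lemma hw_succ (n : ℕ) : hw (n + 1) = 3 * hw n + 1 := by
  have h1 := hw_spec n
  have h2 := hw_spec (n + 1)
  rw [pow_succ] at h2
  omega

lemma exists_center (n : ℕ) (z : ℤ_[3]) :
    ∃ c : ℤ, -hw n ≤ c ∧ c ≤ hw n ∧ P n ((c : ℤ_[3]) + z) := by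
  have h1 := PadicInt.appr_spec n (-z)
  set k : ℤ := ((-z).appr n : ℤ) with hk
  have h2 : P n ((k : ℤ_[3]) + z) := by
    have h3 := (PadicInt.norm_le_pow_iff_mem_span_pow (p := 3) (-z - ((-z).appr n : ℤ_[3])) n).2 h1
    have e : (k : ℤ_[3]) + z = -(-z - ((-z).appr n : ℤ_[3])) := by
      rw [hk]; push_cast; ring
    rw [e]
    exact P_neg (by simpa [P] using h3)
  have hpos : (0 : ℤ) < 3 ^ n := by positivity
  have hs := hw_spec n
  refine ⟨(k + hw n) % 3 ^ n - hw n, ?_, ?_, ?_⟩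
  · have := Int.emod_nonneg (k + hw n) hpos.ne'
    omega
  · have := Int.emod_lt_of_pos (k + hw n) hpos
    omega
  · have h4 : (3 : ℤ) ^ n ∣ ((k + hw n) % 3 ^ n - hw n) - k := by
      have := Int.emod_add_mul_ediv (k + hw n) (3 ^ n)
      refine ⟨-((k + hw n) / 3 ^ n), ?_⟩
      linarith
    have h5 := (P_int n _).2 h4
    have e : (((k + hw n) % 3 ^ n - hw n : ℤ) : ℤ_[3]) + z =
        ((((k + hw n) % 3 ^ n - hw n) - k : ℤ) : ℤ_[3]) + ((k : ℤ_[3]) + z) := by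
      push_cast; ring
    rw [e]
    exact P_add h5 h2

/-- The centre of the block of level `n` containing `0`. -/
noncomputable def cen (n : ℕ) (z : ℤ_[3]) : ℤ := (exists_center n z).choose

lemma cen_lo (n : ℕ) (z : ℤ_[3]) : -hw n ≤ cen n z := (exists_center n z).choose_spec.1

lemma cen_hi (n : ℕ) (z : ℤ_[3]) : cen n z ≤ hw n := (exists_center n z).choose_spec.2.1

lemma cen_P (n : ℕ) (z : ℤ_[3]) : P n ((cen n z : ℤ_[3]) + z) :=
  (exists_center n z).choose_spec.2.2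

/-- The block of level `n` containing `0`. -/
noncomputable def blk (n : ℕ) (z : ℤ_[3]) : Finset ℤ := Finset.Icc (cen n z - hw n) (cen n z + hw n)

lemma mem_blk {n : ℕ} {z : ℤ_[3]} {x : ℤ} :
    x ∈ blk n z ↔ cen n z - hw n ≤ x ∧ x ≤ cen n z + hw n := Finset.mem_Icc

lemma zero_mem_blk (n : ℕ) (z : ℤ_[3]) : 0 ∈ blk n z := by
  rw [mem_blk]
  have := cen_lo n z
  have := cen_hi n z
  constructor <;> linarith

lemma cen_mem_blk (n : ℕ) (z : ℤ_[3]) : cen n z ∈ blk n z := by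
  rw [mem_blk]
  have := hw_nonneg n
  constructor <;> linarith

lemma card_blk (n : ℕ) (z : ℤ_[3]) : (blk n z).card = 3 ^ n := by
  unfold blk
  rw [Int.card_Icc]
  have := hw_spec n
  have h2 : cen n z + hw n + 1 - (cen n z - hw n) = 3 ^ n := by linarith
  rw [h2]
  have : ((3 : ℤ) ^ n) = ((3 ^ n : ℕ) : ℤ) := by push_cast; rfl
  rw [this, Int.toNat_natCast]

lemma eq_of_dvd_of_small {m k : ℤ} (h : m ∣ k) (hk : |k| < m) : k = 0 :=
  Int.eq_zero_of_abs_lt_dvd h hk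

/-- The centre is the only point of its block in its class. -/
lemma eq_cen {n : ℕ} {z : ℤ_[3]} {x : ℤ} (hx : x ∈ blk n z) (hP : P n ((x : ℤ_[3]) + z)) :
    x = cen n z := by
  rw [mem_blk] at hx
  have h1 := P_sub hP (cen_P n z)
  have e : (x : ℤ_[3]) + z - ((cen n z : ℤ_[3]) + z) = ((x - cen n z : ℤ) : ℤ_[3]) := by
    push_cast; ring
  rw [e, P_int] at h1
  have hs := hw_spec n
  have := eq_of_dvd_of_small h1 (by rw [abs_lt]; constructor <;> linarith [hw_nonneg n])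
  linarith

/-- Blocks are nested. -/
lemma blk_succ (n : ℕ) (z : ℤ_[3]) : blk n z ⊆ blk (n + 1) z := by
  have h1 := P_sub (P_anti (Nat.le_succ n) (cen_P (n + 1) z)) (cen_P n z)
  have e : ((cen (n + 1) z : ℤ) : ℤ_[3]) + z - ((cen n z : ℤ_[3]) + z) =
      ((cen (n + 1) z - cen n z : ℤ) : ℤ_[3]) := by
    push_cast; ring
  rw [e, P_int] at h1
  obtain ⟨m, hm⟩ := h1
  have a1 := cen_lo n z
  have a2 := cen_hi n z
  have a3 := cen_lo (n + 1) z
  have a4 := cen_hi (n + 1) z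
  have hs := hw_spec n
  have hss := hw_succ n
  have hpos : (0 : ℤ) < 3 ^ n := by positivity
  have hm1 : m ≤ 1 := by
    by_contra h
    have : 2 ≤ m := by omega
    have : 3 ^ n * 2 ≤ 3 ^ n * m := by
      exact mul_le_mul_of_nonneg_left this hpos.le
    linarith
  have hm2 : -1 ≤ m := by
    by_contra h
    have : m ≤ -2 := by omega
    have : 3 ^ n * m ≤ 3 ^ n * (-2) := by
      exact mul_le_mul_of_nonneg_left this hpos.le
    linarith
  have b1 : 3 ^ n * m ≤ 3 ^ n * 1 := mul_le_mul_of_nonneg_left hm1 hpos.le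
  have b2 : 3 ^ n * (-1) ≤ 3 ^ n * m := mul_le_mul_of_nonneg_left hm2 hpos.le
  intro x hx
  rw [mem_blk] at hx ⊢
  constructor <;> linarith

lemma blk_mono {m n : ℕ} (h : m ≤ n) (z : ℤ_[3]) : blk m z ⊆ blk n z := by
  induction n, h using Nat.le_induction with
  | base => exact fun _ h => h
  | succ n _ ih => exact ih.trans (blk_succ n z)

/-- Edges leaving the block are walls. -/
lemma wall_of_exit {n : ℕ} {z : ℤ_[3]} {x y : ℤ} (hx : x ∈ blk n z) (hy : y ∉ blk n z)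
    (hxy : y = x + 1 ∨ y = x - 1) : P n (((x + y : ℤ) : ℤ_[3]) + 2 * z) ∧
      (x = cen n z + hw n ∧ y = x + 1 ∨ x = cen n z - hw n ∧ y = x - 1) := by
  rw [mem_blk] at hx hy
  have hc := cen_P n z
  have h2 : P n (2 * ((cen n z : ℤ_[3]) + z)) := P_two.2 hc
  have h3 : P n (((3 : ℤ) ^ n : ℤ) : ℤ_[3]) := (P_int n _).2 dvd_rfl
  have hs := hw_spec n
  rcases hxy with rfl | rfl
  · have hxe : x = cen n z + hw n := by
      by_contra hne
      apply hy
      have : x < cen n z + hw n := lt_of_le_of_ne hx.2 hne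
      constructor <;> linarith
    refine ⟨?_, Or.inl ⟨hxe, rfl⟩⟩
    have e : (((x + (x + 1) : ℤ)) : ℤ_[3]) + 2 * z =
        2 * ((cen n z : ℤ_[3]) + z) + (((3 : ℤ) ^ n : ℤ) : ℤ_[3]) := by
      rw [← hs, hxe]; push_cast; ring
    rw [e]
    exact P_add h2 h3
  · have hxe : x = cen n z - hw n := by
      by_contra hne
      apply hy
      have : cen n z - hw n < x := lt_of_le_of_ne hx.1 (Ne.symm hne)
      constructor <;> linarith
    refine ⟨?_, Or.inr ⟨hxe, rfl⟩⟩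
    have e : (((x + (x - 1) : ℤ)) : ℤ_[3]) + 2 * z =
        2 * ((cen n z : ℤ_[3]) + z) - (((3 : ℤ) ^ n : ℤ) : ℤ_[3]) := by
      rw [← hs, hxe]; push_cast; ring
    rw [e]
    exact P_sub h2 h3

/-- Edges inside the block are not walls. -/
lemma not_wall_of_inside {n : ℕ} {z : ℤ_[3]} {x : ℤ} (hx : x ∈ blk n z) (hy : x + 1 ∈ blk n z) :
    ¬ P n (((x + (x + 1) : ℤ) : ℤ_[3]) + 2 * z) := by
  intro hP
  rw [mem_blk] at hx hy
  have hs := hw_spec n
  have h2 : P n (2 * ((cen n z : ℤ_[3]) + z)) := P_two.2 (cen_P n z)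
  have h3 : P n (((3 : ℤ) ^ n : ℤ) : ℤ_[3]) := (P_int n _).2 dvd_rfl
  have h4 := P_sub (P_sub hP h2) h3
  have e : (((x + (x + 1) : ℤ)) : ℤ_[3]) + 2 * z - 2 * ((cen n z : ℤ_[3]) + z) -
      (((3 : ℤ) ^ n : ℤ) : ℤ_[3]) = 2 * ((x - cen n z - hw n : ℤ) : ℤ_[3]) := by
    rw [← hs]; push_cast; ring
  rw [e, P_two, P_int] at h4
  have := eq_of_dvd_of_small h4 (by rw [abs_lt]; constructor <;> linarith)
  linarith

/-- Good (generic) 3-adic parameters. -/
def Gen (z : ℤ_[3]) : Prop := ∀ k : ℤ, (k : ℤ_[3]) + 2 * z ≠ 0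

/-- For generic parameters every integer is eventually in the block. -/
lemma eventually_mem_blk {z : ℤ_[3]} (hz : Gen z) (x : ℤ) : ∀ᶠ n in Filter.atTop, x ∈ blk n z := by
  suffices h : ∃ n, x ∈ blk n z by
    obtain ⟨n, hn⟩ := h
    filter_upwards [Filter.eventually_ge_atTop n] with m hm
    exact blk_mono hm z hn
  by_contra hcon
  push Not at hcon
  choose nv hnv using fun k : ℤ => exists_not_P (hz k)
  rcases le_or_gt 0 x with hx | hx
  · -- the right end stays below `x`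
    have hr : ∀ n, cen n z + hw n < x := by
      intro n
      have h0 := zero_mem_blk n z
      have h1 := hcon n
      rw [mem_blk] at h0 h1
      by_contra h
      exact h1 ⟨by linarith, by linarith⟩
    set m := (Finset.Icc (0 : ℤ) x).sup (fun v => nv (2 * v + 1)) with hm
    have hw' := cen_P m z
    set v := cen m z + hw m with hv
    have hv0 : 0 ≤ v := (mem_blk.1 (zero_mem_blk m z)).2
    have hvx : v < x := hr m
    have h2 : P m (((2 * v + 1 : ℤ) : ℤ_[3]) + 2 * z) := by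
      have h3 : P m (((3 : ℤ) ^ m : ℤ) : ℤ_[3]) := (P_int m _).2 dvd_rfl
      have e : ((2 * v + 1 : ℤ) : ℤ_[3]) + 2 * z =
          2 * ((cen m z : ℤ_[3]) + z) + (((3 : ℤ) ^ m : ℤ) : ℤ_[3]) := by
        rw [← hw_spec m, hv]; push_cast; ring
      rw [e]
      exact P_add (P_two.2 hw') h3
    refine hnv (2 * v + 1) (P_anti ?_ h2)
    exact Finset.le_sup (f := fun v => nv (2 * v + 1)) (Finset.mem_Icc.2 ⟨hv0, hvx.le⟩)
  · have hr : ∀ n, x < cen n z - hw n := by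
      intro n
      have h0 := zero_mem_blk n z
      have h1 := hcon n
      rw [mem_blk] at h0 h1
      by_contra h
      exact h1 ⟨by linarith, by linarith⟩
    set m := (Finset.Icc x (0 : ℤ)).sup (fun v => nv (2 * v - 1)) with hm
    have hw' := cen_P m z
    set v := cen m z - hw m with hv
    have hv0 : v ≤ 0 := (mem_blk.1 (zero_mem_blk m z)).1
    have hvx : x < v := hr m
    have h2 : P m (((2 * v - 1 : ℤ) : ℤ_[3]) + 2 * z) := by
      have h3 : P m (((3 : ℤ) ^ m : ℤ) : ℤ_[3]) := (P_int m _).2 dvd_rfl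
      have e : ((2 * v - 1 : ℤ) : ℤ_[3]) + 2 * z =
          2 * ((cen m z : ℤ_[3]) + z) - (((3 : ℤ) ^ m : ℤ) : ℤ_[3]) := by
        rw [← hw_spec m, hv]; push_cast; ring
      rw [e]
      exact P_sub (P_two.2 hw') h3
    refine hnv (2 * v - 1) (P_anti ?_ h2)
    exact Finset.le_sup (f := fun v => nv (2 * v - 1)) (Finset.mem_Icc.2 ⟨hvx.le, hv0⟩)

/-- For generic parameters the centres eventually avoid every integer. -/
lemma eventually_cen_ne {z : ℤ_[3]} (hz : Gen z) (x : ℤ) : ∀ᶠ n in Filter.atTop, cen n z ≠ x := by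
  have hx : 2 * ((x : ℤ_[3]) + z) ≠ 0 := by
    have := hz (2 * x)
    have e : ((2 * x : ℤ) : ℤ_[3]) + 2 * z = 2 * ((x : ℤ_[3]) + z) := by push_cast; ring
    rwa [e] at this
  obtain ⟨m, hm⟩ := exists_not_P hx
  filter_upwards [Filter.eventually_ge_atTop m] with n hn hcen
  apply hm
  rw [P_two]
  have := P_anti hn (cen_P n z)
  rwa [hcen] at this

end Pool.Agent.T2h69.Perc
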