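import Mathlib
import Pool.Agent.T2h69.PercAut
import Pool.Agent.T2h69.PercPadic

/-!
# The random environment: edge probabilities from a 3-adic shift
-/

namespace Pool.Agent.T2h69.Perc

variable {d : ℕ}

/-- The norm attached to the `j`-th coordinate of the edge `{x, y}`. -/
noncomputable def tt (s : Fin d → ℤ_[3]) (x y : Fin d → ℤ) (j : Fin d) : ℝ :=
  ‖((x j + y j : ℤ) : ℤ_[3]) + 2 * s j‖

/-- Skeleton edges: the level of the line dominates the level of the wall. -/
def good (s : Fin d → ℤ_[3]) (x y : Fin d → ℤ) : Prop :=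
  ∀ j k, x j = y j → x k ≠ y k → tt s x y j ≤ tt s x y k

open Classical in
/-- The probability that the edge `{x, y}` is open. -/
noncomputable def F (s : Fin d → ℤ_[3]) (x y : Fin d → ℤ) : ℝ :=
  if good s x y then 1 - (1 / (2 * d)) * ∑ j, (if x j = y j then tt s x y j ^ (2 * d) else 0)
  else (1 / (2 * d)) * ∑ j, (if x j ≠ y j then tt s x y j ^ (2 * d) else 0)

lemma tt_comm (s : Fin d → ℤ_[3]) (x y : Fin d → ℤ) : tt s x y = tt s y x := by
  funext j
  unfold tt
  rw [add_comm (x j)]

lemma good_comm (s : Fin d → ℤ_[3]) (x y : Fin d → ℤ) : good s x y ↔ good s y x := by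
  unfold good
  rw [tt_comm s y x]
  simp only [eq_comm, ne_eq]

lemma F_comm (s : Fin d → ℤ_[3]) (x y : Fin d → ℤ) : F s x y = F s y x := by
  classical
  unfold F
  rw [tt_comm s y x]
  have h1 : ∀ j, (if x j = y j then tt s x y j ^ (2 * d) else (0 : ℝ)) =
      (if y j = x j then tt s x y j ^ (2 * d) else 0) := fun j => by
    by_cases h : x j = y j
    · rw [if_pos h, if_pos h.symm]
    · rw [if_neg h, if_neg (Ne.symm h)]
  have h2 : ∀ j, (if x j ≠ y j then tt s x y j ^ (2 * d) else (0 : ℝ)) =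
      (if y j ≠ x j then tt s x y j ^ (2 * d) else 0) := fun j => by
    by_cases h : x j = y j
    · rw [if_neg (not_not.2 h), if_neg (not_not.2 h.symm)]
    · rw [if_pos h, if_pos (Ne.symm h)]
  by_cases hg : good s x y
  · rw [if_pos hg, if_pos ((good_comm s x y).1 hg)]
    simp only [h1]
  · rw [if_neg hg, if_neg (fun h => hg ((good_comm s x y).2 h))]
    simp only [h2]

lemma tt_le_one (s : Fin d → ℤ_[3]) (x y : Fin d → ℤ) (j : Fin d) : tt s x y j ≤ 1 :=
  PadicInt.norm_le_one _

lemma tt_nonneg (s : Fin d → ℤ_[3]) (x y : Fin d → ℤ) (j : Fin d) : 0 ≤ tt s x y j :=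
  norm_nonneg _

lemma tt_pos {s : Fin d → ℤ_[3]} (hs : ∀ i, Gen (s i)) (x y : Fin d → ℤ) (j : Fin d) :
    0 < tt s x y j := norm_pos_iff.2 (hs j _)

/-- The edge probabilities as a function on unordered pairs. -/
noncomputable def Fe (s : Fin d → ℤ_[3]) : Sym2 (Fin d → ℤ) → ℝ :=
  Sym2.lift ⟨F s, F_comm s⟩

lemma Fe_mk (s : Fin d → ℤ_[3]) (x y : Fin d → ℤ) : Fe s s(x, y) = F s x y := rfl

lemma adj_form {x y : Fin d → ℤ} (h : (lattice d).Adj x y) :
    ∃ a : Fin d, (x a = y a + 1 ∨ x a = y a - 1) ∧ ∀ j, j ≠ a → x j = y j := by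
  obtain ⟨a, c, hc, hac⟩ := unit_form (adj_iff x y |>.1 h)
  refine ⟨a, ?_, ?_⟩
  · have := congrFun hac a
    simp only [Pi.sub_apply, Pi.single_eq_same] at this
    rcases hc with rfl | rfl
    · left; linarith
    · right; linarith
  · intro j hj
    have := congrFun hac j
    rw [Pi.sub_apply, Pi.single_eq_of_ne hj] at this
    linarith

lemma sum_le (hd : 2 ≤ d) (f : Fin d → ℝ) (c : ℝ) (hf : ∀ j, f j ≤ c) :
    (1 / (2 * d : ℝ)) * ∑ j, f j ≤ c / 2 := by
  have hd' : (0 : ℝ) < d := by
    have : 0 < d := by omega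
    exact_mod_cast this
  have h1 : ∑ j, f j ≤ d * c := by
    calc ∑ j, f j ≤ ∑ _j : Fin d, c := Finset.sum_le_sum fun j _ => hf j
      _ = d * c := by simp
  calc (1 / (2 * d : ℝ)) * ∑ j, f j ≤ (1 / (2 * d : ℝ)) * (d * c) := by gcongr
    _ = c / 2 := by field_simp

lemma F_mem (hd : 2 ≤ d) {s : Fin d → ℤ_[3]} (hs : ∀ i, Gen (s i)) {x y : Fin d → ℤ}
    (h : (lattice d).Adj x y) : 0 < F s x y ∧ F s x y < 1 := by
  classical
  obtain ⟨a, ha, haj⟩ := adj_form h
  have hane : x a ≠ y a := by rcases ha with h | h <;> omega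
  have hd' : (0 : ℝ) < 2 * d := by
    have : 0 < d := by omega
    have : (0 : ℝ) < d := by exact_mod_cast this
    linarith
  obtain ⟨b, hb⟩ : ∃ b : Fin d, b ≠ a := by
    have : Nontrivial (Fin d) := Fin.nontrivial_iff_two_le.2 hd
    exact exists_ne a
  have hA : (1 / (2 * d : ℝ)) * ∑ j, (if x j = y j then tt s x y j ^ (2 * d) else 0) ≤ 1 / 2 :=
    sum_le hd _ 1 fun j => by
      split_ifs
      · exact pow_le_one₀ (tt_nonneg _ _ _ _) (tt_le_one _ _ _ _)
      · norm_num
  have hB : (1 / (2 * d : ℝ)) * ∑ j, (if x j ≠ y j then tt s x y j ^ (2 * d) else 0) ≤ 1 / 2 :=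
    sum_le hd _ 1 fun j => by
      split_ifs
      · exact pow_le_one₀ (tt_nonneg _ _ _ _) (tt_le_one _ _ _ _)
      · norm_num
  have hA' : 0 < (1 / (2 * d : ℝ)) * ∑ j, (if x j = y j then tt s x y j ^ (2 * d) else 0) := by
    refine mul_pos (by positivity) ?_
    refine Finset.sum_pos' (fun j _ => ?_) ⟨b, Finset.mem_univ _, ?_⟩
    · split_ifs
      · exact pow_nonneg (tt_nonneg _ _ _ _) _
      · exact le_rfl
    · rw [if_pos (haj b hb)]
      exact pow_pos (tt_pos hs _ _ _) _
  have hB' : 0 < (1 / (2 * d : ℝ)) * ∑ j, (if x j ≠ y j then tt s x y j ^ (2 * d) else 0) := by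
    refine mul_pos (by positivity) ?_
    refine Finset.sum_pos' (fun j _ => ?_) ⟨a, Finset.mem_univ _, ?_⟩
    · split_ifs
      · exact pow_nonneg (tt_nonneg _ _ _ _) _
      · exact le_rfl
    · rw [if_pos hane]
      exact pow_pos (tt_pos hs _ _ _) _
  unfold F
  split_ifs
  · constructor <;> linarith
  · constructor <;> linarith

/-- The basic small quantity at level `n`. -/
noncomputable def rr (d n : ℕ) : ℝ := ((3 : ℝ) ^ (-n : ℤ)) ^ (2 * d)

lemma rr_nonneg (d n : ℕ) : 0 ≤ rr d n := by unfold rr; positivity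

/-- Skeleton edges inside a block of the next level are very likely open. -/
lemma one_sub_F_le (hd : 2 ≤ d) {s : Fin d → ℤ_[3]} {x y : Fin d → ℤ} {a : Fin d} {n : ℕ}
    (haj : ∀ j, j ≠ a → x j = y j ∧ P n ((x j : ℤ_[3]) + s j)) (hane : x a ≠ y a)
    (hwall : ¬ P (n + 1) (((x a + y a : ℤ) : ℤ_[3]) + 2 * s a)) :
    1 - F s x y ≤ rr d n / 2 := by
  classical
  have hP : ∀ j, j ≠ a → P n (((x j + y j : ℤ) : ℤ_[3]) + 2 * s j) := by
    intro j hj
    obtain ⟨h1, h2⟩ := haj j hj
    have e : ((x j + y j : ℤ) : ℤ_[3]) + 2 * s j = 2 * ((x j : ℤ_[3]) + s j) := by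
      rw [← h1]; push_cast; ring
    rw [e]
    exact P_two.2 h2
  have hgood : good s x y := by
    intro j k hj hk
    have hka : k = a := by
      by_contra h
      exact hk (haj k h).1
    have hja : j ≠ a := by
      intro h
      rw [h] at hj
      exact hane hj
    rw [hka]
    exact le_of_P (hP j hja) hwall
  unfold F
  rw [if_pos hgood]
  have := sum_le hd (fun j => (if x j = y j then tt s x y j ^ (2 * d) else 0)) (rr d n) (fun j => by
    split_ifs with hj
    · have hja : j ≠ a := by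
        intro h
        rw [h] at hj
        exact hane hj
      exact pow_le_pow_left₀ (tt_nonneg _ _ _ _) (hP j hja) _
    · exact rr_nonneg d n)
  linarith

/-- Wall edges which are not on the skeleton are very unlikely open. -/
lemma F_le_of_wall (hd : 2 ≤ d) {s : Fin d → ℤ_[3]} {x y : Fin d → ℤ} {a : Fin d} {n : ℕ}
    (haj : ∀ j, j ≠ a → x j = y j) (hwall : P n (((x a + y a : ℤ) : ℤ_[3]) + 2 * s a))
    (hng : ¬ good s x y) : F s x y ≤ rr d n / 2 := by
  classical
  unfold F
  rw [if_neg hng]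
  exact sum_le hd (fun j => (if x j ≠ y j then tt s x y j ^ (2 * d) else 0)) (rr d n) (fun j => by
    split_ifs with hj
    · have hja : j = a := by
        by_contra h
        exact hj (haj j h)
      rw [hja]
      exact pow_le_pow_left₀ (tt_nonneg _ _ _ _) hwall _
    · exact rr_nonneg d n)

/-- The box of level `n` containing the origin. -/
noncomputable def box (n : ℕ) (s : Fin d → ℤ_[3]) : Finset (Fin d → ℤ) :=
  Fintype.piFinset fun i => blk n (s i)

lemma mem_box {n : ℕ} {s : Fin d → ℤ_[3]} {x : Fin d → ℤ} :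
    x ∈ box n s ↔ ∀ i, x i ∈ blk n (s i) := Fintype.mem_piFinset

lemma card_box (n : ℕ) (s : Fin d → ℤ_[3]) : (box n s).card = (3 ^ n) ^ d := by
  unfold box
  rw [Fintype.card_piFinset]
  simp [card_blk]

lemma eventually_mem_box {s : Fin d → ℤ_[3]} (hs : ∀ i, Gen (s i)) (x : Fin d → ℤ) :
    ∀ᶠ n in Filter.atTop, x ∈ box n s := by
  simp only [mem_box]
  exact Filter.eventually_all.2 fun i => eventually_mem_blk (hs i) (x i)

/-- The neighbour of `x` in direction `i`. -/
def nb (x : Fin d → ℤ) (p : Fin d × Bool) : Fin d → ℤ :=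
  x + Pi.single p.1 (if p.2 then 1 else -1)

lemma nb_adj (x : Fin d → ℤ) (p : Fin d × Bool) : (lattice d).Adj x (nb x p) := by
  rw [SimpleGraph.adj_comm, adj_iff]
  have : nb x p - x = Pi.single p.1 (if p.2 then 1 else -1) := by unfold nb; abel
  rw [this, N_single]
  split_ifs <;> norm_num

lemma exists_nb {x y : Fin d → ℤ} (h : (lattice d).Adj x y) : ∃ p, y = nb x p := by
  obtain ⟨a, c, hc, hac⟩ := unit_form (adj_iff y x |>.1 h.symm)
  rcases hc with rfl | rfl
  · exact ⟨(a, true), by unfold nb; simp only [if_true]; rw [← hac]; abel⟩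
  · exact ⟨(a, false), by unfold nb; simp only [Bool.false_eq_true, if_false]; rw [← hac]; abel⟩

lemma nb_same (x : Fin d → ℤ) (p : Fin d × Bool) : nb x p p.1 = x p.1 + (if p.2 then 1 else -1) := by
  simp [nb]

lemma nb_ne (x : Fin d → ℤ) (p : Fin d × Bool) {j : Fin d} (hj : j ≠ p.1) : nb x p j = x j := by
  simp [nb, hj]

/-- The edge from `x` in direction `p`. -/
def mkE (x : Fin d → ℤ) (p : Fin d × Bool) : Edge d :=
  ⟨s(x, nb x p), (SimpleGraph.mem_edgeSet _).2 (nb_adj x p)⟩

open Classical in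
/-- The boundary edges of the box of level `n`. -/
noncomputable def bd (n : ℕ) (s : Fin d → ℤ_[3]) : Finset (Edge d) :=
  (((box n s) ×ˢ (Finset.univ : Finset (Fin d × Bool))).filter
    (fun q => nb q.1 q.2 ∉ box n s)).image (fun q => mkE q.1 q.2)

lemma card_bd (n : ℕ) (s : Fin d → ℤ_[3]) : (bd n s).card ≤ (3 ^ n) ^ d * (d * 2) := by
  classical
  unfold bd
  refine Finset.card_image_le.trans ((Finset.card_filter_le _ _).trans ?_)
  rw [Finset.card_product, card_box]
  simp

/-- Any lattice edge leaving the box belongs to `bd`. -/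
lemma mem_bd {n : ℕ} {s : Fin d → ℤ_[3]} {x y : Fin d → ℤ} (h : (lattice d).Adj x y)
    (hx : x ∈ box n s) (hy : y ∉ box n s) :
    (⟨s(x, y), (SimpleGraph.mem_edgeSet _).2 h⟩ : Edge d) ∈ bd n s := by
  classical
  obtain ⟨p, rfl⟩ := exists_nb h
  exact Finset.mem_image.2 ⟨(x, p), Finset.mem_filter.2
    ⟨Finset.mem_product.2 ⟨hx, Finset.mem_univ _⟩, hy⟩, rfl⟩

lemma bd_form {n : ℕ} {s : Fin d → ℤ_[3]} {e : Edge d} (he : e ∈ bd n s) :
    ∃ x p, x ∈ box n s ∧ nb x p ∉ box n s ∧ e = mkE x p := by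
  classical
  obtain ⟨q, hq, rfl⟩ := Finset.mem_image.1 he
  obtain ⟨h1, h2⟩ := Finset.mem_filter.1 hq
  exact ⟨q.1, q.2, (Finset.mem_product.1 h1).1, h2, rfl⟩

lemma exit_form {n : ℕ} {s : Fin d → ℤ_[3]} {x : Fin d → ℤ} {p : Fin d × Bool}
    (hx : x ∈ box n s) (hy : nb x p ∉ box n s) :
    P n (((x p.1 + nb x p p.1 : ℤ) : ℤ_[3]) + 2 * s p.1) ∧
      x p.1 = cen n (s p.1) + (if p.2 then hw n else - hw n) := by
  have h1 : nb x p p.1 ∉ blk n (s p.1) := by
    intro h
    apply hy
    rw [mem_box]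
    intro j
    by_cases hj : j = p.1
    · rw [hj]; exact h
    · rw [nb_ne x p hj]
      exact mem_box.1 hx j
  have h2 := nb_same x p
  obtain ⟨i, b⟩ := p
  cases b with
  | true =>
    simp only [if_true] at h2
    obtain ⟨h3, h4⟩ := wall_of_exit (mem_box.1 hx i) h1 (Or.inl h2)
    refine ⟨h3, ?_⟩
    rcases h4 with ⟨h5, -⟩ | ⟨-, h6⟩
    · simpa using h5
    · exfalso
      have h2' : nb x (i, true) i = x i + 1 := h2
      have h6' : nb x (i, true) i = x i - 1 := h6
      omega
  | false =>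
    simp only [Bool.false_eq_true, if_false] at h2
    obtain ⟨h3, h4⟩ := wall_of_exit (mem_box.1 hx i) h1 (Or.inr h2)
    refine ⟨h3, ?_⟩
    rcases h4 with ⟨-, h6⟩ | ⟨h5, -⟩
    · exfalso
      have h2' : nb x (i, false) i = x i + -1 := h2
      have h6' : nb x (i, false) i = x i + 1 := h6
      omega
    · simp only [Bool.false_eq_true, if_false]
      rw [← sub_eq_add_neg]
      exact h5

open Classical in
/-- The boundary edges lying on the skeleton. -/
noncomputable def gd (n : ℕ) (s : Fin d → ℤ_[3]) : Finset (Edge d) :=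
  (bd n s).filter fun e => ∃ x y, e.1 = s(x, y) ∧ good s x y

open Classical in
/-- The other boundary edges. -/
noncomputable def ng (n : ℕ) (s : Fin d → ℤ_[3]) : Finset (Edge d) :=
  (bd n s).filter fun e => ¬ ∃ x y, e.1 = s(x, y) ∧ good s x y

lemma card_gd (n : ℕ) (s : Fin d → ℤ_[3]) : (gd n s).card ≤ d * 2 := by
  classical
  have hsub : gd n s ⊆ (Finset.univ : Finset (Fin d × Bool)).image (fun p =>
      mkE (fun j => if j = p.1 then cen n (s p.1) + (if p.2 then hw n else - hw n)
        else cen n (s j)) p) := by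
    intro e he
    obtain ⟨he1, u, v, hu, hg⟩ := Finset.mem_filter.1 he
    obtain ⟨x, p, hx, hy, rfl⟩ := bd_form he1
    obtain ⟨h1, h2⟩ := exit_form hx hy
    have hg' : good s x (nb x p) := by
      have : s(x, nb x p) = s(u, v) := hu
      rw [Sym2.eq_iff] at this
      rcases this with ⟨h3, h4⟩ | ⟨h3, h4⟩
      · rw [h4, h3]; exact hg
      · rw [h4, h3]; exact (good_comm s u v).1 hg
    refine Finset.mem_image.2 ⟨p, Finset.mem_univ _, ?_⟩
    have hxe : x = (fun j => if j = p.1 then cen n (s p.1) + (if p.2 then hw n else - hw n)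
        else cen n (s j)) := by
      funext j
      by_cases hj : j = p.1
      · rw [if_pos hj, hj]; exact h2
      · rw [if_neg hj]
        refine eq_cen (mem_box.1 hx j) ?_
        have h5 : tt s x (nb x p) j ≤ tt s x (nb x p) p.1 := by
          refine hg' j p.1 (nb_ne x p hj).symm ?_
          rw [nb_same]
          split_ifs <;> omega
        have h6 : P n (((x j + nb x p j : ℤ) : ℤ_[3]) + 2 * s j) := le_trans h5 h1
        rw [nb_ne x p hj] at h6
        have e : (((x j + x j : ℤ)) : ℤ_[3]) + 2 * s j = 2 * ((x j : ℤ_[3]) + s j) := by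
          push_cast; ring
        rw [e, P_two] at h6
        exact h6
    rw [← hxe]
  refine (Finset.card_le_card hsub).trans (Finset.card_image_le.trans ?_)
  simp

lemma ng_le (hd : 2 ≤ d) {n : ℕ} {s : Fin d → ℤ_[3]} {e : Edge d} (he : e ∈ ng n s) :
    Fe s e.1 ≤ rr d n / 2 := by
  classical
  obtain ⟨he1, hng⟩ := Finset.mem_filter.1 he
  obtain ⟨x, p, hx, hy, rfl⟩ := bd_form he1
  obtain ⟨h1, -⟩ := exit_form hx hy
  change F s x (nb x p) ≤ rr d n / 2
  exact F_le_of_wall hd (a := p.1) (fun j hj => (nb_ne x p hj).symm) h1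
    (fun hg => hng ⟨x, nb x p, rfl, hg⟩)

open Classical in
/-- The skeleton edges of level `n` inside the box of level `n + 1`. -/
noncomputable def sk (n : ℕ) (s : Fin d → ℤ_[3]) : Finset (Edge d) :=
  (((box (n + 1) s) ×ˢ (Finset.univ : Finset (Fin d))).filter
    (fun q => nb q.1 (q.2, true) ∈ box (n + 1) s ∧
      ∀ j, j ≠ q.2 → P n ((q.1 j : ℤ_[3]) + s j))).image (fun q => mkE q.1 (q.2, true))

lemma card_sk (n : ℕ) (s : Fin d → ℤ_[3]) : (sk n s).card ≤ (3 ^ (n + 1)) ^ d * d := by
  classical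
  unfold sk
  refine Finset.card_image_le.trans ((Finset.card_filter_le _ _).trans ?_)
  rw [Finset.card_product, card_box]
  simp

lemma sk_le (hd : 2 ≤ d) {n : ℕ} {s : Fin d → ℤ_[3]} {e : Edge d} (he : e ∈ sk n s) :
    1 - Fe s e.1 ≤ rr d n / 2 := by
  classical
  obtain ⟨q, hq, rfl⟩ := Finset.mem_image.1 he
  obtain ⟨h1, h2, h3⟩ := Finset.mem_filter.1 hq
  have hx := (Finset.mem_product.1 h1).1
  change 1 - F s q.1 (nb q.1 (q.2, true)) ≤ rr d n / 2
  have h5 : nb q.1 (q.2, true) q.2 = q.1 q.2 + 1 := by simp [nb]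
  refine one_sub_F_le hd (a := q.2) (fun j hj => ⟨(nb_ne _ (q.2, true) hj).symm, h3 j hj⟩) ?_ ?_
  · rw [h5]; omega
  · rw [h5]
    refine not_wall_of_inside (mem_box.1 hx q.2) ?_
    have := mem_box.1 h2 q.2
    rwa [h5] at this

/-- The centre of the box of level `n`. -/
noncomputable def cc (n : ℕ) (s : Fin d → ℤ_[3]) : Fin d → ℤ := fun i => cen n (s i)

/-- If all skeleton edges of level `n` in the box of level `n + 1` are in the relation, then the
two centres are related. -/
lemma centres_related (n : ℕ) (s : Fin d → ℤ_[3]) (r : (Fin d → ℤ) → (Fin d → ℤ) → Prop)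
    (hr : Equivalence r) (hsk : ∀ x y, ∀ h : s(x, y) ∈ (lattice d).edgeSet,
      (⟨s(x, y), h⟩ : Edge d) ∈ sk n s → r x y) : r (cc n s) (cc (n + 1) s) := by
  classical
  -- moving along a line
  have line : ∀ (x : Fin d → ℤ) (i : Fin d), (∀ j, j ≠ i → x j ∈ blk (n + 1) (s j)) →
      (∀ j, j ≠ i → P n ((x j : ℤ_[3]) + s j)) → ∀ a ∈ blk (n + 1) (s i), ∀ b, a ≤ b →
      b ∈ blk (n + 1) (s i) → r (Function.update x i a) (Function.update x i b) := by
    intro x i hx hP a ha b hab
    induction b, hab using Int.leInduction with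
    | base => intro _; exact hr.refl _
    | succ b hab ih =>
      intro hb
      have hb' : b ∈ blk (n + 1) (s i) := by
        rw [mem_blk] at ha hb ⊢
        constructor <;> linarith
      refine hr.trans (ih hb') ?_
      have hnb : nb (Function.update x i b) (i, true) = Function.update x i (b + 1) := by
        funext j
        by_cases hj : j = i
        · subst hj; simp [nb]
        · simp [nb, hj]
      have hadj := nb_adj (Function.update x i b) (i, true)
      rw [hnb] at hadj
      refine hsk _ _ ((SimpleGraph.mem_edgeSet _).2 hadj) ?_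
      refine Finset.mem_image.2 ⟨(Function.update x i b, i), Finset.mem_filter.2
        ⟨Finset.mem_product.2 ⟨?_, Finset.mem_univ _⟩, ?_, ?_⟩, ?_⟩
      · rw [mem_box]
        intro j
        by_cases hj : j = i
        · subst hj; simpa using hb'
        · simpa [hj] using hx j hj
      · simp only
        rw [hnb, mem_box]
        intro j
        by_cases hj : j = i
        · subst hj; simpa using hb
        · simpa [hj] using hx j hj
      · intro j hj
        have hj' : j ≠ i := hj
        simpa [hj'] using hP j hj'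
      · apply Subtype.ext
        simp only [mkE]
        rw [hnb]
  have line' : ∀ (x : Fin d → ℤ) (i : Fin d), (∀ j, x j ∈ blk (n + 1) (s j)) →
      (∀ j, P n ((x j : ℤ_[3]) + s j)) → ∀ b ∈ blk (n + 1) (s i),
      r x (Function.update x i b) := by
    intro x i hx hP b hb
    rcases le_total (x i) b with h | h
    · have := line x i (fun j _ => hx j) (fun j _ => hP j) (x i) (hx i) b h hb
      rwa [Function.update_eq_self] at this
    · have := line x i (fun j _ => hx j) (fun j _ => hP j) b hb (x i) h (hx i)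
      rw [Function.update_eq_self] at this
      exact hr.symm this
  have key : ∀ A : Finset (Fin d), r (cc n s) (A.piecewise (cc (n + 1) s) (cc n s)) := by
    intro A
    induction A using Finset.induction_on with
    | empty => simpa using hr.refl _
    | insert i A hi ih =>
      rw [Finset.piecewise_insert]
      refine hr.trans ih (line' _ i ?_ ?_ _ (cen_mem_blk (n + 1) (s i)))
      · intro j
        by_cases hj : j ∈ A
        · rw [Finset.piecewise_eq_of_mem _ _ _ hj]
          exact cen_mem_blk (n + 1) (s j)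
        · rw [Finset.piecewise_eq_of_notMem _ _ _ hj]
          exact blk_succ n (s j) (cen_mem_blk n (s j))
      · intro j
        by_cases hj : j ∈ A
        · rw [Finset.piecewise_eq_of_mem _ _ _ hj]
          exact P_anti (Nat.le_succ n) (cen_P (n + 1) (s j))
        · rw [Finset.piecewise_eq_of_notMem _ _ _ hj]
          exact cen_P n (s j)
  have := key Finset.univ
  rwa [Finset.piecewise_univ] at this

end Pool.Agent.T2h69.Perc
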