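import Mathlib
import Pool.Agent.T2h69.PercEnv

/-!
# Existence of the random 3-adic shift
-/

open MeasureTheory

namespace Pool.Agent.T2h69.Perc

/-- The Borel σ-algebra on the 3-adic integers. -/
@[reducible] noncomputable def mZ : MeasurableSpace ℤ_[3] := borel ℤ_[3]

attribute [local instance] mZ

theorem bZ : BorelSpace ℤ_[3] := ⟨rfl⟩

attribute [local instance] bZ

variable {d : ℕ}

/-- A singleton is null for a translation invariant finite measure on `ℤ_[3]`. -/
lemma singleton_null (h : Measure ℤ_[3]) [IsFiniteMeasure h] [h.IsAddLeftInvariant] (c : ℤ_[3]) :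
    h {c} = 0 := by
  by_contra hne
  have h1 : ∀ t : ℕ, h {(t : ℤ_[3]) + c} = h {c} := by
    intro t
    have : (fun x => (t : ℤ_[3]) + x) ⁻¹' {(t : ℤ_[3]) + c} = {c} := by
      ext x; simp
    rw [← measure_preimage_add h (t : ℤ_[3]) {(t : ℤ_[3]) + c}, this]
  have h2 : ∑' t : ℕ, h {(t : ℤ_[3]) + c} ≤ h Set.univ := by
    refine tsum_meas_le_meas_iUnion_of_disjoint h (fun t => measurableSet_singleton _) ?_ |>.trans
      (measure_mono (Set.subset_univ _))
    intro i j hij
    rw [Function.onFun, Set.disjoint_singleton]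
    intro h
    apply hij
    have := add_right_cancel h
    exact_mod_cast this
  simp only [h1] at h2
  rw [ENNReal.tsum_const_eq_top_of_ne_zero hne] at h2
  exact (measure_lt_top h Set.univ).not_ge h2

/-- The random shift. -/
theorem exists_env (d : ℕ) : ∃ m : Measure (Fin d → ℤ_[3]), IsProbabilityMeasure m ∧
    (∀ (τ : Equiv.Perm (Fin d)) (ε v : Fin d → ℤ), (∀ i, ε i = 1 ∨ ε i = -1) →
      MeasurePreserving (fun (s : Fin d → ℤ_[3]) i => (ε i : ℤ_[3]) * ((v i : ℤ_[3]) + s (τ i)))
        m m) ∧
    (∀ᵐ s ∂m, ∀ i, Gen (s i)) := by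
  classical
  set K : TopologicalSpace.PositiveCompacts ℤ_[3] := ⊤ with hK
  set h : Measure ℤ_[3] := Measure.addHaarMeasure K with hh
  have hprob : IsProbabilityMeasure h := by
    constructor
    have := Measure.addHaarMeasure_self (K₀ := K)
    rwa [hK, TopologicalSpace.PositiveCompacts.coe_top] at this
  set m : Measure (Fin d → ℤ_[3]) := Measure.pi (fun _ => h) with hm
  refine ⟨m, inferInstance, ?_, ?_⟩
  · intro τ ε v hε
    have hunit : ∀ i, (ε i : ℤ_[3]) * (ε i : ℤ_[3]) = 1 := by
      intro i
      rcases hε i with h | h <;> rw [h] <;> simp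
    let f : (Fin d → ℤ_[3]) →+ (Fin d → ℤ_[3]) :=
      { toFun := fun s i => (ε i : ℤ_[3]) * s (τ i)
        map_zero' := by funext i; simp
        map_add' := fun s t => by funext i; simp [mul_add] }
    have hf : MeasurePreserving f m m := by
      refine AddMonoidHom.measurePreserving (f := f) ?_ ?_ rfl
      · exact continuous_pi fun i => continuous_const.mul (continuous_apply _)
      · intro t
        refine ⟨fun j => (ε (τ.symm j) : ℤ_[3]) * t (τ.symm j), ?_⟩
        funext i
        change (ε i : ℤ_[3]) * ((ε (τ.symm (τ i)) : ℤ_[3]) * t (τ.symm (τ i))) = t i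
        rw [Equiv.symm_apply_apply, ← mul_assoc, hunit, one_mul]
    have hadd : MeasurePreserving (fun s : Fin d → ℤ_[3] =>
        (fun i => (ε i : ℤ_[3]) * (v i : ℤ_[3])) + s) m m := measurePreserving_add_left m _
    have := hadd.comp hf
    convert this using 1
    funext s i
    change _ = (ε i : ℤ_[3]) * (v i : ℤ_[3]) + (ε i : ℤ_[3]) * s (τ i)
    ring
  · rw [ae_all_iff]
    intro i
    unfold Gen
    rw [ae_all_iff]
    intro k
    have h0 : h {z : ℤ_[3] | (k : ℤ_[3]) + 2 * z = 0} = 0 := by
      by_cases hne : ∃ c : ℤ_[3], (k : ℤ_[3]) + 2 * c = 0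
      · obtain ⟨c, hc⟩ := hne
        refine measure_mono_null ?_ (singleton_null h c)
        intro z hz
        have hz' : (k : ℤ_[3]) + 2 * z = 0 := hz
        have : 2 * z = 2 * c := add_left_cancel (hz'.trans hc.symm)
        exact mul_left_cancel₀ two_ne_zero this
      · push Not at hne
        have : {z : ℤ_[3] | (k : ℤ_[3]) + 2 * z = 0} = ∅ := by
          ext z; simpa using hne z
        rw [this, measure_empty]
    have hev : MeasurePreserving (Function.eval i) m h := measurePreserving_eval _ i
    have h1 := hev.quasiMeasurePreserving.preimage_null h0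
    rw [ae_iff]
    convert h1 using 2
    ext s
    simp

end Pool.Agent.T2h69.Perc
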