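import Mathlib
import Pool.Agent.T2h69.PercHaar

/-!
# The percolation law: measurability and invariance
-/

open MeasureTheory ProbabilityTheory

namespace Pool.Agent.T2h69.Perc

attribute [local instance] mZ bZ

variable {d : ℕ}

/-- Independent uniform variables on the edges. -/
noncomputable def nu (d : ℕ) : Measure (Edge d → unitInterval) :=
  Measure.infinitePi fun _ => volume

instance : IsProbabilityMeasure (nu d) := by unfold nu; infer_instance

open Classical in
/-- The configuration with environment `s` and uniform variables `U`. -/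
noncomputable def X (s : Fin d → ℤ_[3]) (U : Edge d → unitInterval) : Config d :=
  fun e => decide ((U e : ℝ) < Fe s e.1)

lemma X_true {s : Fin d → ℤ_[3]} {U : Edge d → unitInterval} {e : Edge d} :
    X s U e = true ↔ (U e : ℝ) < Fe s e.1 := by simp [X]

lemma X_false {s : Fin d → ℤ_[3]} {U : Edge d → unitInterval} {e : Edge d} :
    X s U e = false ↔ ¬ (U e : ℝ) < Fe s e.1 := by simp [X]

/-- The configuration as a function of the pair. -/
noncomputable def XX (q : (Fin d → ℤ_[3]) × (Edge d → unitInterval)) : Config d := X q.1 q.2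

lemma vol_lt {p : ℝ} (h0 : 0 ≤ p) (h1 : p ≤ 1) :
    volume {u : unitInterval | (u : ℝ) < p} = ENNReal.ofReal p := by
  have : {u : unitInterval | (u : ℝ) < p} = Set.Iio (⟨p, h0, h1⟩ : unitInterval) := by
    ext u
    exact Iff.rfl
  rw [this, unitInterval.volume_Iio]

lemma vol_not_lt {p : ℝ} (h0 : 0 ≤ p) (h1 : p ≤ 1) :
    volume {u : unitInterval | ¬ (u : ℝ) < p} = ENNReal.ofReal (1 - p) := by
  have : {u : unitInterval | ¬ (u : ℝ) < p} = Set.Ici (⟨p, h0, h1⟩ : unitInterval) := by
    ext u
    simp only [Set.mem_ofPred_eq, not_lt, Set.mem_Ici]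
    exact Iff.rfl
  rw [this, unitInterval.volume_Ici]

lemma meas_tt (x y : Fin d → ℤ) (j : Fin d) : Measurable fun s : Fin d → ℤ_[3] => tt s x y j := by
  unfold tt
  exact (continuous_norm.comp (continuous_const.add
    (continuous_const.mul (continuous_apply j)))).measurable

lemma meas_good (x y : Fin d → ℤ) : MeasurableSet {s : Fin d → ℤ_[3] | good s x y} := by
  have : {s : Fin d → ℤ_[3] | good s x y} = ⋂ j, ⋂ k, {s | x j = y j → x k ≠ y k →
      tt s x y j ≤ tt s x y k} := by
    ext s; simp [good]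
  rw [this]
  refine MeasurableSet.iInter fun j => MeasurableSet.iInter fun k => ?_
  by_cases h1 : x j = y j
  · by_cases h2 : x k ≠ y k
    · have : {s : Fin d → ℤ_[3] | x j = y j → x k ≠ y k → tt s x y j ≤ tt s x y k} =
          {s | tt s x y j ≤ tt s x y k} := by
        ext s; simp [h1, h2]
      rw [this]
      exact measurableSet_le (meas_tt x y j) (meas_tt x y k)
    · have : {s : Fin d → ℤ_[3] | x j = y j → x k ≠ y k → tt s x y j ≤ tt s x y k} =
          Set.univ := by
        ext s; simp [h2]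
      rw [this]
      exact MeasurableSet.univ
  · have : {s : Fin d → ℤ_[3] | x j = y j → x k ≠ y k → tt s x y j ≤ tt s x y k} =
        Set.univ := by
      ext s; simp [h1]
    rw [this]
    exact MeasurableSet.univ

lemma meas_F (x y : Fin d → ℤ) : Measurable fun s : Fin d → ℤ_[3] => F s x y := by
  classical
  unfold F
  refine Measurable.ite (meas_good x y) ?_ ?_
  · refine measurable_const.sub (measurable_const.mul (Finset.measurable_sum _ fun j _ => ?_))
    split_ifs
    · exact (meas_tt x y j).pow_const _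
    · exact measurable_const
  · refine measurable_const.mul (Finset.measurable_sum _ fun j _ => ?_)
    split_ifs
    · exact (meas_tt x y j).pow_const _
    · exact measurable_const

lemma meas_Fe (e : Sym2 (Fin d → ℤ)) : Measurable fun s : Fin d → ℤ_[3] => Fe s e := by
  induction e using Sym2.inductionOn with
  | hf x y => exact meas_F x y

lemma meas_XX_set (e : Edge d) : MeasurableSet
    {q : (Fin d → ℤ_[3]) × (Edge d → unitInterval) | (q.2 e : ℝ) < Fe q.1 e.1} := by
  refine measurableSet_lt ?_ ((meas_Fe e.1).comp measurable_fst)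
  exact measurable_subtype_coe.comp ((measurable_pi_apply e).comp measurable_snd)

lemma meas_XX : Measurable (XX : (Fin d → ℤ_[3]) × (Edge d → unitInterval) → Config d) := by
  refine measurable_pi_lambda _ fun e => ?_
  refine measurable_to_bool ?_
  have : (fun q => (XX q : Config d) e) ⁻¹' {true} =
      {q : (Fin d → ℤ_[3]) × (Edge d → unitInterval) | (q.2 e : ℝ) < Fe q.1 e.1} := by
    ext q
    simp [XX, X]
  rw [this]
  exact meas_XX_set e

lemma meas_X (s : Fin d → ℤ_[3]) : Measurable (X s : (Edge d → unitInterval) → Config d) :=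
  meas_XX.comp measurable_prodMk_left

/-- The law of the percolation. -/
noncomputable def mu (m : Measure (Fin d → ℤ_[3])) : Measure (Config d) :=
  (m.prod (nu d)).map XX

instance (m : Measure (Fin d → ℤ_[3])) [IsProbabilityMeasure m] : IsProbabilityMeasure (mu m) :=
  Measure.isProbabilityMeasure_map meas_XX.aemeasurable

lemma Fe_equivariant (φ : lattice d ≃g lattice d) (τ : Equiv.Perm (Fin d)) (ε v : Fin d → ℤ)
    (hε : ∀ i, ε i = 1 ∨ ε i = -1) (hφ : ∀ x i, φ x (τ i) = ε i * x i + v i)
    (s : Fin d → ℤ_[3]) (x y : Fin d → ℤ) :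
    F s (φ x) (φ y) = F (fun i => (ε i : ℤ_[3]) * ((v i : ℤ_[3]) + s (τ i))) x y := by
  classical
  set s' : Fin d → ℤ_[3] := fun i => (ε i : ℤ_[3]) * ((v i : ℤ_[3]) + s (τ i)) with hs'
  have htt : ∀ i, tt s (φ x) (φ y) (τ i) = tt s' x y i := by
    intro i
    unfold tt
    rw [hφ, hφ]
    have h1 : (ε i : ℤ_[3]) * (ε i : ℤ_[3]) = 1 := by
      rcases hε i with h | h <;> rw [h] <;> simp
    have h2 : ‖(ε i : ℤ_[3])‖ = 1 := by
      rcases hε i with h | h <;> rw [h] <;> simp
    have e : ((ε i * x i + v i + (ε i * y i + v i) : ℤ) : ℤ_[3]) + 2 * s (τ i) =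
        (ε i : ℤ_[3]) * (((x i + y i : ℤ) : ℤ_[3]) + 2 * s' i) := by
      simp only [hs']
      push_cast
      linear_combination (-(2 * (v i : ℤ_[3]) + 2 * s (τ i))) * h1
    rw [e, norm_mul, h2, one_mul]
  have heq : ∀ i, φ x (τ i) = φ y (τ i) ↔ x i = y i := by
    intro i
    rw [hφ, hφ]
    rcases hε i with h | h <;> rw [h] <;> constructor <;> intro h' <;> linarith
  have hgood : good s (φ x) (φ y) ↔ good s' x y := by
    unfold good
    constructor
    · intro h j k hj hk
      rw [← htt, ← htt]
      exact h (τ j) (τ k) ((heq j).2 hj) (fun h' => hk ((heq k).1 h'))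
    · intro h j k hj hk
      have hj' : φ x (τ (τ.symm j)) = φ y (τ (τ.symm j)) := by
        rw [Equiv.apply_symm_apply]; exact hj
      have hk' : φ x (τ (τ.symm k)) ≠ φ y (τ (τ.symm k)) := by
        rw [Equiv.apply_symm_apply]; exact hk
      have := h (τ.symm j) (τ.symm k) ((heq _).1 hj') (fun h' => hk' ((heq _).2 h'))
      rw [← htt, ← htt, Equiv.apply_symm_apply, Equiv.apply_symm_apply] at this
      exact this
  have hsum1 : ∑ j, (if φ x j = φ y j then tt s (φ x) (φ y) j ^ (2 * d) else 0) =
      ∑ j, (if x j = y j then tt s' x y j ^ (2 * d) else 0) := by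
    rw [← Equiv.sum_comp τ]
    refine Finset.sum_congr rfl fun i _ => ?_
    rw [htt]
    simp only [heq]
  have hsum2 : ∑ j, (if φ x j ≠ φ y j then tt s (φ x) (φ y) j ^ (2 * d) else 0) =
      ∑ j, (if x j ≠ y j then tt s' x y j ^ (2 * d) else 0) := by
    rw [← Equiv.sum_comp τ]
    refine Finset.sum_congr rfl fun i _ => ?_
    rw [htt]
    simp only [heq, ne_eq]
  unfold F
  rw [hsum1, hsum2]
  simp only [hgood]

lemma Fe_equivariant' (φ : lattice d ≃g lattice d) (τ : Equiv.Perm (Fin d)) (ε v : Fin d → ℤ)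
    (hε : ∀ i, ε i = 1 ∨ ε i = -1) (hφ : ∀ x i, φ x (τ i) = ε i * x i + v i)
    (s : Fin d → ℤ_[3]) (e : Edge d) :
    Fe s (φ.mapEdgeSet e).1 = Fe (fun i => (ε i : ℤ_[3]) * ((v i : ℤ_[3]) + s (τ i))) e.1 := by
  obtain ⟨e, he⟩ := e
  induction e using Sym2.inductionOn with
  | hf x y => exact Fe_equivariant φ τ ε v hε hφ s x y

/-- The law is invariant under all automorphisms of the lattice. -/
theorem mu_invariant (m : Measure (Fin d → ℤ_[3])) [IsProbabilityMeasure m]
    (hm : ∀ (τ : Equiv.Perm (Fin d)) (ε v : Fin d → ℤ), (∀ i, ε i = 1 ∨ ε i = -1) →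
      MeasurePreserving (fun (s : Fin d → ℤ_[3]) i => (ε i : ℤ_[3]) * ((v i : ℤ_[3]) + s (τ i)))
        m m) : IsInvariant (mu m) := by
  intro φ
  obtain ⟨τ, ε, v, hε, hφ⟩ := aut_form φ
  have h1 := hm τ ε v hε
  have h2 : MeasurePreserving (fun (U : Edge d → unitInterval) e => U (φ.mapEdgeSet e))
      (nu d) (nu d) := by
    refine ⟨by fun_prop, ?_⟩
    exact Measure.map_infinitePi_infinitePi_of_inj (P := fun _ : Edge d => (volume : Measure unitInterval))
      φ.mapEdgeSet.injective
  have h3 := h1.prod h2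
  have hrel : Measurable (relabel φ) := by
    unfold relabel
    fun_prop
  have hcomp : relabel φ ∘ XX = XX ∘ (Prod.map
      (fun (s : Fin d → ℤ_[3]) i => (ε i : ℤ_[3]) * ((v i : ℤ_[3]) + s (τ i)))
      (fun (U : Edge d → unitInterval) e => U (φ.mapEdgeSet e))) := by
    funext q e
    simp only [Function.comp_apply, relabel, XX, X, Prod.map_fst, Prod.map_snd,
      Fe_equivariant' φ τ ε v hε hφ]
  unfold mu
  rw [Measure.map_map hrel meas_XX, hcomp, ← Measure.map_map meas_XX h3.measurable, h3.map_eq]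

end Pool.Agent.T2h69.Perc
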