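import Mathlib
import Pool.Agent.T2h69.PercProb1

/-!
# The percolation law has finite energy
-/

open MeasureTheory ProbabilityTheory

namespace Pool.Agent.T2h69.Perc

attribute [local instance] mZ bZ

variable {d : ℕ}

/-- The uniform variable of `e` is independent of the others. -/
lemma indep_off (e : Edge d) (t : Set unitInterval) (ht : MeasurableSet t)
    (A : Set ({f : Edge d // f ≠ e} → unitInterval)) (hA : MeasurableSet A) :
    nu d ({U | U e ∈ t} ∩ {U | (fun f : {f : Edge d // f ≠ e} => U f.1) ∈ A}) =
      volume t * nu d {U | (fun f : {f : Edge d // f ≠ e} => U f.1) ∈ A} := by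
  have hI : iIndepFun (fun (f : Edge d) (U : Edge d → unitInterval) => U f) (nu d) :=
    iIndepFun_infinitePi (X := fun _ x => x) (fun _ => measurable_id)
  have h1 := (iIndepFun_iff_iIndep _ _ _).1 hI
  have hdisj : Disjoint ({e} : Set (Edge d)) {f | f ≠ e} := by
    rw [Set.disjoint_left]
    rintro x hx hx'
    exact hx' hx
  have h2 := indep_iSup_of_disjoint (fun f => (measurable_pi_apply f).comap_le) h1 hdisj
  rw [Indep_iff] at h2
  have h3 : MeasurableSet[⨆ f ∈ ({e} : Set (Edge d)), MeasurableSpace.comap
      (fun U : Edge d → unitInterval => U f) inferInstance] {U | U e ∈ t} := by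
    have hle : MeasurableSpace.comap (fun U : Edge d → unitInterval => U e) inferInstance ≤
        ⨆ f ∈ ({e} : Set (Edge d)), MeasurableSpace.comap
          (fun U : Edge d → unitInterval => U f) inferInstance :=
      le_iSup₂ (f := fun (f : Edge d) (_ : f ∈ ({e} : Set (Edge d))) => MeasurableSpace.comap
          (fun U : Edge d → unitInterval => U f) inferInstance) e rfl
    exact hle _ ⟨t, ht, rfl⟩
  have h4 : MeasurableSet[⨆ f ∈ {f : Edge d | f ≠ e}, MeasurableSpace.comap
      (fun U : Edge d → unitInterval => U f) inferInstance]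
      {U | (fun f : {f : Edge d // f ≠ e} => U f.1) ∈ A} := by
    have hm : Measurable[⨆ f ∈ {f : Edge d | f ≠ e}, MeasurableSpace.comap
        (fun U : Edge d → unitInterval => U f) inferInstance]
        (fun (U : Edge d → unitInterval) (f : {f : Edge d // f ≠ e}) => U f.1) := by
      refine @measurable_pi_lambda _ _ _ (_) _ _ fun f => ?_
      have hle : MeasurableSpace.comap (fun U : Edge d → unitInterval => U f.1) inferInstance ≤
          ⨆ f ∈ {f : Edge d | f ≠ e}, MeasurableSpace.comap
            (fun U : Edge d → unitInterval => U f) inferInstance :=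
        le_iSup₂ (f := fun (f : Edge d) (_ : f ∈ {f : Edge d | f ≠ e}) => MeasurableSpace.comap
            (fun U : Edge d → unitInterval => U f) inferInstance) f.1 f.2
      exact Measurable.mono (comap_measurable _) hle le_rfl
    exact hm hA
  have h5 := h2 _ _ h3 h4
  rw [h5]
  congr 1
  have : {U : Edge d → unitInterval | U e ∈ t} = (fun U => U e) ⁻¹' t := rfl
  rw [this, ← Measure.map_apply (measurable_pi_apply e) ht, nu,
    Measure.infinitePi_map_eval]

lemma meas_state (e : Edge d) (b : Bool) : MeasurableSet {ω : Config d | ω e = b} :=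
  measurableSet_preimage (measurable_pi_apply (X := fun _ : Edge d => Bool) e)
    (measurableSet_singleton b)

/-- The key computation for finite energy. -/
lemma mu_inter (hd : 2 ≤ d) (m : Measure (Fin d → ℤ_[3])) [IsProbabilityMeasure m]
    (hgen : ∀ᵐ s ∂m, ∀ i, Gen (s i)) (e : Edge d) (B : Set (Config d))
    (hB : MeasurableSet[off e] B) (b : Bool) (hpos : mu m B ≠ 0) :
    mu m (B ∩ {ω | ω e = b}) ≠ 0 := by
  classical
  obtain ⟨B', hB', rfl⟩ := hB
  set B : Set (Config d) := (fun (ω : Config d) (f : {f : Edge d // f ≠ e}) => ω f.1) ⁻¹' B'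
    with hBdef
  have hBm : MeasurableSet B := by
    refine hB'.preimage ?_
    exact measurable_pi_lambda _ fun f => measurable_pi_apply _
  have hOm : MeasurableSet {ω : Config d | ω e = b} := meas_state e b
  have e1 : mu m (B ∩ {ω | ω e = b}) =
      ∫⁻ s, nu d {U | X s U ∈ B ∧ X s U e = b} ∂m := by
    rw [mu, Measure.map_apply meas_XX (hBm.inter hOm),
      Measure.prod_apply (meas_XX (hBm.inter hOm))]
    rfl
  have e2 : mu m B = ∫⁻ s, nu d {U | X s U ∈ B} ∂m := by
    rw [mu, Measure.map_apply meas_XX hBm, Measure.prod_apply (meas_XX hBm)]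
    rfl
  intro h0
  apply hpos
  rw [e2]
  rw [e1] at h0
  have hmeas : Measurable fun s => nu d {U | X s U ∈ B ∧ X s U e = b} :=
    measurable_measure_prodMk_left (meas_XX (hBm.inter hOm))
  rw [lintegral_eq_zero_iff hmeas] at h0
  have hmeas2 : Measurable fun s => nu d {U | X s U ∈ B} :=
    measurable_measure_prodMk_left (meas_XX hBm)
  rw [lintegral_eq_zero_iff hmeas2]
  filter_upwards [h0, hgen] with s hs hg
  simp only [Pi.zero_apply] at hs ⊢
  have hFe : 0 < Fe s e.1 ∧ Fe s e.1 < 1 := by
    obtain ⟨e, he⟩ := e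
    induction e using Sym2.inductionOn with
    | hf x y => exact F_mem hd hg ((SimpleGraph.mem_edgeSet _).1 he)
  set A : Set ({f : Edge d // f ≠ e} → unitInterval) :=
    {W | (fun f : {f : Edge d // f ≠ e} => decide ((W f : ℝ) < Fe s f.1.1)) ∈ B'} with hA
  have hAm : MeasurableSet A := by
    refine hB'.preimage ?_
    refine measurable_pi_lambda _ fun f => ?_
    refine measurable_to_bool ?_
    have : (fun W : {f : Edge d // f ≠ e} → unitInterval =>
        decide ((W f : ℝ) < Fe s f.1.1)) ⁻¹' {true} = {W | (W f : ℝ) < Fe s f.1.1} := by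
      ext W; simp
    rw [this]
    exact measurableSet_lt (measurable_subtype_coe.comp (measurable_pi_apply f)) measurable_const
  have key : ∀ t : Set unitInterval, MeasurableSet t → (∀ U : Edge d → unitInterval,
      X s U e = b ↔ U e ∈ t) → volume t ≠ 0 → nu d {U | X s U ∈ B} = 0 := by
    intro t ht hiff hvol
    have h1 := indep_off e t ht A hAm
    have h2 : ({U : Edge d → unitInterval | U e ∈ t} ∩
        {U | (fun f : {f : Edge d // f ≠ e} => U f.1) ∈ A}) =
        {U | X s U ∈ B ∧ X s U e = b} := by
      ext U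
      constructor
      · rintro ⟨h3, h4⟩
        exact ⟨h4, (hiff U).2 h3⟩
      · rintro ⟨h3, h4⟩
        exact ⟨(hiff U).1 h4, h3⟩
    rw [h2, hs] at h1
    have h3 : nu d {U | (fun f : {f : Edge d // f ≠ e} => U f.1) ∈ A} = 0 := by
      rcases mul_eq_zero.1 h1.symm with h | h
      · exact absurd h hvol
      · exact h
    exact h3
  cases b with
  | true =>
    refine key {u | (u : ℝ) < Fe s e.1} (measurableSet_lt measurable_subtype_coe measurable_const)
      (fun U => X_true) ?_
    rw [vol_lt hFe.1.le hFe.2.le]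
    simpa using hFe.1
  | false =>
    refine key {u | ¬ (u : ℝ) < Fe s e.1}
      (measurableSet_lt measurable_subtype_coe measurable_const).compl
      (fun U => X_false) ?_
    rw [vol_not_lt hFe.1.le hFe.2.le]
    simpa using hFe.2

lemma off_le (e : Edge d) : off e ≤ (inferInstance : MeasurableSpace (Config d)) := by
  refine Measurable.comap_le ?_
  exact measurable_pi_lambda _ fun f => measurable_pi_apply _

theorem mu_finiteEnergy (hd : 2 ≤ d) (m : Measure (Fin d → ℤ_[3])) [IsProbabilityMeasure m]
    (hgen : ∀ᵐ s ∂m, ∀ i, Gen (s i)) : FiniteEnergy (mu m) := by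
  intro e
  have hle := off_le e
  have hOm : MeasurableSet {ω : Config d | ω e = true} := meas_state e true
  set f : Config d → ℝ := {ω : Config d | ω e = true}.indicator (fun _ => (1 : ℝ)) with hf
  have hint : Integrable f (mu m) := (integrable_const (1 : ℝ)).indicator hOm
  have hsm : StronglyMeasurable[off e] (condOpen (mu m) e) := stronglyMeasurable_condExp
  have hci : Integrable (condOpen (mu m) e) (mu m) := integrable_condExp
  have hlow : ∀ᵐ ω ∂(mu m), 0 < condOpen (mu m) e ω := by
    set Nn : Set (Config d) := {ω | condOpen (mu m) e ω ≤ 0} with hN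
    have hNm : MeasurableSet[off e] Nn := hsm.measurable measurableSet_Iic
    have h1 : ∫ ω in Nn, condOpen (mu m) e ω ∂(mu m) = ∫ ω in Nn, f ω ∂(mu m) :=
      setIntegral_condExp hle hint hNm
    have h2 : ∫ ω in Nn, condOpen (mu m) e ω ∂(mu m) ≤ 0 :=
      setIntegral_nonpos (hle _ hNm) fun ω hω => hω
    have h3 : ∫ ω in Nn, f ω ∂(mu m) = (mu m).real (Nn ∩ {ω | ω e = true}) := by
      rw [hf, setIntegral_indicator hOm]
      simp [measureReal_def]
    have h4 : mu m (Nn ∩ {ω | ω e = true}) = 0 := by
      have h5 : (mu m).real (Nn ∩ {ω | ω e = true}) = 0 :=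
        le_antisymm (by rw [← h3, ← h1]; exact h2) measureReal_nonneg
      rwa [measureReal_eq_zero_iff] at h5
    have h6 : mu m Nn = 0 := by
      by_contra hne
      exact mu_inter hd m hgen e Nn hNm true hne h4
    rw [ae_iff]
    convert h6 using 2
    ext ω
    simp [hN]
  have hhigh : ∀ᵐ ω ∂(mu m), condOpen (mu m) e ω < 1 := by
    set Nn : Set (Config d) := {ω | 1 ≤ condOpen (mu m) e ω} with hN
    have hNm : MeasurableSet[off e] Nn := hsm.measurable measurableSet_Ici
    have h1 : ∫ ω in Nn, condOpen (mu m) e ω ∂(mu m) = ∫ ω in Nn, f ω ∂(mu m) :=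
      setIntegral_condExp hle hint hNm
    have h2 : (mu m).real Nn ≤ ∫ ω in Nn, condOpen (mu m) e ω ∂(mu m) := by
      have : ∫ ω in Nn, (1 : ℝ) ∂(mu m) ≤ ∫ ω in Nn, condOpen (mu m) e ω ∂(mu m) :=
        setIntegral_mono_on (integrable_const _).integrableOn hci.integrableOn (hle _ hNm)
          fun ω hω => hω
      simpa [measureReal_def] using this
    have h3 : ∫ ω in Nn, f ω ∂(mu m) = (mu m).real (Nn ∩ {ω | ω e = true}) := by
      rw [hf, setIntegral_indicator hOm]
      simp [measureReal_def]
    have h4 : mu m (Nn ∩ {ω | ω e = false}) = 0 := by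
      have h5 : (mu m).real Nn = (mu m).real (Nn ∩ {ω | ω e = true}) +
          (mu m).real (Nn ∩ {ω | ω e = false}) := by
        rw [← measureReal_inter_add_sdiff (s := Nn) hOm]
        congr 2
        ext ω
        simp
      have h6 : (mu m).real (Nn ∩ {ω | ω e = false}) = 0 :=
        le_antisymm (by linarith) measureReal_nonneg
      rwa [measureReal_eq_zero_iff] at h6
    have h6 : mu m Nn = 0 := by
      by_contra hne
      exact mu_inter hd m hgen e Nn hNm false hne h4
    rw [ae_iff]
    convert h6 using 2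
    ext ω
    simp [hN]
  filter_upwards [hlow, hhigh] with ω h1 h2
  exact ⟨h1, h2⟩

end Pool.Agent.T2h69.Perc
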