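import Mathlib
import Pool.Agent.T2h69.PercProb2

/-!
# The percolation law percolates almost surely
-/

open MeasureTheory ProbabilityTheory Filter
open scoped ENNReal

namespace Pool.Agent.T2h69.Perc

attribute [local instance] mZ bZ

variable {d : ℕ}

lemma openGraph_adj {ω : Config d} {x y : Fin d → ℤ} : (openGraph ω).Adj x y ↔
    ∃ h : s(x, y) ∈ (lattice d).edgeSet, ω ⟨s(x, y), h⟩ = true := by
  unfold openGraph
  rw [SimpleGraph.fromEdgeSet_adj]
  constructor
  · rintro ⟨h, -⟩
    exact h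
  · intro h
    exact ⟨h, ((SimpleGraph.mem_edgeSet _).1 h.1).ne⟩

lemma meas_adj (x y : Fin d → ℤ) : MeasurableSet {ω : Config d | (openGraph ω).Adj x y} := by
  by_cases h : s(x, y) ∈ (lattice d).edgeSet
  · have : {ω : Config d | (openGraph ω).Adj x y} = {ω | ω ⟨s(x, y), h⟩ = true} := by
      ext ω
      simp only [Set.mem_ofPred_eq, openGraph_adj]
      exact ⟨fun ⟨_, h'⟩ => h', fun h' => ⟨h, h'⟩⟩
    rw [this]
    exact meas_state _ _
  · have : {ω : Config d | (openGraph ω).Adj x y} = ∅ := by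
      ext ω
      simp only [Set.mem_ofPred_eq, openGraph_adj, Set.mem_empty_iff_false, iff_false]
      rintro ⟨h', -⟩
      exact h h'
    rw [this]
    exact MeasurableSet.empty

/-- Reachability in at most `n` steps. -/
def reach (ω : Config d) : ℕ → (Fin d → ℤ) → (Fin d → ℤ) → Prop
  | 0, x, y => x = y
  | n + 1, x, y => ∃ z, reach ω n x z ∧ (z = y ∨ (openGraph ω).Adj z y)

lemma meas_reach (n : ℕ) (x y : Fin d → ℤ) : MeasurableSet {ω : Config d | reach ω n x y} := by
  induction n generalizing y with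
  | zero =>
    simp only [reach]
    exact MeasurableSet.const _
  | succ n ih =>
    have : {ω : Config d | reach ω (n + 1) x y} =
        ⋃ z, ({ω | reach ω n x z} ∩ ({ω | z = y} ∪ {ω | (openGraph ω).Adj z y})) := by
      ext ω
      simp [reach]
    rw [this]
    exact MeasurableSet.iUnion fun z => (ih z).inter ((MeasurableSet.const _).union (meas_adj z y))

lemma reachable_iff (ω : Config d) (x y : Fin d → ℤ) :
    (openGraph ω).Reachable x y ↔ ∃ n, reach ω n x y := by
  constructor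
  · intro h
    rw [SimpleGraph.reachable_iff_reflTransGen] at h
    induction h with
    | refl => exact ⟨0, rfl⟩
    | tail _ hadj ih =>
      obtain ⟨n, hn⟩ := ih
      exact ⟨n + 1, _, hn, Or.inr hadj⟩
  · rintro ⟨n, hn⟩
    induction n generalizing y with
    | zero =>
      have : x = y := hn
      rw [this]
    | succ n ih =>
      obtain ⟨z, hz, rfl | hadj⟩ := hn
      · exact ih _ hz
      · exact (ih _ hz).trans hadj.reachable

lemma meas_reachable (x y : Fin d → ℤ) :
    MeasurableSet {ω : Config d | (openGraph ω).Reachable x y} := by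
  have : {ω : Config d | (openGraph ω).Reachable x y} = ⋃ n, {ω | reach ω n x y} := by
    ext ω
    simp [reachable_iff]
  rw [this]
  exact MeasurableSet.iUnion fun n => meas_reach n x y

lemma hasInf_iff (ω : Config d) : HasInfiniteCluster ω ↔
    ∃ x, ∀ T : Finset (Fin d → ℤ), ∃ y, y ∉ T ∧ (openGraph ω).Reachable x y := by
  constructor
  · rintro ⟨C, hC⟩
    obtain ⟨x, hx⟩ := hC.nonempty
    refine ⟨x, fun T => ?_⟩
    obtain ⟨y, hy, hyT⟩ := hC.exists_notMem_finset T
    refine ⟨y, hyT, ?_⟩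
    rw [SimpleGraph.ConnectedComponent.mem_supp_iff] at hx hy
    exact SimpleGraph.ConnectedComponent.eq.1 (hx.trans hy.symm)
  · rintro ⟨x, hx⟩
    refine ⟨(openGraph ω).connectedComponentMk x, ?_⟩
    intro hfin
    obtain ⟨y, hy, hr⟩ := hx hfin.toFinset
    apply hy
    rw [Set.Finite.mem_toFinset, SimpleGraph.ConnectedComponent.mem_supp_iff,
      SimpleGraph.ConnectedComponent.eq]
    exact hr.symm

lemma meas_hasInf : MeasurableSet {ω : Config d | HasInfiniteCluster ω} := by
  have : {ω : Config d | HasInfiniteCluster ω} =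
      ⋃ x, ⋂ T : Finset (Fin d → ℤ), ⋃ y, ({ω | y ∉ T} ∩ {ω | (openGraph ω).Reachable x y}) := by
    ext ω
    simp [hasInf_iff]
  rw [this]
  exact MeasurableSet.iUnion fun x => MeasurableSet.iInter fun T => MeasurableSet.iUnion fun y =>
    (MeasurableSet.const _).inter (meas_reachable x y)

/-- The series of the failure probabilities. -/
noncomputable def cn (d n : ℕ) : ℝ := ((3 ^ (n + 1)) ^ d * d : ℕ) * (rr d n / 2)

lemma cn_eq (d n : ℕ) : cn d n = ((3 : ℝ) ^ d * d / 2) * ((1 / 3 : ℝ) ^ d) ^ n := by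
  unfold cn rr
  have h1 : ((3 : ℝ) ^ (-n : ℤ)) = ((1 / 3 : ℝ)) ^ n := by
    rw [zpow_neg, zpow_natCast, one_div, inv_pow]
  rw [h1]
  push_cast
  have h2 : ((3 : ℝ) ^ (n + 1)) ^ d = 3 ^ d * (3 ^ d) ^ n := by
    rw [pow_succ, mul_pow, ← pow_mul, ← pow_mul, mul_comm n d]; ring
  have h3 : (((1 / 3 : ℝ)) ^ n) ^ (2 * d) = ((1 / 3 : ℝ) ^ d) ^ n * ((1 / 3 : ℝ) ^ d) ^ n := by
    rw [← pow_mul, ← pow_mul, ← pow_add]; ring_nf
  have h4 : ((3 : ℝ) ^ d) ^ n * ((1 / 3 : ℝ) ^ d) ^ n = 1 := by
    rw [← mul_pow, ← mul_pow]; norm_num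
  rw [h2, h3]
  calc (3 : ℝ) ^ d * (3 ^ d) ^ n * d * (((1 / 3 : ℝ) ^ d) ^ n * ((1 / 3 : ℝ) ^ d) ^ n / 2)
      = (3 ^ d * d / 2) * ((3 ^ d) ^ n * ((1 / 3 : ℝ) ^ d) ^ n) * ((1 / 3 : ℝ) ^ d) ^ n := by ring
    _ = _ := by rw [h4, mul_one]

lemma cn_nonneg (d n : ℕ) : 0 ≤ cn d n := by
  rw [cn_eq]; positivity

lemma cn_summable (hd : 2 ≤ d) : Summable (cn d) := by
  have : cn d = fun n => ((3 : ℝ) ^ d * d / 2) * ((1 / 3 : ℝ) ^ d) ^ n := by
    funext n; exact cn_eq d n
  rw [this]
  refine (summable_geometric_of_lt_one (by positivity) ?_).mul_left _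
  exact pow_lt_one₀ (by norm_num) (by norm_num) (by omega)

lemma Fe_mem (hd : 2 ≤ d) {s : Fin d → ℤ_[3]} (hs : ∀ i, Gen (s i)) (e : Edge d) :
    0 < Fe s e.1 ∧ Fe s e.1 < 1 := by
  obtain ⟨e, he⟩ := e
  induction e using Sym2.inductionOn with
  | hf x y => exact F_mem hd hs ((SimpleGraph.mem_edgeSet _).1 he)

lemma nu_lt (e : Edge d) {p : ℝ} (h0 : 0 ≤ p) (h1 : p ≤ 1) :
    nu d {U | (U e : ℝ) < p} = ENNReal.ofReal p := by
  have : {U : Edge d → unitInterval | (U e : ℝ) < p} =
    (fun U : Edge d → unitInterval => U e) ⁻¹' {u : unitInterval | (u : ℝ) < p} := rfl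
  rw [this, ← Measure.map_apply (measurable_pi_apply e)
    (measurableSet_lt measurable_subtype_coe measurable_const), nu,
    Measure.infinitePi_map_eval, vol_lt h0 h1]

lemma nu_not_lt (e : Edge d) {p : ℝ} (h0 : 0 ≤ p) (h1 : p ≤ 1) :
    nu d {U | ¬ (U e : ℝ) < p} = ENNReal.ofReal (1 - p) := by
  have : {U : Edge d → unitInterval | ¬ (U e : ℝ) < p} =
    (fun U : Edge d → unitInterval => U e) ⁻¹' {u : unitInterval | ¬ (u : ℝ) < p} := rfl
  rw [this, ← Measure.map_apply (measurable_pi_apply e)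
    (measurableSet_lt measurable_subtype_coe measurable_const).compl, nu,
    Measure.infinitePi_map_eval, vol_not_lt h0 h1]

/-- For a generic environment the configuration has almost surely an infinite cluster. -/
lemma perc_of_gen (hd : 2 ≤ d) {s : Fin d → ℤ_[3]} (hs : ∀ i, Gen (s i)) :
    ∀ᵐ U ∂(nu d), HasInfiniteCluster (X s U) := by
  classical
  set A : ℕ → Set (Edge d → unitInterval) := fun n =>
    ⋃ e ∈ sk n s, {U | ¬ (U e : ℝ) < Fe s e.1} with hA
  have hAn : ∀ n, nu d (A n) ≤ ENNReal.ofReal (cn d n) := by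
    intro n
    calc nu d (A n) ≤ ∑ e ∈ sk n s, nu d {U | ¬ (U e : ℝ) < Fe s e.1} :=
          measure_biUnion_finset_le _ _
      _ ≤ ∑ e ∈ sk n s, ENNReal.ofReal (rr d n / 2) := by
          refine Finset.sum_le_sum fun e he => ?_
          have := Fe_mem hd hs e
          rw [nu_not_lt e this.1.le this.2.le]
          exact ENNReal.ofReal_le_ofReal (sk_le hd he)
      _ = ENNReal.ofReal ((sk n s).card * (rr d n / 2)) := by
          rw [Finset.sum_const, nsmul_eq_mul, ENNReal.ofReal_mul (by positivity),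
            ENNReal.ofReal_natCast]
      _ ≤ ENNReal.ofReal (cn d n) := by
          refine ENNReal.ofReal_le_ofReal ?_
          unfold cn
          have h1 : ((sk n s).card : ℝ) ≤ (((3 ^ (n + 1)) ^ d * d : ℕ) : ℝ) := by
            exact_mod_cast card_sk n s
          have h2 : 0 ≤ rr d n / 2 := by
            have := rr_nonneg d n
            positivity
          exact mul_le_mul_of_nonneg_right h1 h2
  have hsum : ∑' n, nu d (A n) ≠ ∞ := by
    refine ne_top_of_le_ne_top ?_ (ENNReal.tsum_le_tsum hAn)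
    exact (cn_summable hd).tsum_ofReal_ne_top
  filter_upwards [ae_eventually_notMem hsum] with U hU
  obtain ⟨n0, hn0⟩ := eventually_atTop.1 hU
  have hstep : ∀ n, n0 ≤ n → (openGraph (X s U)).Reachable (cc n s) (cc (n + 1) s) := by
    intro n hn
    refine centres_related n s _ (openGraph (X s U)).reachable_is_equivalence ?_
    intro x y h hsk
    refine SimpleGraph.Adj.reachable (openGraph_adj.2 ⟨h, X_true.2 ?_⟩)
    have := hn0 n hn
    simp only [hA, Set.mem_iUnion, not_exists, Set.mem_ofPred_eq] at this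
    exact not_not.1 (this _ hsk)
  have hall : ∀ n, n0 ≤ n → (openGraph (X s U)).Reachable (cc n0 s) (cc n s) := by
    intro n hn
    induction n, hn using Nat.le_induction with
    | base => exact SimpleGraph.Reachable.refl _
    | succ n hn ih => exact ih.trans (hstep n hn)
  rw [hasInf_iff]
  refine ⟨cc n0 s, fun T => ?_⟩
  have i0 : Fin d := ⟨0, by omega⟩
  have hev : ∀ᶠ n in atTop, ∀ x ∈ T, cc n s ≠ x := by
    rw [Filter.eventually_all_finset]
    intro x _
    filter_upwards [eventually_cen_ne (hs i0) (x i0)] with n hn h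
    exact hn (congrFun h i0)
  obtain ⟨n, h1, h2⟩ := (hev.and (eventually_ge_atTop n0)).exists
  exact ⟨cc n s, fun h => h1 _ h rfl, hall n h2⟩

/-- The law percolates almost surely. -/
theorem mu_percolates (hd : 2 ≤ d) (m : Measure (Fin d → ℤ_[3])) [IsProbabilityMeasure m]
    (hgen : ∀ᵐ s ∂m, ∀ i, Gen (s i)) : ∀ᵐ ω ∂(mu m), HasInfiniteCluster ω := by
  rw [mu, ae_map_iff meas_XX.aemeasurable meas_hasInf]
  rw [Measure.ae_prod_iff_ae_ae (p := fun q => HasInfiniteCluster (XX q)) (meas_XX meas_hasInf)]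
  filter_upwards [hgen] with s hs
  exact perc_of_gen hd hs

end Pool.Agent.T2h69.Perc
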