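import Mathlib
import Pool.Agent.T2h69.PercProb3

/-!
# Thinnings do not percolate, and the critical value is one
-/

open MeasureTheory ProbabilityTheory Filter
open scoped ENNReal

namespace Pool.Agent.T2h69.Perc

attribute [local instance] mZ bZ

variable {d : ℕ}

/-- The coins of the thinning. -/
noncomputable def kap (d : ℕ) (p : unitInterval) : Measure (Edge d → Bool) :=
  Measure.infinitePi fun _ => bernoulliMeasure true false p

instance (p : unitInterval) : IsProbabilityMeasure (kap d p) := by unfold kap; infer_instance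

lemma prod_indep {ι α : Type*} [MeasurableSpace α] (μ : ι → Measure α)
    [∀ i, IsProbabilityMeasure (μ i)] (T : ι → Set α) (hT : ∀ i, MeasurableSet (T i))
    (D : ℕ → Finset ι) (J : Finset ℕ)
    (hD : ∀ i j, i < j → Disjoint (D i) (D j)) :
    Measure.infinitePi μ (⋂ k ∈ J, Set.pi (D k : Set ι) T) =
      ∏ k ∈ J, Measure.infinitePi μ (Set.pi (D k : Set ι) T) := by
  classical
  have h1 : (⋂ k ∈ J, Set.pi (D k : Set ι) T) = Set.pi ((J.biUnion D : Finset ι) : Set ι) T := by
    ext x
    simp only [Set.mem_iInter, Set.mem_pi, Finset.mem_coe, Finset.mem_biUnion]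
    constructor
    · rintro h i ⟨k, hk, hi⟩
      exact h k hk i hi
    · intro h k hk i hi
      exact h i ⟨k, hk, hi⟩
  rw [h1, Measure.infinitePi_pi μ (fun i _ => hT i), Finset.prod_biUnion]
  · refine Finset.prod_congr rfl fun k _ => ?_
    rw [Measure.infinitePi_pi μ (fun i _ => hT i)]
  · intro i _ j _ hij
    rcases lt_or_gt_of_ne hij with h | h
    · exact hD i j h
    · exact (hD j i h).symm

/-- Boundaries of far away levels are disjoint. -/
lemma bd_disjoint {s : Fin d → ℤ_[3]} (hs : ∀ i, Gen (s i)) (n : ℕ) :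
    ∀ᶠ m in atTop, Disjoint (bd n s) (bd m s) := by
  have h1 : ∀ᶠ m in atTop, ∀ e ∈ bd n s, ∀ z ∈ e.1, z ∈ box m s := by
    rw [Filter.eventually_all_finset]
    intro e _
    obtain ⟨e, he⟩ := e
    induction e using Sym2.inductionOn with
    | hf x y =>
      filter_upwards [eventually_mem_box hs x, eventually_mem_box hs y] with m h1 h2 z hz
      rcases Sym2.mem_iff.1 hz with rfl | rfl
      · exact h1
      · exact h2
  filter_upwards [h1] with m hm
  rw [Finset.disjoint_left]
  intro e he he'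
  obtain ⟨x, p, _, hy, rfl⟩ := bd_form he'
  exact hy (hm _ he (nb x p) (Sym2.mem_mk_right x (nb x p)))

/-- If the boundary of the box is closed then clusters do not leave the box. -/
lemma stay {n : ℕ} {s : Fin d → ℤ_[3]} {T : Config d} (hT : ∀ e ∈ bd n s, T e = false)
    {x y : Fin d → ℤ} (hx : x ∈ box n s) (h : (openGraph T).Reachable x y) : y ∈ box n s := by
  rw [SimpleGraph.reachable_iff_reflTransGen] at h
  induction h with
  | refl => exact hx
  | tail _ hadj ih =>
    by_contra hc
    obtain ⟨he, hTe⟩ := openGraph_adj.1 hadj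
    have := hT _ (mem_bd ((SimpleGraph.mem_edgeSet _).1 he) ih hc)
    rw [this] at hTe
    exact Bool.noConfusion hTe

/-- Bound for the total probability of an open non-skeleton wall edge. -/
noncomputable def dn (d n : ℕ) : ℝ := ((3 ^ n) ^ d * (d * 2) : ℕ) * (rr d n / 2)

lemma dn_eq (d n : ℕ) : dn d n = d * ((1 / 3 : ℝ) ^ d) ^ n := by
  unfold dn rr
  have h1 : ((3 : ℝ) ^ (-n : ℤ)) = ((1 / 3 : ℝ)) ^ n := by
    rw [zpow_neg, zpow_natCast, one_div, inv_pow]
  rw [h1]
  push_cast
  have h2 : ((3 : ℝ) ^ n) ^ d = (3 ^ d) ^ n := by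
    rw [← pow_mul, ← pow_mul, mul_comm n d]
  have h3 : (((1 / 3 : ℝ)) ^ n) ^ (2 * d) = ((1 / 3 : ℝ) ^ d) ^ n * ((1 / 3 : ℝ) ^ d) ^ n := by
    rw [← pow_mul, ← pow_mul, ← pow_add]; ring_nf
  have h4 : ((3 : ℝ) ^ d) ^ n * ((1 / 3 : ℝ) ^ d) ^ n = 1 := by
    rw [← mul_pow, ← mul_pow]; norm_num
  rw [h2, h3]
  calc ((3 : ℝ) ^ d) ^ n * (d * 2) * (((1 / 3 : ℝ) ^ d) ^ n * ((1 / 3 : ℝ) ^ d) ^ n / 2)
      = d * ((3 ^ d) ^ n * ((1 / 3 : ℝ) ^ d) ^ n) * ((1 / 3 : ℝ) ^ d) ^ n := by ring
    _ = _ := by rw [h4, mul_one]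

lemma dn_small (hd : 2 ≤ d) : ∀ᶠ n in atTop, dn d n ≤ 1 / 2 := by
  have h : Tendsto (dn d) atTop (nhds 0) := by
    have : dn d = fun n => (d : ℝ) * ((1 / 3 : ℝ) ^ d) ^ n := by
      funext n; exact dn_eq d n
    rw [this]
    have h1 := tendsto_pow_atTop_nhds_zero_of_lt_one (r := (1 / 3 : ℝ) ^ d) (by positivity)
      (pow_lt_one₀ (by norm_num) (by norm_num) (by omega))
    simpa using h1.const_mul (d : ℝ)
  exact h.eventually_le_const (by norm_num)

/-- For a generic environment, the thinned configuration has almost surely no infinite cluster. -/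
lemma thin_of_gen (hd : 2 ≤ d) {s : Fin d → ℤ_[3]} (hs : ∀ i, Gen (s i)) (p : unitInterval)
    (hp : (p : ℝ) < 1) :
    ∀ᵐ q ∂((nu d).prod (kap d p)), ¬ HasInfiniteCluster (fun e => X s q.1 e && q.2 e) := by
  classical
  obtain ⟨n0, hn0⟩ := eventually_atTop.1 (dn_small hd)
  obtain ⟨f, hf0, hf1⟩ := exists_seq_of_forall_finset_exists (fun n : ℕ => n0 ≤ n)
    (fun m n => Disjoint (bd m s) (bd n s) ∧ m < n) (by
      intro J _
      have h1 : ∀ᶠ y in atTop, ∀ x ∈ J, Disjoint (bd x s) (bd y s) ∧ x < y := by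
        rw [Filter.eventually_all_finset]
        intro x _
        exact (bd_disjoint hs x).and (eventually_gt_atTop x)
      obtain ⟨y, hy1, hy2⟩ := (h1.and (eventually_ge_atTop n0)).exists
      exact ⟨y, hy2, hy1⟩)
  have hfmono : StrictMono f := fun m n h => (hf1 m n h).2
  set TU : Edge d → Set unitInterval := fun e => {u | ¬ (u : ℝ) < Fe s e.1} with hTU
  have hTUm : ∀ e, MeasurableSet (TU e) := fun e =>
    (measurableSet_lt measurable_subtype_coe measurable_const).compl
  set TV : Edge d → Set Bool := fun _ => {false} with hTV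
  have hTVm : ∀ e, MeasurableSet (TV e) := fun e => measurableSet_singleton _
  set AU : ℕ → Set (Edge d → unitInterval) := fun n => Set.pi (ng n s : Set (Edge d)) TU with hAU
  set AV : ℕ → Set (Edge d → Bool) := fun n => Set.pi (gd n s : Set (Edge d)) TV with hAV
  have hAUm : ∀ n, MeasurableSet (AU n) := fun n =>
    MeasurableSet.pi (Finset.countable_toSet _) fun e _ => hTUm e
  have hAVm : ∀ n, MeasurableSet (AV n) := fun n =>
    MeasurableSet.pi (Finset.countable_toSet _) fun e _ => hTVm e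
  set A : ℕ → Set ((Edge d → unitInterval) × (Edge d → Bool)) := fun k =>
    AU (f k) ×ˢ AV (f k) with hA
  have hAm : ∀ k, MeasurableSet (A k) := fun k => (hAUm _).prod (hAVm _)
  -- independence
  have hind : iIndepSet A ((nu d).prod (kap d p)) := by
    rw [iIndepSet_iff_meas_biInter hAm]
    intro J
    have h1 : (⋂ k ∈ J, A k) = (⋂ k ∈ J, AU (f k)) ×ˢ (⋂ k ∈ J, AV (f k)) := by
      ext q
      simp only [hA, Set.mem_iInter, Set.mem_prod]
      constructor
      · intro h
        exact ⟨fun k hk => (h k hk).1, fun k hk => (h k hk).2⟩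
      · rintro ⟨h1, h2⟩ k hk
        exact ⟨h1 k hk, h2 k hk⟩
    rw [h1, Measure.prod_prod]
    have h2 : (nu d) (⋂ k ∈ J, AU (f k)) = ∏ k ∈ J, (nu d) (AU (f k)) :=
      prod_indep _ TU hTUm (fun k => ng (f k) s) J (fun i j hij =>
        (hf1 i j hij).1.mono (Finset.filter_subset _ _) (Finset.filter_subset _ _))
    have h3 : (kap d p) (⋂ k ∈ J, AV (f k)) = ∏ k ∈ J, (kap d p) (AV (f k)) :=
      prod_indep _ TV hTVm (fun k => gd (f k) s) J (fun i j hij =>
        (hf1 i j hij).1.mono (Finset.filter_subset _ _) (Finset.filter_subset _ _))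
    rw [h2, h3, ← Finset.prod_mul_distrib]
    refine Finset.prod_congr rfl fun k _ => ?_
    rw [hA, Measure.prod_prod]
  -- lower bounds
  have hU : ∀ k, ENNReal.ofReal (1 / 2) ≤ (nu d) (AU (f k)) := by
    intro k
    have h1 : (nu d) (AU (f k))ᶜ ≤ ENNReal.ofReal (1 / 2) := by
      have hsub : (AU (f k))ᶜ ⊆ ⋃ e ∈ ng (f k) s, {U | (U e : ℝ) < Fe s e.1} := by
        intro U hU
        simp only [hAU, Set.mem_compl_iff, Set.mem_pi, Finset.mem_coe, not_forall] at hU
        obtain ⟨e, he, hUe⟩ := hU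
        simp only [Set.mem_iUnion]
        exact ⟨e, he, not_not.1 hUe⟩
      calc (nu d) (AU (f k))ᶜ ≤ (nu d) (⋃ e ∈ ng (f k) s, {U | (U e : ℝ) < Fe s e.1}) :=
            measure_mono hsub
        _ ≤ ∑ e ∈ ng (f k) s, (nu d) {U | (U e : ℝ) < Fe s e.1} :=
            measure_biUnion_finset_le _ _
        _ ≤ ∑ e ∈ ng (f k) s, ENNReal.ofReal (rr d (f k) / 2) := by
            refine Finset.sum_le_sum fun e he => ?_
            have := Fe_mem hd hs e
            rw [nu_lt e this.1.le this.2.le]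
            exact ENNReal.ofReal_le_ofReal (ng_le hd he)
        _ = ENNReal.ofReal ((ng (f k) s).card * (rr d (f k) / 2)) := by
            rw [Finset.sum_const, nsmul_eq_mul, ENNReal.ofReal_mul (by positivity),
              ENNReal.ofReal_natCast]
        _ ≤ ENNReal.ofReal (dn d (f k)) := by
            refine ENNReal.ofReal_le_ofReal ?_
            unfold dn
            have h1 : ((ng (f k) s).card : ℝ) ≤ (((3 ^ (f k)) ^ d * (d * 2) : ℕ) : ℝ) := by
              exact_mod_cast (Finset.card_filter_le _ _).trans (card_bd (f k) s)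
            have h2 : 0 ≤ rr d (f k) / 2 := by
              have := rr_nonneg d (f k)
              positivity
            exact mul_le_mul_of_nonneg_right h1 h2
        _ ≤ ENNReal.ofReal (1 / 2) := ENNReal.ofReal_le_ofReal (hn0 _ (hf0 k))
    have h2 := prob_add_prob_compl (μ := nu d) (hAUm (f k))
    have h3 : ENNReal.ofReal (1 / 2) + ENNReal.ofReal (1 / 2) = 1 := by
      rw [← ENNReal.ofReal_add (by norm_num) (by norm_num)]; norm_num
    by_contra hcon
    rw [not_le] at hcon
    have h4 : (nu d) (AU (f k)) + (nu d) (AU (f k))ᶜ < 1 := by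
      rw [← h3]
      exact ENNReal.add_lt_add_of_lt_of_le (measure_ne_top _ _) hcon h1
    rw [h2] at h4
    exact lt_irrefl _ h4
  have hV : ∀ k, ENNReal.ofReal (1 - p) ^ (d * 2) ≤ (kap d p) (AV (f k)) := by
    intro k
    rw [hAV, kap, Measure.infinitePi_pi _ (fun e _ => hTVm e)]
    have h1 : ∀ e : Edge d, bernoulliMeasure true false p (TV e) = ENNReal.ofReal (1 - p) := by
      intro e
      rw [hTV, bernoulliMeasure_def]
      simp only [Measure.coe_add, Measure.coe_smul, Pi.add_apply, Pi.smul_apply]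
      rw [Measure.dirac_apply' _ (measurableSet_singleton _),
        Measure.dirac_apply' _ (measurableSet_singleton _)]
      simp only [Set.indicator, Set.mem_singleton_iff, Bool.true_eq_false, if_false, if_true,
        smul_zero, zero_add, Pi.one_apply]
      rw [ENNReal.smul_def, smul_eq_mul, mul_one]
      rw [ENNReal.ofReal]
      congr 1
      apply NNReal.eq
      rw [Real.coe_toNNReal _ (by linarith)]
      simp [unitInterval.coe_symm_eq]
    rw [Finset.prod_congr rfl (fun e _ => h1 e), Finset.prod_const]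
    refine pow_le_pow_right_of_le_one' ?_ (card_gd (f k) s)
    rw [← ENNReal.ofReal_one]
    exact ENNReal.ofReal_le_ofReal (by linarith [p.2.1])
  set c : ℝ≥0∞ := ENNReal.ofReal (1 / 2) * ENNReal.ofReal (1 - p) ^ (d * 2) with hc
  have hcpos : c ≠ 0 := by
    refine mul_ne_zero (by simp) (pow_ne_zero _ ?_)
    simpa using hp
  have hPA : ∀ k, c ≤ ((nu d).prod (kap d p)) (A k) := by
    intro k
    rw [hA, Measure.prod_prod]
    exact mul_le_mul' (hU k) (hV k)
  have hsum : ∑' k, ((nu d).prod (kap d p)) (A k) = ∞ := by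
    refine top_unique ?_
    rw [← ENNReal.tsum_const_eq_top_of_ne_zero (α := ℕ) hcpos]
    exact ENNReal.tsum_le_tsum hPA
  have hlim := measure_limsup_eq_one hAm hind hsum
  have hlimm : MeasurableSet (limsup A atTop) := MeasurableSet.measurableSet_limsup hAm
  have hae := (mem_ae_iff_prob_eq_one hlimm).2 hlim
  filter_upwards [hae] with q hq
  rw [mem_limsup_iff_frequently_mem] at hq
  rintro ⟨C, hC⟩
  obtain ⟨x, hx⟩ := hC.nonempty
  have hev : ∀ᶠ k in atTop, x ∈ box (f k) s :=
    hfmono.tendsto_atTop.eventually (eventually_mem_box hs x)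
  obtain ⟨k, hk1, hk2⟩ := (hq.and_eventually hev).exists
  apply hC
  refine (box (f k) s).finite_toSet.subset ?_
  intro y hy
  have hclosed : ∀ e ∈ bd (f k) s, (X s q.1 e && q.2 e) = false := by
    intro e he
    by_cases hg : ∃ x y, e.1 = s(x, y) ∧ good s x y
    · have : q.2 e = false := hk1.2 e (Finset.mem_coe.2 (Finset.mem_filter.2 ⟨he, hg⟩))
      rw [this, Bool.and_false]
    · have : ¬ ((q.1 e : unitInterval) : ℝ) < Fe s e.1 :=
        hk1.1 e (Finset.mem_coe.2 (Finset.mem_filter.2 ⟨he, hg⟩))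
      rw [X_false.2 this, Bool.false_and]
  refine Finset.mem_coe.2 (stay (T := fun e => X s q.1 e && q.2 e) hclosed hk2 ?_)
  rw [SimpleGraph.ConnectedComponent.mem_supp_iff] at hx hy
  exact SimpleGraph.ConnectedComponent.eq.1 (hx.trans hy.symm)

lemma meas_and : Measurable (fun (q : Config d × Config d) (e : Edge d) => (q.1 e && q.2 e)) := by
  refine measurable_pi_lambda _ fun e => ?_
  refine measurable_to_bool ?_
  have : (fun q : Config d × Config d => (q.1 e && q.2 e)) ⁻¹' {true} =
      ({ω : Config d | ω e = true} ×ˢ {ω : Config d | ω e = true}) := by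
    ext q
    simp
  rw [this]
  exact (meas_state e true).prod (meas_state e true)

/-- The thinnings of the law do not percolate. -/
theorem mu_thin (hd : 2 ≤ d) (m : Measure (Fin d → ℤ_[3])) [IsProbabilityMeasure m]
    (hgen : ∀ᵐ s ∂m, ∀ i, Gen (s i)) (p : unitInterval) (hp : (p : ℝ) < 1) :
    ∀ᵐ ω ∂(thinning p (mu m)), ¬ HasInfiniteCluster ω := by
  have hkap : (Measure.infinitePi fun _ : Edge d => bernoulliMeasure true false p) = kap d p := rfl
  rw [thinning, hkap, ae_map_iff (p := fun ω : Config d => ¬ HasInfiniteCluster ω)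
    meas_and.aemeasurable meas_hasInf.compl]
  have h1 : (mu m).prod (kap d p) =
      ((m.prod (nu d)).prod (kap d p)).map (Prod.map XX id) := by
    rw [mu, ← Measure.map_prod_map _ _ meas_XX measurable_id, Measure.map_id]
  have hset : MeasurableSet {q : Config d × Config d |
      ¬ HasInfiniteCluster (fun e => q.1 e && q.2 e)} := meas_and meas_hasInf.compl
  rw [h1, ae_map_iff (meas_XX.prodMap measurable_id).aemeasurable hset]
  have h2 := (MeasureTheory.measurePreserving_prodAssoc m (nu d) (kap d p))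
  have h3 : ∀ᵐ q ∂(m.prod ((nu d).prod (kap d p))),
      ¬ HasInfiniteCluster (fun e => X q.1 q.2.1 e && q.2.2 e) := by
    have hms : MeasurableSet {q : (Fin d → ℤ_[3]) × ((Edge d → unitInterval) × Config d) |
        ¬ HasInfiniteCluster (fun e => X q.1 q.2.1 e && q.2.2 e)} := by
      have hm : Measurable (fun q : (Fin d → ℤ_[3]) × ((Edge d → unitInterval) × Config d) =>
          (XX (q.1, q.2.1), q.2.2)) :=
        (meas_XX.comp (measurable_fst.prodMk (measurable_fst.comp measurable_snd))).prodMk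
          (measurable_snd.comp measurable_snd)
      exact hm hset
    rw [Measure.ae_prod_iff_ae_ae (p := fun q : (Fin d → ℤ_[3]) ×
      ((Edge d → unitInterval) × Config d) =>
        ¬ HasInfiniteCluster (fun e => X q.1 q.2.1 e && q.2.2 e)) hms]
    filter_upwards [hgen] with s hs
    exact thin_of_gen hd hs p hp
  exact h2.quasiMeasurePreserving.ae h3

/-- The critical value is one. -/
theorem mu_critical (hd : 2 ≤ d) (m : Measure (Fin d → ℤ_[3])) [IsProbabilityMeasure m]
    (hgen : ∀ᵐ s ∂m, ∀ i, Gen (s i)) : criticalValue (mu m) = 1 := by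
  unfold criticalValue
  have hmem : ∀ p : ℝ, 0 ≤ p → p < 1 → p ∈ {p : ℝ | ∃ hp : p ∈ Set.Icc (0 : ℝ) 1,
      ∀ᵐ ω ∂(thinning ⟨p, hp⟩ (mu m)), ¬ HasInfiniteCluster ω} := by
    intro p h0 h1
    exact ⟨⟨h0, h1.le⟩, mu_thin hd m hgen ⟨p, h0, h1.le⟩ h1⟩
  have hbdd : BddAbove {p : ℝ | ∃ hp : p ∈ Set.Icc (0 : ℝ) 1,
      ∀ᵐ ω ∂(thinning ⟨p, hp⟩ (mu m)), ¬ HasInfiniteCluster ω} := by
    refine ⟨1, ?_⟩
    rintro p ⟨hp, -⟩
    exact hp.2
  refine le_antisymm ?_ ?_
  · refine csSup_le ⟨0, hmem 0 le_rfl one_pos⟩ ?_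
    rintro p ⟨hp, -⟩
    exact hp.2
  · refine le_of_forall_lt fun c hc => ?_
    have h1 : max c 0 < 1 := max_lt hc one_pos
    obtain ⟨p, hp1, hp2⟩ := exists_between h1
    have h3 := le_csSup hbdd (hmem p ((le_max_right _ _).trans hp1.le) hp2)
    exact lt_of_lt_of_le (lt_of_le_of_lt (le_max_left _ _) hp1) h3

end Pool.Agent.T2h69.Perc
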